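import Mathlib

/-!
# Project RH (MP_d5570f_nt): the order of magnitude in almost every host, definitions
-/

open Finset

namespace Pool.Agent.Helper24.RH

/-- The `n ≤ N` that miss the classes of `D` modulo `p ^ 2` for few of the `p ∈ P`. -/
def Kn (N : ℕ) (P : Finset ℕ) (t : ℕ) (D : Finset ℕ) : Finset ℕ :=
  (Icc 1 N).filter
    (fun n => 4 * (P.filter (fun p => n % p ^ 2 ∉ D.image (fun d => d % p ^ 2))).card ≤ t)

/-- The `n ≤ N` with `n ≡ a [MOD Q]`, in the classes `G p` modulo `p ^ 2` for `p ∈ T`, outside the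
classes `H p` modulo `p ^ 2` for `p ∈ P`. -/
def Sw (N : ℕ) (G H : ℕ → Finset ℕ) (T P : Finset ℕ) (Q a : ℕ) : Finset ℕ :=
  (Icc 1 N).filter (fun n => n ≡ a [MOD Q] ∧ (∀ p ∈ T, n % p ^ 2 ∈ G p) ∧
    ∀ p ∈ P, n % p ^ 2 ∉ H p)

/-- The product of the `1 - |H p| / p ^ 2`. -/
noncomputable def dn (H : ℕ → Finset ℕ) (P : Finset ℕ) : ℝ :=
  ∏ p ∈ P, (1 - ((H p).card : ℝ) / (p : ℝ) ^ 2)

/-- The sum of the `|H p| / p ^ 2`. -/
noncomputable def sg (H : ℕ → Finset ℕ) (P : Finset ℕ) : ℝ :=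
  ∑ p ∈ P, ((H p).card : ℝ) / (p : ℝ) ^ 2

/-- The sum of the `|H p|`. -/
noncomputable def wt (H : ℕ → Finset ℕ) (P : Finset ℕ) : ℝ := ∑ p ∈ P, ((H p).card : ℝ)

/-- The product of the `|G p| / p ^ 2`. -/
noncomputable def rh (G : ℕ → Finset ℕ) (T : Finset ℕ) : ℝ :=
  ∏ p ∈ T, (((G p).card : ℝ) / (p : ℝ) ^ 2)

/-- The product of the `|G p|`. -/
noncomputable def pg (G : ℕ → Finset ℕ) (T : Finset ℕ) : ℝ := ∏ p ∈ T, ((G p).card : ℝ)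

/-- The nonzero classes modulo `p ^ 2` below `p ^ 2 / 2`. -/
def Gh (p : ℕ) : Finset ℕ := (range (p ^ 2)).filter (fun c => 0 < c ∧ 2 * c < p ^ 2)

/-- The classes `c` modulo `p ^ 2` with `p ^ 2 ∣ c` or `p ^ 2 ∣ c + d` for some `d ∈ D`. -/
def Hd (D : Finset ℕ) (p : ℕ) : Finset ℕ :=
  (range (p ^ 2)).filter (fun c => p ^ 2 ∣ c ∨ ∃ d ∈ D, p ^ 2 ∣ c + d)

/-- The primes up to `y`. -/
def pr (y : ℕ) : Finset ℕ := (Icc 1 y).filter Nat.Prime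

/-- The primes in `(y, z]`. -/
def pri (y z : ℕ) : Finset ℕ := (Ioc y z).filter Nat.Prime

/-- The `n ≤ N` in the classes `Gh p` modulo `p ^ 2` for all primes `p ≤ y`. -/
def Vy (N y : ℕ) : Finset ℕ := (Icc 1 N).filter (fun n => ∀ p ∈ pr y, n % p ^ 2 ∈ Gh p)

end Pool.Agent.Helper24.RH
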