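import Mathlib

/-!
# Project RH (MP_d5570f_nt), piece RH-1: few elements that meet the classes of most elements
-/

open Finset

namespace Pool.Agent.Helper24.RH

/-- the elements of `A` whose class modulo `p ^ 2` is not hit by `S` -/
private def RH1_U (A S : Finset ℕ) (p : ℕ) : Finset ℕ :=
  A.filter (fun a => a % p ^ 2 ∉ S.image (fun d => d % p ^ 2))

private theorem RH1_ins (A S : Finset ℕ) (p a : ℕ) :
    ((RH1_U A S p).filter (fun b => b % p ^ 2 = a % p ^ 2)).card +
      (RH1_U A (insert a S) p).card = (RH1_U A S p).card := by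
  have h : RH1_U A (insert a S) p =
      (RH1_U A S p).filter (fun b => ¬ b % p ^ 2 = a % p ^ 2) := by
    ext b
    simp only [RH1_U, Finset.mem_filter, Finset.image_insert, Finset.mem_insert, not_or]
    tauto
  rw [h]
  exact Finset.card_filter_add_card_filter_not (fun b => b % p ^ 2 = a % p ^ 2)

private theorem RH1_energy (U : Finset ℕ) {m : ℕ} (hm : 0 < m) :
    U.card ^ 2 ≤ m * ∑ a ∈ U, (U.filter (fun b => b % m = a % m)).card := by
  have hmaps : ∀ a ∈ U, a % m ∈ Finset.range m := fun a _ =>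
    Finset.mem_range.2 (Nat.mod_lt a hm)
  have h1 : U.card = ∑ c ∈ Finset.range m, (U.filter (fun b => b % m = c)).card :=
    Finset.card_eq_sum_card_fiberwise hmaps
  have h2 : ∑ a ∈ U, (U.filter (fun b => b % m = a % m)).card =
      ∑ c ∈ Finset.range m, (U.filter (fun b => b % m = c)).card ^ 2 := by
    rw [← Finset.sum_fiberwise_of_maps_to hmaps]
    refine Finset.sum_congr rfl fun c _ => ?_
    rw [sq, ← smul_eq_mul, ← Finset.sum_const]
    refine Finset.sum_congr rfl fun a ha => ?_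
    rw [(Finset.mem_filter.1 ha).2]
  rw [h2]
  conv_lhs => rw [h1]
  have h3 := sq_sum_le_card_mul_sum_sq (s := Finset.range m)
    (f := fun c => (U.filter (fun b => b % m = c)).card)
  rw [Finset.card_range] at h3
  exact h3

private theorem RH1_step (P A S : Finset ℕ) (y : ℕ) (hP : ∀ p ∈ P, 0 < p ∧ p ≤ y) :
    (∑ p ∈ P, (RH1_U A S p).card) ^ 2 ≤ P.card * y ^ 2 *
      ∑ a ∈ A, ∑ p ∈ P, ((RH1_U A S p).filter (fun b => b % p ^ 2 = a % p ^ 2)).card := by
  have h1 := sq_sum_le_card_mul_sum_sq (s := P) (f := fun p => (RH1_U A S p).card)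
  refine h1.trans ?_
  rw [mul_assoc]
  refine Nat.mul_le_mul_left _ ?_
  rw [Finset.sum_comm, Finset.mul_sum]
  refine Finset.sum_le_sum fun p hp => ?_
  obtain ⟨hp0, hpy⟩ := hP p hp
  have h2 := RH1_energy (RH1_U A S p) (m := p ^ 2) (by positivity)
  refine h2.trans ?_
  refine Nat.mul_le_mul (Nat.pow_le_pow_left hpy 2) ?_
  refine Finset.sum_le_sum_of_subset ?_
  exact Finset.filter_subset _ _

/-- Proof.  For `S ⊆ A` let `W S` be the sum over `p ∈ P` of the number of `a ∈ A` whose class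
modulo `p ^ 2` contains no element of `S`, and `M = |P| |A| y ^ 2`.  By induction on `K` there is
`S ⊆ A` with `|S| ≤ K` and `(K + 1) * W S ≤ M`.  `K = 0`: `W ∅ = |P| |A| ≤ M`.  Step: given `S`
with `(K + 1) * W S ≤ M`; for `a ∈ A` one has `W S - W (insert a S) = ∑ p, [a is not hit by S
modulo p ^ 2] * #{b ∈ A : b % p ^ 2 = a % p ^ 2}` and all these `b` are not hit by `S`; summed over
`a ∈ A` this is, with `U_p` the set of the elements of `A` not hit by `S` modulo `p ^ 2`,
`∑ p, ∑ (classes c modulo p ^ 2) #{b ∈ U_p : b % p ^ 2 = c} ^ 2 ≥ ∑ p, |U_p| ^ 2 / p ^ 2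
≥ (∑ p, |U_p|) ^ 2 / (|P| y ^ 2) = W S ^ 2 / (|P| y ^ 2)` (Cauchy-Schwarz twice,
`sq_sum_le_card_mul_sum_sq`).  Hence some `a ∈ A` has `(W S - W (insert a S)) * M ≥ W S ^ 2`,
so with `w = W S`, `w' = W (insert a S)`: `w' * M ≤ w * (M - w)`, and
`M ^ 2 - (K + 2) w (M - w) = (M - (K + 1) w) (M - w) + w ^ 2 ≥ 0`, so `(K + 2) w' ≤ M`. If `A` or `P` is empty everything is `0`. -/
theorem fingerprint (P A : Finset ℕ) (y K : ℕ) (hP : ∀ p ∈ P, 0 < p ∧ p ≤ y) :
    ∃ S : Finset ℕ, S ⊆ A ∧ S.card ≤ K ∧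
      (K + 1) * ∑ p ∈ P, (A.filter (fun a => a % p ^ 2 ∉ S.image (fun d => d % p ^ 2))).card
        ≤ P.card * A.card * y ^ 2 := by
  change ∃ S : Finset ℕ, S ⊆ A ∧ S.card ≤ K ∧
      (K + 1) * ∑ p ∈ P, (RH1_U A S p).card ≤ P.card * A.card * y ^ 2
  induction K with
  | zero =>
    refine ⟨∅, Finset.empty_subset _, le_rfl, ?_⟩
    have h1 : ∑ p ∈ P, (RH1_U A ∅ p).card ≤ ∑ p ∈ P, A.card * y ^ 2 := by
      refine Finset.sum_le_sum fun p hp => ?_
      obtain ⟨hp0, hpy⟩ := hP p hp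
      have h2 : (RH1_U A ∅ p).card ≤ A.card := Finset.card_filter_le _ _
      have h3 : 1 ≤ y ^ 2 := Nat.one_le_pow _ _ (by omega)
      calc (RH1_U A ∅ p).card ≤ A.card * 1 := by rw [mul_one]; exact h2
        _ ≤ A.card * y ^ 2 := Nat.mul_le_mul_left _ h3
    rw [Finset.sum_const, smul_eq_mul, ← mul_assoc] at h1
    simpa using h1
  | succ K ih =>
    obtain ⟨S, hSA, hSK, hS⟩ := ih
    rcases Finset.eq_empty_or_nonempty A with rfl | hA
    · refine ⟨∅, Finset.empty_subset _, Nat.zero_le _, ?_⟩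
      have h1 : ∀ p, (RH1_U ∅ ∅ p).card = 0 := fun p => rfl
      simp [h1]
    obtain ⟨M, hM⟩ : ∃ M, M = P.card * A.card * y ^ 2 := ⟨_, rfl⟩
    obtain ⟨w, hw⟩ : ∃ w, w = ∑ p ∈ P, (RH1_U A S p).card := ⟨_, rfl⟩
    rw [← hM, ← hw] at hS
    have hst := RH1_step P A S y hP
    rw [← hw] at hst
    have hex : ∃ a ∈ A, w ^ 2 ≤ M *
        ∑ p ∈ P, ((RH1_U A S p).filter (fun b => b % p ^ 2 = a % p ^ 2)).card := by
      by_contra hcon
      push Not at hcon
      have h1 : ∑ a ∈ A, M * ∑ p ∈ P,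
          ((RH1_U A S p).filter (fun b => b % p ^ 2 = a % p ^ 2)).card < ∑ a ∈ A, w ^ 2 :=
        Finset.sum_lt_sum_of_nonempty hA hcon
      rw [← Finset.mul_sum, Finset.sum_const, smul_eq_mul] at h1
      have h2 := Nat.mul_le_mul_left A.card hst
      have h3 : A.card * (P.card * y ^ 2 * ∑ a ∈ A, ∑ p ∈ P,
          ((RH1_U A S p).filter (fun b => b % p ^ 2 = a % p ^ 2)).card) =
          M * ∑ a ∈ A, ∑ p ∈ P,
          ((RH1_U A S p).filter (fun b => b % p ^ 2 = a % p ^ 2)).card := by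
        rw [hM]
        ring
      rw [h3] at h2
      exact absurd h1 (not_lt.2 h2)
    obtain ⟨a, ha, hle⟩ := hex
    refine ⟨insert a S, Finset.insert_subset ha hSA,
      (Finset.card_insert_le a S).trans (Nat.succ_le_succ hSK), ?_⟩
    obtain ⟨w', hw'⟩ : ∃ w', w' = ∑ p ∈ P, (RH1_U A (insert a S) p).card := ⟨_, rfl⟩
    obtain ⟨D, hD⟩ : ∃ D, D = ∑ p ∈ P,
        ((RH1_U A S p).filter (fun b => b % p ^ 2 = a % p ^ 2)).card := ⟨_, rfl⟩
    have hsum : D + w' = w := by
      rw [hD, hw', hw, ← Finset.sum_add_distrib]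
      exact Finset.sum_congr rfl fun p _ => RH1_ins A S p a
    rw [← hD] at hle
    rw [← hM, ← hw']
    rcases Nat.eq_zero_or_pos M with h0 | h0
    · rw [h0] at hS ⊢
      have h1 : w = 0 := by
        have := Nat.le_zero.1 hS
        rcases Nat.mul_eq_zero.1 this with h2 | h2
        · omega
        · exact h2
      have h2 : w' = 0 := by omega
      rw [h2, mul_zero]
    · -- with integers
      have hS' : ((K : ℤ) + 1) * w ≤ M := by exact_mod_cast hS
      have hle' : (w : ℤ) ^ 2 ≤ M * D := by exact_mod_cast hle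
      have hsum' : (D : ℤ) + w' = w := by exact_mod_cast hsum
      have hw0 : (0 : ℤ) ≤ w := Int.natCast_nonneg _
      have hK0 : (0 : ℤ) ≤ K := Int.natCast_nonneg _
      have hM0 : (0 : ℤ) < M := by exact_mod_cast h0
      have h1 : (w : ℤ) ≤ M := by nlinarith
      have h2 : (0 : ℤ) ≤ (M - (K + 1) * w) * (M - w) :=
        mul_nonneg (by linarith) (by linarith)
      have h3 : ((K : ℤ) + 2) * w' * M ≤ M * M := by
        have h4 : (w' : ℤ) * M ≤ w * (M - w) := by
          have h5 : (w' : ℤ) = w - D := by linarith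
          rw [h5]
          nlinarith
        have h6 : ((K : ℤ) + 2) * (w' * M) ≤ (K + 2) * (w * (M - w)) :=
          mul_le_mul_of_nonneg_left h4 (by linarith)
        nlinarith [sq_nonneg (w : ℤ)]
      have h7 : ((K : ℤ) + 2) * w' ≤ M := le_of_mul_le_mul_right h3 hM0
      have h8 : (((K + 1 + 1) * w' : ℕ) : ℤ) ≤ M := by
        push_cast
        linarith
      exact_mod_cast h8

end Pool.Agent.Helper24.RH
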