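import Mathlib
import Pool.Agent.Helper24.RH.Def

/-!
# Project RH (MP_d5570f_nt), piece RH-10: the choice of the parameters for the upper bound
-/

open Finset

namespace Pool.Agent.Helper24.RH

private theorem RH10_ev (x₀ : ℕ) : ∃ r₀ : ℕ, ∀ r : ℕ, r₀ ≤ r →
    1 ≤ Real.log r ∧ 8641 * Real.log (Real.log r) ≤ Real.log r ∧ (x₀ : ℝ) ≤ Real.log r ∧
      33 * Real.log r ^ 6 ≤ Real.exp (Real.log r) ∧ 1 ≤ r := by
  have h1 : ∀ᶠ L : ℝ in Filter.atTop, 1 ≤ L ∧ 8641 * Real.log L ≤ L ∧ (x₀ : ℝ) ≤ L ∧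
      33 * L ^ 6 ≤ Real.exp L := by
    have e1 := Filter.eventually_ge_atTop (1 : ℝ)
    have e2 := Filter.eventually_ge_atTop (x₀ : ℝ)
    have e3 := (Real.isLittleO_log_id_atTop).def (c := 1 / 8641) (by norm_num)
    have e4 := (Real.tendsto_exp_div_pow_atTop 6).eventually_ge_atTop 33
    filter_upwards [e1, e2, e3, e4] with L h1 h2 h3 h4
    refine ⟨h1, ?_, h2, ?_⟩
    · rw [Real.norm_eq_abs, Real.norm_eq_abs, id, abs_of_nonneg (by linarith : 0 ≤ L)] at h3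
      have h5 := (le_abs_self (Real.log L)).trans h3
      linarith
    · rw [le_div_iff₀ (by positivity)] at h4
      exact h4
  have h2 : Filter.Tendsto (fun r : ℕ => Real.log (r : ℝ)) Filter.atTop Filter.atTop :=
    Real.tendsto_log_atTop.comp tendsto_natCast_atTop_atTop
  obtain ⟨r₀, hr₀⟩ := Filter.eventually_atTop.1 ((h2.eventually h1).and
    (Filter.eventually_ge_atTop 1))
  refine ⟨r₀, fun r hr => ?_⟩
  obtain ⟨⟨a1, a2, a3, a4⟩, a5⟩ := hr₀ r hr
  exact ⟨a1, a2, a3, a4, a5⟩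

private theorem RH10_num : (16 : ℝ) / 44 ≤ Real.exp (-1) := by
  rw [Real.exp_neg, div_le_iff₀ (by norm_num), ← div_eq_inv_mul, le_div_iff₀ (Real.exp_pos 1)]
  have := Real.exp_one_lt_d9
  linarith

/-- Proof.  Write `L = log r`, `l = log L`, both large.  Take `b = ⌈44 L^(1/u)⌉`,
`h = ⌈3 u L / l⌉`, `y = ⌈8640 u L^(1+1/u)⌉`, `V = 32 * 16 ^ h * N / b ^ h` (natural division).
`u L / l ≥ 1` as `u ≥ 1`, `L ≥ l`; `u ≤ l`.
`4 h b ≤ 4 (4 u L / l) (45 L^(1/u)) = 720 u L^(1+1/u) / l`; `log y ≤ 3 l` because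
`y ≤ 8640 l L ^ 2 + 1 ≤ L ^ 3`; so `y / (4 log y) ≥ 720 u L^(1+1/u) / l ≥ 4 h b` and
`hc` gives `4 h b ≤ π(y)`.
`y ^ (4 h) ≤ exp (3 l * 4 * (3 u L / l + 1)) = exp (36 u L + 12 l) ≤ exp (48 u L) ≤ N`.
`(V + 1) b ^ h > 32 * 16 ^ h * N` (`Nat.lt_div_mul_add` or `Nat.div_add_mod`).
`V ≤ 32 N (16 / b) ^ h`, `16 / b ≤ 16 / (44 L^(1/u)) ≤ exp (-1 - l / u)`, so
`V ≤ 32 N exp (- h l / u) ≤ 32 N exp (- 3 L)` and `V r ^ 2 ≤ 32 N exp (-L) ≤ N`.
`L ≤ y`: `u L^(1+1/u) ≥ L`.  `32 y ^ 2 + 1 ≤ 33 L ^ 6 ≤ exp L = r`.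
`200 y ^ 2 ≤ 200 (8641 u L^(1+1/u)) ^ 2 = C u ^ 2 L^(2+2/u)`. -/
theorem num_upper
    (hc : ∃ x₀ : ℕ, ∀ x : ℕ, x₀ ≤ x → (x : ℝ) / (4 * Real.log x) ≤ ((pr x).card : ℝ)) :
    ∃ C : ℝ, 0 < C ∧ ∃ r₀ : ℕ, ∀ r : ℕ, r₀ ≤ r → ∀ u : ℝ, 1 ≤ u →
      u ≤ Real.log (Real.log r) → ∀ N : ℕ, (r : ℝ) ^ (48 * u) ≤ N →
      ∃ y h b V : ℕ, 1 ≤ y ∧ 0 < h * b ∧ 4 * h * b ≤ (pr y).card ∧ y ^ (4 * h) ≤ 8 * N ∧
        32 * 16 ^ h * N < (V + 1) * b ^ h ∧ V * r ^ 2 ≤ N ∧ Real.log r ≤ y ∧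
        32 * y ^ 2 + 1 ≤ r ∧ 200 * (y : ℝ) ^ 2 ≤ C * u ^ 2 * Real.log r ^ (2 + 2 / u) := by
  obtain ⟨x₀, hx₀⟩ := hc
  obtain ⟨r₀, hr₀⟩ := RH10_ev x₀
  refine ⟨200 * 8641 ^ 2, by norm_num, r₀, fun r hr u hu1 hul N hN => ?_⟩
  obtain ⟨hL1, hL2, hL3, hL4, hr1⟩ := hr₀ r hr
  set L : ℝ := Real.log r with hLdef
  set l : ℝ := Real.log L with hldef
  have hr0 : (0 : ℝ) < r := by exact_mod_cast hr1
  have hexpL : Real.exp L = r := Real.exp_log hr0
  have hL0 : 0 < L := by linarith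
  have hl1 : 1 ≤ l := hu1.trans hul
  have hl0 : 0 < l := by linarith
  have hu0 : 0 < u := by linarith
  have hexpl : Real.exp l = L := Real.exp_log hL0
  have hlL : l ≤ L := by linarith
  set P : ℝ := L ^ (1 / u) with hPdef
  have hP0 : 0 < P := Real.rpow_pos_of_pos hL0 _
  have hP1 : 1 ≤ P := Real.one_le_rpow hL1 (by positivity)
  have hPexp : P = Real.exp (l / u) := by
    rw [hPdef, Real.rpow_def_of_pos hL0]
    congr 1
    ring
  have hPL : P ≤ L := by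
    have h1 : (1 : ℝ) / u ≤ 1 := by
      rw [div_le_one hu0]
      exact hu1
    calc P ≤ L ^ (1 : ℝ) := Real.rpow_le_rpow_of_exponent_le hL1 h1
      _ = L := Real.rpow_one L
  have huL : 1 ≤ u * L / l := by
    rw [le_div_iff₀ hl0, one_mul]
    exact hlL.trans (le_mul_of_one_le_left hL0.le hu1)
  have huLL : L ≤ u * L := le_mul_of_one_le_left hL0.le hu1
  have huLP : 1 ≤ u * L * P := one_le_mul_of_one_le_of_one_le (hL1.trans huLL) hP1
  -- the three parameters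
  obtain ⟨b, hb1, hb2⟩ : ∃ b : ℕ, 44 * P ≤ b ∧ (b : ℝ) ≤ 45 * P := by
    refine ⟨⌈44 * P⌉₊, Nat.le_ceil _, ?_⟩
    have := Nat.ceil_lt_add_one (a := 44 * P) (by positivity)
    linarith
  obtain ⟨h, hh1, hh2⟩ : ∃ h : ℕ, 3 * (u * L / l) ≤ h ∧ (h : ℝ) ≤ 3 * (u * L / l) + 1 := by
    refine ⟨⌈3 * (u * L / l)⌉₊, Nat.le_ceil _, ?_⟩
    exact (Nat.ceil_lt_add_one (a := 3 * (u * L / l)) (by positivity)).le
  obtain ⟨y, hy1, hy2⟩ : ∃ y : ℕ, 8640 * (u * L * P) ≤ y ∧ (y : ℝ) ≤ 8641 * (u * L * P) := by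
    refine ⟨⌈8640 * (u * L * P)⌉₊, Nat.le_ceil _, ?_⟩
    have := Nat.ceil_lt_add_one (a := 8640 * (u * L * P)) (by positivity)
    linarith
  have hb0 : (0 : ℝ) < b := lt_of_lt_of_le (by positivity) hb1
  have hh0 : (0 : ℝ) < h := lt_of_lt_of_le (by positivity) hh1
  have hy8640 : (8640 : ℝ) ≤ y := by linarith
  have hy0 : (0 : ℝ) < y := by linarith
  have hb0' : 0 < b := by exact_mod_cast hb0
  have hh0' : 0 < h := by exact_mod_cast hh0
  have hyL : L ≤ y := by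
    have h1 : L ≤ u * L * P := huLL.trans (le_mul_of_one_le_right (by positivity) hP1)
    linarith
  have hyL3 : (y : ℝ) ≤ L ^ 3 := by
    have h1 : u * L * P ≤ l * L * L := by
      have h2 : u * L ≤ l * L := mul_le_mul_of_nonneg_right hul hL0.le
      exact mul_le_mul h2 hPL hP0.le (by positivity)
    have h3 : 8641 * (l * L * L) ≤ L * L * L := by
      have h4 : 8641 * l * (L * L) ≤ L * (L * L) :=
        mul_le_mul_of_nonneg_right hL2 (by positivity)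
      linarith
    calc (y : ℝ) ≤ 8641 * (u * L * P) := hy2
      _ ≤ 8641 * (l * L * L) := by linarith
      _ ≤ L * L * L := h3
      _ = L ^ 3 := by ring
  have hlogy : Real.log y ≤ 3 * l := by
    have h1 := Real.log_le_log hy0 hyL3
    rw [Real.log_pow] at h1
    exact_mod_cast h1
  have hlogy0 : 0 < Real.log y := Real.log_pos (by linarith)
  refine ⟨y, h, b, 32 * 16 ^ h * N / b ^ h, ?_, Nat.mul_pos hh0' hb0', ?_, ?_, ?_, ?_, hyL, ?_, ?_⟩
  · have : (1 : ℝ) ≤ y := by linarith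
    exact_mod_cast this
  · -- the number of primes
    have hyx : x₀ ≤ y := by
      have : (x₀ : ℝ) ≤ y := hL3.trans hyL
      exact_mod_cast this
    have h1 := hx₀ y hyx
    have h2 : (4 * h * b : ℝ) ≤ 720 * (u * L / l) * P := by
      have h3 : (h : ℝ) ≤ 4 * (u * L / l) := by linarith
      calc (4 * h * b : ℝ) ≤ 4 * (4 * (u * L / l)) * (45 * P) := by
            refine mul_le_mul (by linarith) hb2 hb0.le (by positivity)
        _ = 720 * (u * L / l) * P := by ring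
    have h3 : 720 * (u * L / l) * P ≤ (y : ℝ) / (4 * Real.log y) := by
      have h4 : 720 * (u * L / l) * P = 8640 * (u * L * P) / (12 * l) := by
        field_simp
        ring
      rw [h4]
      have h5 : 4 * Real.log y ≤ 12 * l := by linarith
      exact div_le_div₀ hy0.le hy1 (by positivity) h5
    have h4 : ((4 * h * b : ℕ) : ℝ) ≤ ((pr y).card : ℝ) := by
      push_cast
      exact h2.trans (h3.trans h1)
    exact_mod_cast h4
  · -- the product of the moduli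
    have h1 : ((y ^ (4 * h) : ℕ) : ℝ) ≤ N := by
      rw [Nat.cast_pow]
      have h2 : (y : ℝ) ≤ Real.exp (3 * l) := by
        have := Real.exp_le_exp.2 hlogy
        rwa [Real.exp_log hy0] at this
      have h3 : (y : ℝ) ^ (4 * h) ≤ Real.exp (3 * l) ^ (4 * h) :=
        pow_le_pow_left₀ hy0.le h2 _
      rw [← Real.exp_nat_mul] at h3
      refine h3.trans (le_trans ?_ hN)
      rw [Real.rpow_def_of_pos hr0]
      apply Real.exp_le_exp.2
      push_cast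
      have h4 : (h : ℝ) * l ≤ (3 * (u * L / l) + 1) * l := mul_le_mul_of_nonneg_right hh2 hl0.le
      have h5 : (3 * (u * L / l) + 1) * l = 3 * (u * L) + l := by
        field_simp
      have h7 : 4 * (h : ℝ) * (3 * l) = 12 * (h * l) := by ring
      rw [h7]
      rw [h5] at h4
      have h8 : L * (48 * u) = 48 * (u * L) := by ring
      change 12 * ((h : ℝ) * l) ≤ L * (48 * u)
      rw [h8]
      linarith
    have h2 : y ^ (4 * h) ≤ N := by exact_mod_cast h1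
    omega
  · exact (Nat.div_lt_iff_lt_mul (pow_pos hb0' h)).1 (Nat.lt_succ_self _)
  · -- the number of exceptions
    have h1 : ((32 * 16 ^ h * N / b ^ h : ℕ) : ℝ) ≤ 32 * 16 ^ h * N / b ^ h := by
      refine Nat.cast_div_le.trans (le_of_eq ?_)
      push_cast
      rfl
    have h2 : (32 * 16 ^ h * N / b ^ h : ℝ) = 32 * N * (16 / b) ^ h := by
      rw [div_pow]
      ring
    have h3 : (16 : ℝ) / b ≤ Real.exp (-1 - l / u) := by
      have h4 : (16 : ℝ) / b ≤ 16 / (44 * P) :=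
        div_le_div_of_nonneg_left (by norm_num) (by positivity) hb1
      have h5 : (16 : ℝ) / (44 * P) = 16 / 44 * P⁻¹ := by
        field_simp
      have h6 : P⁻¹ = Real.exp (-(l / u)) := by
        rw [hPexp, Real.exp_neg]
      rw [h5, h6] at h4
      refine h4.trans ?_
      have h7 : Real.exp (-1 - l / u) = Real.exp (-1) * Real.exp (-(l / u)) := by
        rw [← Real.exp_add]
        congr 1
      rw [h7]
      exact mul_le_mul_of_nonneg_right RH10_num (Real.exp_pos _).le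
    have h4 : ((16 : ℝ) / b) ^ h ≤ Real.exp (-(3 * L)) := by
      refine (pow_le_pow_left₀ (by positivity) h3 h).trans ?_
      rw [← Real.exp_nat_mul]
      apply Real.exp_le_exp.2
      have h5 : 3 * L ≤ (h : ℝ) * (l / u) := by
        have h6 : 3 * (u * L / l) * (l / u) ≤ h * (l / u) :=
          mul_le_mul_of_nonneg_right hh1 (by positivity)
        have h7 : 3 * (u * L / l) * (l / u) = 3 * L := by
          field_simp
        linarith
      have h6 : (h : ℝ) * (-1 - l / u) = -(h : ℝ) - h * (l / u) := by ring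
      rw [h6]
      linarith
    have h5 : Real.exp (-(3 * L)) * (r : ℝ) ^ 2 = Real.exp (-L) := by
      rw [← hexpL, ← Real.exp_nat_mul, ← Real.exp_add]
      congr 1
      push_cast
      ring
    have h6 : 32 * Real.exp (-L) ≤ 1 := by
      rw [Real.exp_neg, ← div_eq_mul_inv, div_le_one (Real.exp_pos _)]
      have h7 : (1 : ℝ) ≤ L ^ 6 := one_le_pow₀ hL1
      linarith
    have h7 : ((32 * 16 ^ h * N / b ^ h * r ^ 2 : ℕ) : ℝ) ≤ N := by
      rw [Nat.cast_mul, Nat.cast_pow]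
      have hN0 : (0 : ℝ) ≤ N := Nat.cast_nonneg _
      calc ((32 * 16 ^ h * N / b ^ h : ℕ) : ℝ) * (r : ℝ) ^ 2
          ≤ (32 * N * Real.exp (-(3 * L))) * (r : ℝ) ^ 2 := by
            refine mul_le_mul_of_nonneg_right ?_ (by positivity)
            rw [h2] at h1
            exact h1.trans (mul_le_mul_of_nonneg_left h4 (by positivity))
        _ = N * (32 * (Real.exp (-(3 * L)) * (r : ℝ) ^ 2)) := by ring
        _ = N * (32 * Real.exp (-L)) := by rw [h5]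
        _ ≤ N * 1 := mul_le_mul_of_nonneg_left h6 hN0
        _ = N := mul_one _
    exact_mod_cast h7
  · have h1 : ((32 * y ^ 2 + 1 : ℕ) : ℝ) ≤ r := by
      push_cast
      have h2 : (y : ℝ) ^ 2 ≤ L ^ 6 := by
        calc (y : ℝ) ^ 2 ≤ (L ^ 3) ^ 2 := pow_le_pow_left₀ hy0.le hyL3 2
          _ = L ^ 6 := by ring
      have h3 : (1 : ℝ) ≤ L ^ 6 := one_le_pow₀ hL1
      rw [← hexpL]
      linarith
    exact_mod_cast h1
  · have h1 : L ^ (2 + 2 / u) = (L * P) ^ 2 := by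
      have h2 : (2 : ℝ) + 2 / u = ((1 : ℝ) + 1 / u) * (2 : ℕ) := by
        push_cast
        ring
      rw [h2, Real.rpow_mul_natCast hL0.le, Real.rpow_add hL0, Real.rpow_one]
    rw [h1]
    have h2 : (y : ℝ) ^ 2 ≤ (8641 * (u * L * P)) ^ 2 := pow_le_pow_left₀ hy0.le hy2 2
    calc 200 * (y : ℝ) ^ 2 ≤ 200 * (8641 * (u * L * P)) ^ 2 := by linarith
      _ = 200 * 8641 ^ 2 * u ^ 2 * (L * P) ^ 2 := by ring

end Pool.Agent.Helper24.RH
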