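import Mathlib
import Pool.Agent.Helper24.RH.Def

/-!
# Project RH (MP_d5570f_nt), piece RH-5: Chebyshev's upper bound
-/

open Finset

namespace Pool.Agent.Helper24.RH

/-- Proof.  `Chebyshev.pi_le_log4_mul_div`: `π x ≤ log 4 * x / log √x + √x`,
`log √x = log x / 2`, `log 4 ≤ 1.4` and `√x * log x ≤ x` (`Real.log_le_rpow_div` or
`Real.add_one_le_exp` for `log √x ≤ √x - 1`... `log x = 2 log √x`, `Real.log_le_sub_one_of_pos`;
sharper: `log t ≤ t / e`), so `π x ≤ 4 x / log x`; any constant up to `6` is fine below, take the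
one stated. -/
theorem pi_upper (x : ℕ) (hx : 2 ≤ x) : ((pr x).card : ℝ) ≤ 6 * x / Real.log x := by
  have hx1 : (1 : ℝ) < x := by exact_mod_cast hx
  have hx0 : (0 : ℝ) < x := by linarith
  have hlog : 0 < Real.log x := Real.log_pos hx1
  have hcard : (pr x).card = Nat.primeCounting x := by
    rw [Nat.primeCounting, Nat.primeCounting', Nat.count_eq_card_filter_range]
    congr 1
    ext p
    unfold pr
    rw [mem_filter, mem_filter, mem_Icc, mem_range]
    constructor
    · rintro ⟨⟨_, h2⟩, h3⟩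
      exact ⟨by omega, h3⟩
    · rintro ⟨h2, h3⟩
      exact ⟨⟨h3.one_lt.le, by omega⟩, h3⟩
  have h1 := Chebyshev.pi_le_log4_mul_div hx1
  rw [Nat.floor_natCast] at h1
  rw [hcard]
  refine h1.trans ?_
  have h2 : Real.log √(x : ℝ) = Real.log x / 2 := Real.log_sqrt hx0.le
  have h3 : Real.log 4 ≤ 1.4 := by
    have h4 : Real.log 4 = 2 * Real.log 2 := by
      rw [← Real.log_rpow (by norm_num)]
      norm_num
    rw [h4]
    have := Real.log_two_lt_d9
    linarith
  have hs : 0 < √(x : ℝ) := Real.sqrt_pos.2 hx0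
  have h5 : Real.log x ≤ 2 * √(x : ℝ) := by
    have h6 := Real.log_le_sub_one_of_pos hs
    rw [h2] at h6
    linarith
  have h6 : √(x : ℝ) ≤ 2 * x / Real.log x := by
    rw [le_div_iff₀ hlog]
    have h7 : √(x : ℝ) * Real.log x ≤ √(x : ℝ) * (2 * √(x : ℝ)) :=
      mul_le_mul_of_nonneg_left h5 hs.le
    have h8 : √(x : ℝ) * √(x : ℝ) = x := Real.mul_self_sqrt hx0.le
    nlinarith
  have h7 : Real.log 4 * x / Real.log √(x : ℝ) ≤ 3 * x / Real.log x := by
    rw [h2, div_le_div_iff₀ (by linarith) hlog]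
    have h8 : Real.log 4 * x ≤ 1.4 * x := mul_le_mul_of_nonneg_right h3 hx0.le
    have h9 : Real.log 4 * x * Real.log x ≤ 1.4 * x * Real.log x :=
      mul_le_mul_of_nonneg_right h8 hlog.le
    have h10 : 0 ≤ x * Real.log x := mul_nonneg hx0.le hlog.le
    linarith
  have h8 : 6 * (x : ℝ) / Real.log x = 3 * x / Real.log x + 2 * x / Real.log x +
      x / Real.log x := by ring
  have h9 : 0 ≤ (x : ℝ) / Real.log x := div_nonneg hx0.le hlog.le
  rw [h8]
  linarith

/-- Proof.  Split `(y, z]` into the ranges `(2 ^ j y, 2 ^ (j+1) y]`: the sum over the primes of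
such a range is at most `π (2 ^ (j+1) y) / (2 ^ j y) ^ 2 ≤ 6 * 2 ^ (j+1) y / (log y * 4 ^ j y ^ 2)
= 12 / (2 ^ j * y * log y)`; sum over `j`: `24 / (y log y)`.  (Or by strong induction on `z`,
or any other way.) -/
theorem tail_sum (y z : ℕ) (hy : 2 ≤ y) :
    ∑ p ∈ pri y z, (1 : ℝ) / (p : ℝ) ^ 2 ≤ 24 / (y * Real.log y) := by
  have hdbl : ∀ y : ℕ, 2 ≤ y → ∑ p ∈ pri y (2 * y), (1 : ℝ) / (p : ℝ) ^ 2 ≤
      12 / (y * Real.log y) := by
    intro y hy
    have hy1 : (1 : ℝ) < y := by exact_mod_cast hy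
    have hy0 : (0 : ℝ) < y := by linarith
    have hlog : 0 < Real.log y := Real.log_pos hy1
    have h1 : ∀ p ∈ pri y (2 * y), (1 : ℝ) / (p : ℝ) ^ 2 ≤ 1 / (y : ℝ) ^ 2 := by
      intro p hp
      unfold pri at hp
      rw [mem_filter, mem_Ioc] at hp
      have h2 : (y : ℝ) ≤ p := by exact_mod_cast hp.1.1.le
      exact one_div_le_one_div_of_le (by positivity) (pow_le_pow_left₀ hy0.le h2 2)
    have h2 : ((pri y (2 * y)).card : ℝ) ≤ (pr (2 * y)).card := by
      have : pri y (2 * y) ⊆ pr (2 * y) := by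
        intro p hp
        unfold pri at hp
        unfold pr
        rw [mem_filter, mem_Ioc] at hp
        rw [mem_filter, mem_Icc]
        exact ⟨⟨by omega, hp.1.2⟩, hp.2⟩
      exact_mod_cast card_le_card this
    have h3 := pi_upper (2 * y) (by omega)
    have h4 : (6 : ℝ) * ((2 * y : ℕ) : ℝ) / Real.log ((2 * y : ℕ) : ℝ) ≤ 12 * y / Real.log y := by
      have h5 : Real.log y ≤ Real.log ((2 * y : ℕ) : ℝ) :=
        Real.log_le_log hy0 (by push_cast; linarith)
      have h6 : (6 : ℝ) * ((2 * y : ℕ) : ℝ) = 12 * y := by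
        push_cast
        ring
      rw [h6]
      exact div_le_div_of_nonneg_left (by positivity) hlog h5
    calc ∑ p ∈ pri y (2 * y), (1 : ℝ) / (p : ℝ) ^ 2 ≤
          ∑ _p ∈ pri y (2 * y), 1 / (y : ℝ) ^ 2 := sum_le_sum h1
      _ = ((pri y (2 * y)).card : ℝ) * (1 / (y : ℝ) ^ 2) := by rw [sum_const, nsmul_eq_mul]
      _ ≤ (12 * y / Real.log y) * (1 / (y : ℝ) ^ 2) :=
          mul_le_mul_of_nonneg_right (h2.trans (h3.trans h4)) (by positivity)
      _ = 12 / (y * Real.log y) := by field_simp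
  have hk : ∀ k y : ℕ, 2 ≤ y → ∑ p ∈ pri y (2 ^ k * y), (1 : ℝ) / (p : ℝ) ^ 2 ≤
      24 / (y * Real.log y) := by
    intro k
    induction k with
    | zero =>
      intro y hy
      have hy1 : (1 : ℝ) < y := by exact_mod_cast hy
      have hlog : 0 < Real.log y := Real.log_pos hy1
      have h1 : pri y (2 ^ 0 * y) = ∅ := by
        unfold pri
        rw [pow_zero, one_mul, Ioc_self, filter_empty]
      rw [h1, sum_empty]
      positivity
    | succ k ih =>
      intro y hy
      have hy1 : (1 : ℝ) < y := by exact_mod_cast hy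
      have hy0 : (0 : ℝ) < y := by linarith
      have hlog : 0 < Real.log y := Real.log_pos hy1
      have h0 : 2 ^ (k + 1) * y = 2 ^ k * (2 * y) := by ring
      have h1 : pri y (2 ^ (k + 1) * y) = pri y (2 * y) ∪ pri (2 * y) (2 ^ k * (2 * y)) := by
        unfold pri
        rw [← filter_union, Ioc_union_Ioc_eq_Ioc (by omega)
          (Nat.le_mul_of_pos_left _ (pow_pos (by norm_num) k)), h0]
      have h2 : Disjoint (pri y (2 * y)) (pri (2 * y) (2 ^ k * (2 * y))) := by
        rw [disjoint_left]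
        intro p hp hq
        unfold pri at hp hq
        rw [mem_filter, mem_Ioc] at hp hq
        omega
      rw [h1, sum_union h2]
      have h3 := hdbl y hy
      have h4 := ih (2 * y) (by omega)
      have h5 : (24 : ℝ) / (((2 * y : ℕ) : ℝ) * Real.log ((2 * y : ℕ) : ℝ)) ≤
          12 / (y * Real.log y) := by
        have h6 : Real.log y ≤ Real.log ((2 * y : ℕ) : ℝ) :=
          Real.log_le_log hy0 (by push_cast; linarith)
        have h7 : (24 : ℝ) / (((2 * y : ℕ) : ℝ) * Real.log ((2 * y : ℕ) : ℝ)) =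
            12 / (y * Real.log ((2 * y : ℕ) : ℝ)) := by
          push_cast
          rw [mul_assoc, show (24 : ℝ) = 2 * 12 by norm_num, mul_div_mul_left _ _ two_ne_zero]
        rw [h7]
        exact div_le_div_of_nonneg_left (by norm_num) (mul_pos hy0 hlog)
          (mul_le_mul_of_nonneg_left h6 hy0.le)
      have h6 : (24 : ℝ) / (y * Real.log y) = 12 / (y * Real.log y) + 12 / (y * Real.log y) := by
        ring
      rw [h6]
      exact add_le_add h3 (h4.trans h5)
  refine le_trans (sum_le_sum_of_subset_of_nonneg ?_ fun _ _ _ => by positivity) (hk z y hy)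
  intro p hp
  unfold pri at hp ⊢
  rw [mem_filter, mem_Ioc] at hp ⊢
  have h1 : z < 2 ^ z := Nat.lt_two_pow_self
  have h2 : 2 ^ z * 1 ≤ 2 ^ z * y := Nat.mul_le_mul_left _ (by omega)
  exact ⟨⟨hp.1.1, by omega⟩, hp.2⟩

/-- Proof.  `∑ n > z, 1 / n ^ 2 ≤ 1 / z` by telescoping `1 / n ^ 2 ≤ 1 / (n - 1) - 1 / n`. -/
theorem tail_sum_all (z w : ℕ) (hz : 1 ≤ z) :
    ∑ n ∈ Ioc z w, (1 : ℝ) / (n : ℝ) ^ 2 ≤ 1 / z := by
  simp only [one_div]
  rcases le_total z w with h | h
  · refine (sum_Ioc_inv_sq_le_sub (α := ℝ) (by omega) h).trans ?_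
    have : (0 : ℝ) ≤ (w : ℝ)⁻¹ := by positivity
    linarith
  · rw [Ioc_eq_empty_of_le h, sum_empty]
    positivity

end Pool.Agent.Helper24.RH
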