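import Mathlib
import Pool.Agent.Helper24.RH.RH5

/-!
# Project RH (MP_d5570f_nt), piece RH-11: the sieve quantities
-/

open Finset

namespace Pool.Agent.Helper24.RH

private theorem Gh_card_lo (p : ℕ) (hp : p.Prime) : p ^ 2 ≤ 4 * (Gh p).card := by
  have h4 : 4 ≤ p ^ 2 := by
    have := hp.two_le
    nlinarith
  have hsub : Icc 1 ((p ^ 2 - 1) / 2) ⊆ Gh p := by
    intro c hc
    rw [mem_Icc] at hc
    unfold Gh
    rw [mem_filter, mem_range]
    omega
  have h := card_le_card hsub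
  rw [Nat.card_Icc] at h
  omega

private theorem Gh_card_hi (p : ℕ) : (Gh p).card ≤ p ^ 2 := by
  unfold Gh
  exact (card_filter_le _ _).trans (by rw [card_range])

/-- Proof.  `|Gh p| ≥ p ^ 2 / 4` for a prime `p`: the `c` with `1 ≤ c` and `2 c < p ^ 2` are
`(p ^ 2 - 1) / 2 ≥ p ^ 2 / 4` in number for `p` odd and `1` for `p = 2`. -/
theorem rh_lower (y : ℕ) : (1 / 4 : ℝ) ^ (pr y).card ≤ rh Gh (pr y) := by
  unfold rh
  rw [← prod_const]
  apply prod_le_prod
  · intro p _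
    norm_num
  · intro p hp
    have hpp : p.Prime := (mem_filter.mp hp).2
    have hpos : (0 : ℝ) < (p : ℝ) ^ 2 := by
      have : (0 : ℝ) < (p : ℝ) := by exact_mod_cast hpp.pos
      positivity
    rw [le_div_iff₀ hpos]
    have h : ((p ^ 2 : ℕ) : ℝ) ≤ ((4 * (Gh p).card : ℕ) : ℝ) := by
      exact_mod_cast Gh_card_lo p hpp
    push_cast at h
    linarith

/-- Proof.  `|Gh p| ≤ p ^ 2` and the product of the primes up to `y` is at most `4 ^ y`
(`primorial_le_four_pow`, or whatever its name is). -/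
theorem pg_upper (y : ℕ) : pg Gh (pr y) ≤ 16 ^ y := by
  unfold pg
  have h1 : ∏ p ∈ pr y, ((Gh p).card : ℝ) ≤ ∏ p ∈ pr y, ((p : ℝ) ^ 2) := by
    apply prod_le_prod
    · intro p _
      positivity
    · intro p _
      exact_mod_cast Gh_card_hi p
  have h2 : ∏ p ∈ pr y, p = primorial y := by
    unfold primorial pr
    apply prod_congr _ (fun _ _ => rfl)
    ext p
    simp only [mem_filter, mem_Icc, mem_range]
    constructor
    · rintro ⟨⟨_, b⟩, c⟩
      exact ⟨by omega, c⟩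
    · rintro ⟨a, c⟩
      exact ⟨⟨c.one_lt.le, by omega⟩, c⟩
  have h3 : ∏ p ∈ pr y, ((p : ℝ) ^ 2) = ((primorial y : ℕ) : ℝ) ^ 2 := by
    rw [prod_pow, ← h2]
    push_cast
    rfl
  have h4 : ((primorial y : ℕ) : ℝ) ≤ 4 ^ y := by
    exact_mod_cast primorial_le_four_pow y
  calc ∏ p ∈ pr y, ((Gh p).card : ℝ) ≤ ((primorial y : ℕ) : ℝ) ^ 2 := by rw [← h3]; exact h1
    _ ≤ (4 ^ y) ^ 2 := by
      apply pow_le_pow_left₀ (by positivity) h4
    _ = 16 ^ y := by
      rw [← pow_mul, mul_comm, pow_mul]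
      norm_num

/-- Proof.  For each `d` (and for `0`) exactly one `c < p ^ 2` has `p ^ 2 ∣ c + d`. -/
theorem Hd_card (D : Finset ℕ) (p : ℕ) (hp : 0 < p) : (Hd D p).card ≤ D.card + 1 := by
  have hq : 0 < p ^ 2 := by positivity
  have hsub : Hd D p ⊆ insert 0 (D.image (fun d => (p ^ 2 - d % p ^ 2) % p ^ 2)) := by
    intro c hc
    unfold Hd at hc
    rw [mem_filter, mem_range] at hc
    obtain ⟨hc1, hc2⟩ := hc
    rw [mem_insert]
    rcases hc2 with h | ⟨d, hd, h⟩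
    · left
      exact Nat.eq_zero_of_dvd_of_lt h hc1
    · right
      rw [mem_image]
      refine ⟨d, hd, ?_⟩
      have hr : d % p ^ 2 < p ^ 2 := Nat.mod_lt _ hq
      have h' : p ^ 2 ∣ c + d % p ^ 2 := by
        have e : c + d = (c + d % p ^ 2) + p ^ 2 * (d / p ^ 2) := by
          have := Nat.mod_add_div d (p ^ 2)
          omega
        rw [e] at h
        exact (Nat.dvd_add_left (dvd_mul_right _ _)).mp h
      obtain ⟨k, hk⟩ := h'
      have hk2 : k < 2 := by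
        by_contra hcon
        push Not at hcon
        have : p ^ 2 * 2 ≤ p ^ 2 * k := Nat.mul_le_mul_left _ hcon
        omega
      have hk3 : k = 0 ∨ k = 1 := by omega
      rcases hk3 with h0 | h1
      · subst h0
        rw [mul_zero] at hk
        obtain ⟨hc0, hd0⟩ := Nat.add_eq_zero_iff.mp hk
        rw [hc0, hd0, Nat.sub_zero, Nat.mod_self]
      · subst h1
        have : p ^ 2 - d % p ^ 2 = c := by omega
        rw [this]
        exact Nat.mod_eq_of_lt hc1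
  calc (Hd D p).card ≤ (insert 0 (D.image (fun d => (p ^ 2 - d % p ^ 2) % p ^ 2))).card :=
        card_le_card hsub
    _ ≤ (D.image (fun d => (p ^ 2 - d % p ^ 2) % p ^ 2)).card + 1 := card_insert_le _ _
    _ ≤ D.card + 1 := by
      have := card_image_le (s := D) (f := fun d => (p ^ 2 - d % p ^ 2) % p ^ 2)
      omega

private theorem Hd_card_real (D : Finset ℕ) (y z p : ℕ) (hp : p ∈ pri y z) :
    ((Hd D p).card : ℝ) ≤ D.card + 1 := by
  have hpp : p.Prime := (mem_filter.mp hp).2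
  exact_mod_cast Hd_card D p hpp.pos

/-- Proof.  `Hd_card` and `tail_sum`. -/
theorem sg_upper (D : Finset ℕ) (y z : ℕ) (hy : 2 ≤ y) :
    sg (Hd D) (pri y z) ≤ (D.card + 1) * (24 / (y * Real.log y)) := by
  unfold sg
  calc ∑ p ∈ pri y z, ((Hd D p).card : ℝ) / (p : ℝ) ^ 2
      ≤ ∑ p ∈ pri y z, ((D.card : ℝ) + 1) * (1 / (p : ℝ) ^ 2) := by
        apply sum_le_sum
        intro p hp
        rw [mul_one_div]
        exact div_le_div_of_nonneg_right (Hd_card_real D y z p hp) (by positivity)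
    _ = ((D.card : ℝ) + 1) * ∑ p ∈ pri y z, (1 : ℝ) / (p : ℝ) ^ 2 := by rw [mul_sum]
    _ ≤ _ := mul_le_mul_of_nonneg_left (tail_sum y z hy) (by positivity)

/-- Proof.  `Hd_card`; there are at most `z` primes in `(y, z]`. -/
theorem wt_upper (D : Finset ℕ) (y z : ℕ) :
    wt (Hd D) (pri y z) ≤ z * (D.card + 1) := by
  unfold wt
  have hc : ((pri y z).card : ℝ) ≤ z := by
    have h1 : (pri y z).card ≤ z := by
      unfold pri
      refine (card_filter_le _ _).trans ?_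
      rw [Nat.card_Ioc]
      omega
    exact_mod_cast h1
  calc ∑ p ∈ pri y z, ((Hd D p).card : ℝ) ≤ ∑ _p ∈ pri y z, ((D.card : ℝ) + 1) :=
        sum_le_sum (fun p hp => Hd_card_real D y z p hp)
    _ = ((pri y z).card : ℝ) * ((D.card : ℝ) + 1) := by rw [sum_const, nsmul_eq_mul]
    _ ≤ _ := mul_le_mul_of_nonneg_right hc (by positivity)

/-- Proof.  For `p > y` the number `x = |Hd D p| / p ^ 2` is at most `(|D| + 1) / y ^ 2 ≤ 1/2`, and
`1 - x ≥ exp (- 2 x)` for `0 ≤ x ≤ 1/2` (e.g. `exp (2 x) ≥ 1 + 2 x`... `(1 - x)(1 + 2 x) =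
1 + x - 2 x ^ 2 ≥ 1`, so `exp (-2 x) ≤ 1 / (1 + 2 x) ≤ 1 - x`). -/
theorem dn_lower (D : Finset ℕ) (y z : ℕ) (h : 2 * (D.card + 1) ≤ y ^ 2) :
    Real.exp (-(2 * sg (Hd D) (pri y z))) ≤ dn (Hd D) (pri y z) := by
  unfold sg dn
  rw [mul_sum, ← sum_neg_distrib, Real.exp_sum]
  apply prod_le_prod
  · intro p _
    exact (Real.exp_pos _).le
  · intro p hp
    have hp' := hp
    unfold pri at hp'
    rw [mem_filter, mem_Ioc] at hp'
    obtain ⟨⟨hyp, _⟩, hpp⟩ := hp'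
    have hx0 : 0 ≤ ((Hd D p).card : ℝ) / (p : ℝ) ^ 2 := by positivity
    have hpos : (0 : ℝ) < (p : ℝ) ^ 2 := by
      have : (0 : ℝ) < (p : ℝ) := by exact_mod_cast hpp.pos
      positivity
    have hx1 : ((Hd D p).card : ℝ) / (p : ℝ) ^ 2 ≤ 1 / 2 := by
      rw [div_le_iff₀ hpos]
      have h1 := Hd_card_real D y z p hp
      have h2 : 2 * (D.card + 1) ≤ p ^ 2 :=
        h.trans (Nat.pow_le_pow_left hyp.le 2)
      have h3 : (2 : ℝ) * ((D.card : ℝ) + 1) ≤ (p : ℝ) ^ 2 := by exact_mod_cast h2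
      linarith
    generalize ((Hd D p).card : ℝ) / (p : ℝ) ^ 2 = x at hx0 hx1
    have h1 : 1 + 2 * x ≤ Real.exp (2 * x) := by
      have := Real.add_one_le_exp (2 * x)
      linarith
    rw [Real.exp_neg]
    rw [inv_le_comm₀ (Real.exp_pos _) (by linarith)]
    refine le_trans ?_ h1
    rw [inv_le_iff_one_le_mul₀ (by linarith)]
    nlinarith

private theorem fac_aux (n : ℕ) (σ σ₀ : ℝ) (h0 : 0 ≤ σ) (h1 : σ ≤ σ₀) (hs : 32 * σ₀ ≤ n)
    (hn : 2 ≤ n) : σ ^ n / n.factorial ≤ Real.exp (-(2 * σ₀)) / 8 := by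
  have e1 : (32 * σ) ^ n / n.factorial ≤ Real.exp (32 * σ) :=
    Real.pow_div_factorial_le_exp (32 * σ) (by positivity) n
  have e2 : Real.exp (32 * σ) ≤ Real.exp n := by
    apply Real.exp_le_exp.mpr
    linarith
  have e3 : σ ^ n / n.factorial = (32 * σ) ^ n / n.factorial / 32 ^ n := by
    rw [mul_pow]
    field_simp
  have e4 : σ ^ n / n.factorial ≤ Real.exp n / 32 ^ n := by
    rw [e3]
    exact div_le_div_of_nonneg_right (e1.trans e2) (by positivity)
  have e5 : Real.exp (-(n : ℝ)) ≤ Real.exp (-(2 * σ₀)) := by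
    apply Real.exp_le_exp.mpr
    have : (0 : ℝ) ≤ n := by positivity
    linarith
  refine e4.trans ?_
  refine le_trans ?_ (div_le_div_of_nonneg_right e5 (by norm_num))
  rw [div_le_div_iff₀ (by positivity) (by norm_num)]
  have e6 : (8 : ℝ) ≤ 3 ^ n := by
    calc (8 : ℝ) ≤ 3 ^ 2 := by norm_num
      _ ≤ 3 ^ n := pow_le_pow_right₀ (by norm_num) hn
  have e7 : Real.exp n * Real.exp n = (Real.exp 1 * Real.exp 1) ^ n := by
    rw [mul_pow, ← Real.exp_nat_mul, mul_one]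
  have e8 : Real.exp 1 * Real.exp 1 * 3 ≤ 32 := by
    have := Real.exp_one_lt_d9
    have := Real.exp_pos 1
    nlinarith
  have e9 : Real.exp n * Real.exp n * 8 ≤ 32 ^ n := by
    calc Real.exp n * Real.exp n * 8 ≤ (Real.exp 1 * Real.exp 1) ^ n * 3 ^ n := by
          rw [e7]
          exact mul_le_mul_of_nonneg_left e6 (by positivity)
      _ = (Real.exp 1 * Real.exp 1 * 3) ^ n := by rw [mul_pow _ (3 : ℝ)]
      _ ≤ 32 ^ n := pow_le_pow_left₀ (by positivity) e8 n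
  have e10 : Real.exp n * 8 = Real.exp (-(n : ℝ)) * (Real.exp n * Real.exp n * 8) := by
    rw [Real.exp_neg]
    field_simp
  rw [e10]
  exact mul_le_mul_of_nonneg_left e9 (Real.exp_pos _).le

/-- Proof.  `(s+1)! ≥ ((s+1)/e) ^ (s+1)`, so with `σ ≤ σ₀` and `32 σ₀ ≤ s + 1`, `2 ≤ s + 1`:
`σ^(s+1)/(s+1)! ≤ (e/32) ^ (s+1) ≤ exp (- 2.4 (s+1)) ≤ exp (- 2 σ₀) / 8`, as `2.4 (s+1) ≥
2 σ₀ + log 8` (`32 ≥ exp 3.4`; use `Real.exp_one_lt_d9` etc.).  The same bound for `s + 2`. -/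
theorem fac_small (s : ℕ) (σ σ₀ : ℝ) (h0 : 0 ≤ σ) (h1 : σ ≤ σ₀) (hs : 32 * σ₀ ≤ s + 1)
    (hs2 : 2 ≤ s + 1) :
    σ ^ (s + 1) / (s + 1).factorial ≤ Real.exp (-(2 * σ₀)) / 8 ∧
    σ ^ (s + 2) / (s + 2).factorial ≤ Real.exp (-(2 * σ₀)) / 8 := by
  constructor
  · apply fac_aux (s + 1) σ σ₀ h0 h1 _ hs2
    push_cast
    linarith
  · apply fac_aux (s + 2) σ σ₀ h0 h1 _ (by omega)
    push_cast
    linarith

end Pool.Agent.Helper24.RH
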