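import Mathlib
import Pool.Agent.Helper24.RH.Def

/-!
# Project RH (MP_d5570f_nt), piece RH-3: a truncated sieve
-/

open Finset

namespace Pool.Agent.Helper24.RH

/-- Proof.  The number of `n ∈ Icc 1 N` in a residue class modulo `Q`
(`Nat.Ioc_filter_modEq_card` or `Nat.count_modEq_card`). -/
theorem class_count (N Q a : ℕ) (hQ : 0 < Q) :
    (N : ℝ) / Q - 1 ≤ ((Icc 1 N).filter (fun n => n ≡ a [MOD Q])).card ∧
    (((Icc 1 N).filter (fun n => n ≡ a [MOD Q])).card : ℝ) ≤ (N : ℝ) / Q + 1 := by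
  have h0 : Icc 1 N = Ioc 0 N := by
    ext n
    rw [mem_Icc, mem_Ioc]
    omega
  have h1 := Nat.Ioc_filter_modEq_card 0 N hQ a
  rw [← h0] at h1
  have hQ' : (0 : ℚ) < Q := by exact_mod_cast hQ
  have h2 : ((N : ℚ) - a) / Q - (((0 : ℕ) : ℚ) - a) / Q = N / Q := by
    rw [← sub_div]
    push_cast
    ring
  have h3 := Int.floor_le (((N : ℚ) - a) / Q)
  have h4 := Int.lt_floor_add_one (((N : ℚ) - a) / Q)
  have h5 := Int.floor_le ((((0 : ℕ) : ℚ) - a) / Q)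
  have h6 := Int.lt_floor_add_one ((((0 : ℕ) : ℚ) - a) / Q)
  have h7 : (N : ℚ) / Q - 1 ≤ ((#{x ∈ Icc 1 N | x ≡ a [MOD Q]} : ℕ) : ℚ) := by
    have h8 : ((#{x ∈ Icc 1 N | x ≡ a [MOD Q]} : ℕ) : ℚ) =
        ((#{x ∈ Icc 1 N | x ≡ a [MOD Q]} : ℤ) : ℚ) := by norm_cast
    rw [h8, h1]
    have h9 : ((⌊((N : ℚ) - a) / Q⌋ - ⌊(((0 : ℕ) : ℚ) - a) / Q⌋ : ℤ) : ℚ) ≤
        ((max (⌊((N : ℚ) - a) / Q⌋ - ⌊(((0 : ℕ) : ℚ) - a) / Q⌋) 0 : ℤ) : ℚ) := by
      exact_mod_cast le_max_left _ _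
    refine le_trans ?_ h9
    push_cast at h2 h3 h4 h5 h6 ⊢
    linarith
  have h10 : ((#{x ∈ Icc 1 N | x ≡ a [MOD Q]} : ℕ) : ℚ) ≤ (N : ℚ) / Q + 1 := by
    have h8 : ((#{x ∈ Icc 1 N | x ≡ a [MOD Q]} : ℕ) : ℚ) =
        ((#{x ∈ Icc 1 N | x ≡ a [MOD Q]} : ℤ) : ℚ) := by norm_cast
    rw [h8, h1]
    rcases le_total (⌊((N : ℚ) - a) / Q⌋ - ⌊(((0 : ℕ) : ℚ) - a) / Q⌋) 0 with h9 | h9
    · rw [max_eq_right h9]
      have : (0 : ℚ) ≤ (N : ℚ) / Q := by positivity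
      push_cast
      linarith
    · rw [max_eq_left h9]
      push_cast at h2 h3 h4 h5 h6 ⊢
      linarith
  constructor
  · have h11 : (((N : ℚ) / Q - 1 : ℚ) : ℝ) ≤ (((#{x ∈ Icc 1 N | x ≡ a [MOD Q]} : ℕ) : ℚ) : ℝ) := by
      exact_mod_cast h7
    push_cast at h11
    exact h11
  · have h11 : ((((#{x ∈ Icc 1 N | x ≡ a [MOD Q]} : ℕ) : ℚ)) : ℝ) ≤ (((N : ℚ) / Q + 1 : ℚ) : ℝ) := by
      exact_mod_cast h10
    push_cast at h11
    exact h11

/-- Proof.  `Nat.chineseRemainder`: for each `c` there is `e c` with `n ≡ a [MOD Q]` and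
`n ≡ c [MOD p ^ 2]` iff `n ≡ e c [MOD Q * p ^ 2]`. -/
theorem crt_split (p Q a : ℕ) (hp : p.Prime) (hc : Nat.Coprime p Q) :
    ∃ e : ℕ → ℕ, ∀ c < p ^ 2, ∀ n : ℕ,
      (n ≡ a [MOD Q] ∧ n % p ^ 2 = c) ↔ n ≡ e c [MOD (Q * p ^ 2)] := by
  have hc' : Nat.Coprime Q (p ^ 2) := (Nat.Coprime.pow_left 2 hc).symm
  refine ⟨fun c => (Nat.chineseRemainder hc' a c : ℕ), fun c hcp n => ?_⟩
  have h1 := (Nat.chineseRemainder hc' a c).2
  have h2 : n % p ^ 2 = c ↔ n ≡ c [MOD p ^ 2] := by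
    unfold Nat.ModEq
    rw [Nat.mod_eq_of_lt hcp]
  rw [h2, ← Nat.modEq_and_modEq_iff_modEq_mul hc']
  constructor
  · rintro ⟨h3, h4⟩
    exact ⟨h3.trans h1.1.symm, h4.trans h1.2.symm⟩
  · rintro ⟨h3, h4⟩
    exact ⟨h3.trans h1.1, h4.trans h1.2⟩

private theorem rh3_pow (a b : ℝ) (ha : 0 ≤ a) (hb : 0 ≤ b) (n : ℕ) :
    a ^ (n + 1) + (n + 1) * b * a ^ n ≤ (a + b) ^ (n + 1) := by
  induction n with
  | zero => simp
  | succ n ih =>
    have h1 : (a + b) ^ (n + 1 + 1) = (a + b) * (a + b) ^ (n + 1) := by ring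
    have h2 : (a + b) * (a ^ (n + 1) + (n + 1) * b * a ^ n) ≤ (a + b) * (a + b) ^ (n + 1) :=
      mul_le_mul_of_nonneg_left ih (by positivity)
    have h3 : 0 ≤ (n + 1) * b ^ 2 * a ^ n := by positivity
    have h4 : (a + b) * (a ^ (n + 1) + (n + 1) * b * a ^ n) =
        a ^ (n + 1 + 1) + (n + 1 + 1) * b * a ^ (n + 1) + (n + 1) * b ^ 2 * a ^ n := by ring
    push_cast
    rw [h1]
    linarith

private theorem rh3_fact (a b : ℝ) (ha : 0 ≤ a) (hb : 0 ≤ b) (n : ℕ) :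
    a ^ (n + 1 + 1) / ((n + 1 + 1).factorial : ℝ) + b * (a ^ (n + 1) / ((n + 1).factorial : ℝ)) ≤
      (a + b) ^ (n + 1 + 1) / ((n + 1 + 1).factorial : ℝ) := by
  have hF : (0 : ℝ) < ((n + 1).factorial : ℝ) := by exact_mod_cast Nat.factorial_pos _
  have hF' : ((n + 1 + 1).factorial : ℝ) = ((n : ℝ) + 1 + 1) * ((n + 1).factorial : ℝ) := by
    rw [Nat.factorial_succ (n + 1)]
    push_cast
    ring
  have h1 := rh3_pow a b ha hb (n + 1)
  push_cast at h1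
  have hn : (0 : ℝ) < (n : ℝ) + 1 + 1 := by positivity
  have h2 : b * (a ^ (n + 1) / ((n + 1).factorial : ℝ)) =
      (((n : ℝ) + 1 + 1) * b * a ^ (n + 1)) / (((n : ℝ) + 1 + 1) * ((n + 1).factorial : ℝ)) := by
    field_simp
  rw [hF', h2, ← add_div]
  exact div_le_div_of_nonneg_right h1 (by positivity)

private theorem rh3_err (W h : ℝ) (hW : 0 ≤ W) (hh : 0 ≤ h) (k : ℕ) :
    (1 + W) ^ (k + 1) + h * (1 + W) ^ k ≤ (1 + (h + W)) ^ (k + 1) := by
  have h1 : (1 + W) ^ k ≤ (1 + (h + W)) ^ k := pow_le_pow_left₀ (by positivity) (by linarith) k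
  have h2 : (1 + W) ^ k * (1 + (h + W)) ≤ (1 + (h + W)) ^ k * (1 + (h + W)) :=
    mul_le_mul_of_nonneg_right h1 (by positivity)
  have h3 : (1 + W) ^ (k + 1) + h * (1 + W) ^ k = (1 + W) ^ k * (1 + (h + W)) := by ring
  rw [h3, pow_succ]
  exact h2

private theorem rh3_split (N : ℕ) (G H : ℕ → Finset ℕ) (P : Finset ℕ) (p : ℕ) (hp : p.Prime)
    (Q a : ℕ) (hc : Nat.Coprime p Q) (hH : H p ⊆ Finset.range (p ^ 2)) :
    ∃ e : ℕ → ℕ, ((Sw N G H ∅ (insert p P) Q a).card : ℝ) =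
      ((Sw N G H ∅ P Q a).card : ℝ) -
        ∑ c ∈ H p, ((Sw N G H ∅ P (Q * p ^ 2) (e c)).card : ℝ) := by
  classical
  obtain ⟨e, he⟩ := crt_split p Q a hp hc
  refine ⟨e, ?_⟩
  have h1 : ((Sw N G H ∅ P Q a).filter (fun n => n % p ^ 2 ∈ H p)).card +
      ((Sw N G H ∅ P Q a).filter (fun n => ¬ n % p ^ 2 ∈ H p)).card =
      (Sw N G H ∅ P Q a).card := Finset.card_filter_add_card_filter_not _
  have h2 : (Sw N G H ∅ P Q a).filter (fun n => ¬ n % p ^ 2 ∈ H p) =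
      Sw N G H ∅ (insert p P) Q a := by
    ext n
    unfold Sw
    rw [mem_filter, mem_filter, mem_filter]
    constructor
    · rintro ⟨⟨h3, h4, h5, h6⟩, h7⟩
      refine ⟨h3, h4, h5, fun r hr => ?_⟩
      rcases mem_insert.mp hr with h8 | h8
      · rw [h8]
        exact h7
      · exact h6 r h8
    · rintro ⟨h3, h4, h5, h6⟩
      exact ⟨⟨h3, h4, h5, fun r hr => h6 r (mem_insert_of_mem hr)⟩, h6 p (mem_insert_self _ _)⟩
  have h3 : ((Sw N G H ∅ P Q a).filter (fun n => n % p ^ 2 ∈ H p)).card =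
      ∑ c ∈ H p, (Sw N G H ∅ P (Q * p ^ 2) (e c)).card := by
    rw [Finset.card_eq_sum_card_fiberwise
      (s := (Sw N G H ∅ P Q a).filter (fun n => n % p ^ 2 ∈ H p)) (f := fun n => n % p ^ 2)
      (t := H p) (fun n hn => Finset.mem_coe.mpr (mem_filter.mp (Finset.mem_coe.mp hn)).2)]
    refine Finset.sum_congr rfl fun c hc' => ?_
    congr 1
    ext n
    have h4 := he c (mem_range.mp (hH hc')) n
    unfold Sw
    rw [mem_filter, mem_filter, mem_filter, mem_filter]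
    constructor
    · rintro ⟨⟨⟨h5, h6, h7, h8⟩, -⟩, h9⟩
      exact ⟨h5, h4.mp ⟨h6, h9⟩, h7, h8⟩
    · rintro ⟨h5, h6, h7, h8⟩
      have h9 := h4.mpr h6
      refine ⟨⟨⟨h5, h9.1, h7, h8⟩, ?_⟩, h9.2⟩
      rw [h9.2]
      exact hc'
  rw [h2, h3] at h1
  rw [← h1]
  push_cast
  ring

/-- Proof.  With `e` from `crt_split`: for `p ∉ P`,
`|Sw N G H ∅ (insert p P) Q a| = |Sw N G H ∅ P Q a| - ∑ c ∈ H p, |Sw N G H ∅ P (Q p ^ 2) (e c)|`
(the `n` in `Sw N G H ∅ P Q a` with `n % p ^ 2 ∈ H p` are split according to `n % p ^ 2 = c`).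
Induction on `P` for all `s`, `Q`, `a` at once, both inequalities together.

`P = ∅`: `dn = 1`, `sg = 0`, `wt = 0`, `class_count`.

Step: write `D`, `σ`, `W` for `dn H P`, `sg H P`, `wt H P` and `h = |H p|`, `x = h / p ^ 2 ∈ [0, 1]`.
`s` odd (so `s ≥ 1`): `|Sw (insert p P) Q a| ≥ [(N/Q)(D - σ^(s+1)/(s+1)!) - (1+W)^s]
- h [(N/(Q p^2)) (D + σ^s/s!) + (1+W)^(s-1)]`, and `(1 - x) D` is the new `dn`,
`σ^(s+1)/(s+1)! + x σ^s/s! ≤ (σ+x)^(s+1)/(s+1)!` and `(1+W)^s + h (1+W)^(s-1) ≤ (1+W+h)^s`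
(`one_add_mul_le_pow` or the first two terms of the binomial formula).
`s` even, `s ≥ 2`: the same with the signs reversed.  `s = 0`: monotone in `P`:
`|Sw (insert p P) Q a| ≤ |Sw P Q a| ≤ (N/Q) (D + σ) + 1 ≤ (N/Q) ((1-x) D + σ + x) + 1` because
`D ≤ 1` (all the factors of `D` are in `[0, 1]`). -/
theorem sieve (N : ℕ) (G H : ℕ → Finset ℕ) (P : Finset ℕ) (hP : ∀ p ∈ P, p.Prime)
    (hH : ∀ p ∈ P, H p ⊆ Finset.range (p ^ 2)) :
    ∀ s Q a : ℕ, 0 < Q → (∀ p ∈ P, Nat.Coprime p Q) →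
      (Odd s → (N : ℝ) / Q * (dn H P - sg H P ^ (s + 1) / (s + 1).factorial) - (1 + wt H P) ^ s
        ≤ ((Sw N G H ∅ P Q a).card : ℝ)) ∧
      (Even s → ((Sw N G H ∅ P Q a).card : ℝ)
        ≤ (N : ℝ) / Q * (dn H P + sg H P ^ (s + 1) / (s + 1).factorial) + (1 + wt H P) ^ s) := by
  classical
  induction P using Finset.induction_on with
  | empty =>
    intro s Q a hQ _
    have h1 : Sw N G H ∅ ∅ Q a = (Icc 1 N).filter (fun n => n ≡ a [MOD Q]) := by
      ext n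
      simp [Sw]
    have h2 := class_count N Q a hQ
    have h3 : dn H ∅ = 1 := by simp [dn]
    have h4 : sg H ∅ = 0 := by simp [sg]
    have h5 : wt H ∅ = 0 := by simp [wt]
    have h6 : ((0 : ℝ) ^ (s + 1)) = 0 := zero_pow (by omega)
    rw [h1, h3, h4, h5, h6, zero_div, add_zero, sub_zero, one_pow, mul_one]
    exact ⟨fun _ => h2.1, fun _ => h2.2⟩
  | insert p P hpP ih =>
    intro s Q a hQ hcop
    have hp : p.Prime := hP p (mem_insert_self _ _)
    have ih' := ih (fun r hr => hP r (mem_insert_of_mem hr))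
      (fun r hr => hH r (mem_insert_of_mem hr))
    have hcp : Nat.Coprime p Q := hcop p (mem_insert_self _ _)
    have hHp := hH p (mem_insert_self _ _)
    have hcP : ∀ r ∈ P, Nat.Coprime r Q := fun r hr => hcop r (mem_insert_of_mem hr)
    have hcP' : ∀ r ∈ P, Nat.Coprime r (Q * p ^ 2) := by
      intro r hr
      refine Nat.Coprime.mul_right (hcP r hr) (Nat.Coprime.pow_right _ ?_)
      exact (Nat.coprime_primes (hP r (mem_insert_of_mem hr)) hp).mpr fun h => hpP (h ▸ hr)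
    obtain ⟨e, he⟩ := rh3_split N G H P p hp Q a hcp hHp
    have hp1 : (0 : ℝ) < (p : ℝ) := by exact_mod_cast hp.pos
    have hp0 : (0 : ℝ) < (p : ℝ) ^ 2 := by positivity
    have hQ0 : (0 : ℝ) < (Q : ℝ) := by exact_mod_cast hQ
    have hcard : ((H p).card : ℝ) ≤ (p : ℝ) ^ 2 := by
      have h1 := Finset.card_le_card hHp
      rw [card_range] at h1
      exact_mod_cast h1
    obtain ⟨h, hh⟩ : ∃ h : ℝ, h = ((H p).card : ℝ) := ⟨_, rfl⟩
    have hh0 : 0 ≤ h := by rw [hh]; positivity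
    obtain ⟨x, hx⟩ : ∃ x : ℝ, x = h / (p : ℝ) ^ 2 := ⟨_, rfl⟩
    have hx0 : 0 ≤ x := by rw [hx]; positivity
    have hx1 : x ≤ 1 := by
      rw [hx, div_le_one hp0, hh]
      exact hcard
    have hdn : dn H (insert p P) = (1 - x) * dn H P := by
      rw [dn, prod_insert hpP, hx, hh]
      rfl
    have hsg : sg H (insert p P) = sg H P + x := by
      rw [sg, sum_insert hpP, hx, hh, add_comm]
      rfl
    have hwt : wt H (insert p P) = h + wt H P := by
      rw [wt, sum_insert hpP, hh]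
      rfl
    have hfac : ∀ r ∈ P, 0 ≤ 1 - ((H r).card : ℝ) / (r : ℝ) ^ 2 ∧
        1 - ((H r).card : ℝ) / (r : ℝ) ^ 2 ≤ 1 := by
      intro r hr
      have hr' : r.Prime := hP r (mem_insert_of_mem hr)
      have hr1 : (0 : ℝ) < (r : ℝ) := by exact_mod_cast hr'.pos
      have h1 := Finset.card_le_card (hH r (mem_insert_of_mem hr))
      rw [card_range] at h1
      have h2 : ((H r).card : ℝ) ≤ (r : ℝ) ^ 2 := by exact_mod_cast h1
      have h3 : ((H r).card : ℝ) / (r : ℝ) ^ 2 ≤ 1 := by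
        rw [div_le_one (by positivity)]
        exact h2
      have h4 : 0 ≤ ((H r).card : ℝ) / (r : ℝ) ^ 2 := by positivity
      exact ⟨by linarith, by linarith⟩
    have hD1 : dn H P ≤ 1 := Finset.prod_le_one (fun r hr => (hfac r hr).1) fun r hr =>
      (hfac r hr).2
    have hσ : 0 ≤ sg H P := Finset.sum_nonneg fun r _ => by positivity
    have hW : 0 ≤ wt H P := Finset.sum_nonneg fun r _ => by positivity
    have hNQ : 0 ≤ (N : ℝ) / Q := by positivity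
    have hNp : ∀ B C : ℝ, h * ((N : ℝ) / ((Q * p ^ 2 : ℕ) : ℝ) * B + C) =
        (N : ℝ) / Q * (x * B) + h * C := by
      intro B C
      rw [hx]
      push_cast
      field_simp
    rw [hdn, hsg, hwt, he]
    constructor
    · intro hs
      obtain ⟨k, rfl⟩ : ∃ k, s = k + 1 := ⟨s - 1, by have := hs.pos; omega⟩
      have hk : Even k := by
        rw [Nat.odd_add_one] at hs
        exact Nat.not_odd_iff_even.mp hs
      have h1 := (ih' (k + 1) Q a hQ hcP).1 hs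
      have h2 : ∑ c ∈ H p, ((Sw N G H ∅ P (Q * p ^ 2) (e c)).card : ℝ) ≤
          h * ((N : ℝ) / ((Q * p ^ 2 : ℕ) : ℝ) *
            (dn H P + sg H P ^ (k + 1) / (k + 1).factorial) + (1 + wt H P) ^ k) := by
        rw [hh, ← nsmul_eq_mul, ← Finset.sum_const]
        exact Finset.sum_le_sum fun c _ =>
          (ih' k (Q * p ^ 2) (e c) (Nat.mul_pos hQ (pow_pos hp.pos 2)) hcP').2 hk
      have h5 := mul_le_mul_of_nonneg_left (rh3_fact (sg H P) x hσ hx0 k) hNQ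
      have h4 := rh3_err (wt H P) h hW hh0 k
      rw [hNp] at h2
      generalize sg H P ^ (k + 1 + 1) / ((k + 1 + 1).factorial : ℝ) = A1 at *
      generalize (sg H P + x) ^ (k + 1 + 1) / ((k + 1 + 1).factorial : ℝ) = A2 at *
      generalize sg H P ^ (k + 1) / ((k + 1).factorial : ℝ) = A3 at *
      generalize (1 + (h + wt H P)) ^ (k + 1) = A4 at *
      generalize (1 + wt H P) ^ (k + 1) = A5 at *
      generalize (1 + wt H P) ^ k = A6 at *
      linarith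
    · intro hs
      rcases Nat.eq_zero_or_pos s with hs0 | hs0
      · subst hs0
        have h1 := (ih' 0 Q a hQ hcP).2 hs
        have h2 : 0 ≤ ∑ c ∈ H p, ((Sw N G H ∅ P (Q * p ^ 2) (e c)).card : ℝ) :=
          Finset.sum_nonneg fun c _ => by positivity
        have h3 : (N : ℝ) / Q * (dn H P + sg H P) ≤
            (N : ℝ) / Q * ((1 - x) * dn H P + (sg H P + x)) := by
          refine mul_le_mul_of_nonneg_left ?_ hNQ
          nlinarith
        simp only [zero_add, pow_one, pow_zero, Nat.factorial_one, Nat.cast_one, div_one] at h1 ⊢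
        linarith
      · obtain ⟨k, rfl⟩ : ∃ k, s = k + 1 := ⟨s - 1, by omega⟩
        have hk : Odd k := by
          rw [Nat.even_add_one] at hs
          exact Nat.not_even_iff_odd.mp hs
        have h1 := (ih' (k + 1) Q a hQ hcP).2 hs
        have h2 : h * ((N : ℝ) / ((Q * p ^ 2 : ℕ) : ℝ) *
              (dn H P - sg H P ^ (k + 1) / (k + 1).factorial) + -(1 + wt H P) ^ k) ≤
            ∑ c ∈ H p, ((Sw N G H ∅ P (Q * p ^ 2) (e c)).card : ℝ) := by
          rw [hh, ← nsmul_eq_mul, ← Finset.sum_const]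
          refine Finset.sum_le_sum fun c _ => ?_
          rw [← sub_eq_add_neg]
          exact (ih' k (Q * p ^ 2) (e c) (Nat.mul_pos hQ (pow_pos hp.pos 2)) hcP').1 hk
        have h5 := mul_le_mul_of_nonneg_left (rh3_fact (sg H P) x hσ hx0 k) hNQ
        have h4 := rh3_err (wt H P) h hW hh0 k
        rw [hNp] at h2
        generalize sg H P ^ (k + 1 + 1) / ((k + 1 + 1).factorial : ℝ) = A1 at *
        generalize (sg H P + x) ^ (k + 1 + 1) / ((k + 1 + 1).factorial : ℝ) = A2 at *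
        generalize sg H P ^ (k + 1) / ((k + 1).factorial : ℝ) = A3 at *
        generalize (1 + (h + wt H P)) ^ (k + 1) = A4 at *
        generalize (1 + wt H P) ^ (k + 1) = A5 at *
        generalize (1 + wt H P) ^ k = A6 at *
        linarith

end Pool.Agent.Helper24.RH
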