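import Mathlib
import Pool.Agent.Helper24.RH.Def

/-!
# Project RH (MP_d5570f_nt), piece RH-4: the truncated sieve inside classes
-/

open Finset

namespace Pool.Agent.Helper24.RH

/-- Chinese remainder theorem -/
private theorem rh4_crt (p Q a : ℕ) (hc : Nat.Coprime p Q) :
    ∃ e : ℕ → ℕ, ∀ c < p ^ 2, ∀ n : ℕ,
      (n ≡ a [MOD Q] ∧ n % p ^ 2 = c) ↔ n ≡ e c [MOD (Q * p ^ 2)] := by
  have hc' : Nat.Coprime Q (p ^ 2) := (Nat.Coprime.pow_left 2 hc).symm
  refine ⟨fun c => (Nat.chineseRemainder hc' a c : ℕ), fun c hcp n => ?_⟩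
  have h1 := (Nat.chineseRemainder hc' a c).2
  have h2 : n % p ^ 2 = c ↔ n ≡ c [MOD p ^ 2] := by
    unfold Nat.ModEq
    rw [Nat.mod_eq_of_lt hcp]
  rw [h2, ← Nat.modEq_and_modEq_iff_modEq_mul hc']
  constructor
  · rintro ⟨h3, h4⟩
    exact ⟨h3.trans h1.1.symm, h4.trans h1.2.symm⟩
  · rintro ⟨h3, h4⟩
    exact ⟨h3.trans h1.1, h4.trans h1.2⟩

/-- Proof.  Induction on `T` for all `Q`, `a` at once: for `p ∉ T`, `p` prime to `Q`,
`|Sw N G H (insert p T) P Q a| = ∑ c ∈ G p, |Sw N G H T P (Q p ^ 2) (e c)|`, where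
`n ≡ e c [MOD Q * p ^ 2]` iff `n ≡ a [MOD Q]` and `n % p ^ 2 = c` (`Nat.chineseRemainder`; the
piece RH-3 has this as `crt_split`, prove it here again with another name or privately).
The bounds for `T` with `Q p ^ 2` summed over `c ∈ G p` give those for `insert p T` with `Q`:
`rh G (insert p T) = |G p| / p ^ 2 * rh G T`, `pg G (insert p T) = |G p| * pg G T`. -/
theorem sieve_classes (N : ℕ) (G H : ℕ → Finset ℕ) (P : Finset ℕ) (L U E : ℝ)
    (h0 : ∀ Q a : ℕ, 0 < Q → (∀ p ∈ P, Nat.Coprime p Q) →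
      (N : ℝ) / Q * L - E ≤ ((Sw N G H ∅ P Q a).card : ℝ))
    (h1 : ∀ Q a : ℕ, 0 < Q → (∀ p ∈ P, Nat.Coprime p Q) →
      ((Sw N G H ∅ P Q a).card : ℝ) ≤ (N : ℝ) / Q * U + E)
    (T : Finset ℕ) (hT : ∀ p ∈ T, p.Prime) (hP : ∀ p ∈ P, p.Prime) (hdis : Disjoint T P)
    (hG : ∀ p ∈ T, G p ⊆ Finset.range (p ^ 2)) :
    ∀ Q a : ℕ, 0 < Q → (∀ p ∈ P, Nat.Coprime p Q) → (∀ p ∈ T, Nat.Coprime p Q) →
      (N : ℝ) / Q * (rh G T * L) - pg G T * E ≤ ((Sw N G H T P Q a).card : ℝ) ∧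
      ((Sw N G H T P Q a).card : ℝ) ≤ (N : ℝ) / Q * (rh G T * U) + pg G T * E := by
  classical
  induction T using Finset.induction_on with
  | empty =>
    intro Q a hQ hPQ _
    unfold rh pg
    rw [prod_empty, prod_empty, one_mul, one_mul, one_mul]
    exact ⟨h0 Q a hQ hPQ, h1 Q a hQ hPQ⟩
  | insert p T hpT ih =>
    intro Q a hQ hPQ hTQ
    have hp : p.Prime := hT p (mem_insert_self p T)
    have hpP : p ∉ P := fun h => (disjoint_left.1 hdis (mem_insert_self p T)) h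
    have hdisT : Disjoint T P := hdis.mono_left (subset_insert p T)
    have ih' := ih (fun r hr => hT r (mem_insert_of_mem hr)) hdisT
      (fun r hr => hG r (mem_insert_of_mem hr))
    obtain ⟨e, he⟩ := rh4_crt p Q a (hTQ p (mem_insert_self p T))
    have hlt : ∀ c ∈ G p, c < p ^ 2 := fun c hc =>
      mem_range.1 (hG p (mem_insert_self p T) hc)
    have hQ' : 0 < Q * p ^ 2 := Nat.mul_pos hQ (pow_pos hp.pos 2)
    have hcop : ∀ r : ℕ, r.Prime → r ≠ p → Nat.Coprime r Q → Nat.Coprime r (Q * p ^ 2) :=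
      fun r hr hne hrQ => Nat.Coprime.mul_right hrQ
        (Nat.Coprime.pow_right 2 ((Nat.coprime_primes hr hp).2 hne))
    have hPQ' : ∀ r ∈ P, Nat.Coprime r (Q * p ^ 2) := fun r hr =>
      hcop r (hP r hr) (fun h => hpP (h ▸ hr)) (hPQ r hr)
    have hTQ' : ∀ r ∈ T, Nat.Coprime r (Q * p ^ 2) := fun r hr =>
      hcop r (hT r (mem_insert_of_mem hr)) (fun h => hpT (h ▸ hr)) (hTQ r (mem_insert_of_mem hr))
    have hcard : (Sw N G H (insert p T) P Q a).card =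
        ∑ c ∈ G p, (Sw N G H T P (Q * p ^ 2) (e c)).card := by
      rw [card_eq_sum_card_fiberwise (f := fun n => n % p ^ 2) (t := G p)]
      · refine sum_congr rfl fun c hc => ?_
        congr 1
        ext n
        have h2 := he c (hlt c hc) n
        simp only [Sw, mem_filter, mem_insert, forall_eq_or_imp]
        constructor
        · rintro ⟨⟨h3, h4, ⟨-, h5⟩, h6⟩, h7⟩
          exact ⟨h3, h2.1 ⟨h4, h7⟩, h5, h6⟩
        · rintro ⟨h3, h4, h5, h6⟩
          obtain ⟨h7, h8⟩ := h2.2 h4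
          exact ⟨⟨h3, h7, ⟨by rw [h8]; exact hc, h5⟩, h6⟩, h8⟩
      · intro n hn
        have h2 := (mem_filter.1 hn).2.2.1 p (mem_insert_self p T)
        exact h2
    have hrh : rh G (insert p T) = ((G p).card : ℝ) / (p : ℝ) ^ 2 * rh G T := by
      unfold rh
      rw [prod_insert hpT]
    have hpg : pg G (insert p T) = ((G p).card : ℝ) * pg G T := by
      unfold pg
      rw [prod_insert hpT]
    have hp0 : (p : ℝ) ≠ 0 := Nat.cast_ne_zero.2 hp.ne_zero
    have hQ0 : (Q : ℝ) ≠ 0 := Nat.cast_ne_zero.2 hQ.ne'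
    rw [hcard, hrh, hpg]
    push_cast
    constructor
    · have h2 : ∑ c ∈ G p, ((N : ℝ) / ((Q * p ^ 2 : ℕ) : ℝ) * (rh G T * L) - pg G T * E) ≤
          ∑ c ∈ G p, ((Sw N G H T P (Q * p ^ 2) (e c)).card : ℝ) :=
        sum_le_sum fun c _ => (ih' (Q * p ^ 2) (e c) hQ' hPQ' hTQ').1
      rw [sum_const, nsmul_eq_mul] at h2
      refine le_trans (le_of_eq ?_) h2
      push_cast
      field_simp
    · have h2 : ∑ c ∈ G p, ((Sw N G H T P (Q * p ^ 2) (e c)).card : ℝ) ≤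
          ∑ c ∈ G p, ((N : ℝ) / ((Q * p ^ 2 : ℕ) : ℝ) * (rh G T * U) + pg G T * E) :=
        sum_le_sum fun c _ => (ih' (Q * p ^ 2) (e c) hQ' hPQ' hTQ').2
      rw [sum_const, nsmul_eq_mul] at h2
      refine h2.trans (le_of_eq ?_)
      push_cast
      field_simp

end Pool.Agent.Helper24.RH
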