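import Mathlib
import Pool.Agent.Helper24.RH.RH3
import Pool.Agent.Helper24.RH.RH4
import Pool.Agent.Helper24.RH.RH5

/-!
# Project RH (MP_d5570f_nt), piece RH-9: the extensions of a clique, sieve inequality
-/

open Finset

namespace Pool.Agent.Helper24.RH

private theorem rh9_cls (q d : ℕ) (hq : 0 < q) :
    ∃ a : ℕ, ∀ n : ℕ, q ∣ n + d ↔ n ≡ a [MOD q] := by
  refine ⟨(q - 1) * d, fun n => ?_⟩
  have h1 : (q - 1) * d + d = q * d := by
    obtain ⟨k, rfl⟩ : ∃ k, q = k + 1 := ⟨q - 1, by omega⟩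
    rw [Nat.add_sub_cancel]
    ring
  have h0 : q * d ≡ 0 [MOD q] := Nat.modEq_zero_iff_dvd.mpr (Dvd.intro _ rfl)
  constructor
  · intro h
    have h2 : n + d ≡ (q - 1) * d + d [MOD q] := by
      rw [h1]
      exact (Nat.modEq_zero_iff_dvd.mpr h).trans h0.symm
    exact Nat.ModEq.add_right_cancel' d h2
  · intro h
    have h2 := h.add_right d
    rw [h1] at h2
    exact Nat.modEq_zero_iff_dvd.mp (h2.trans h0)

private theorem rh9_count (N p d : ℕ) (hp : 0 < p) :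
    (((Icc 1 N).filter (fun n => p ^ 2 ∣ n + d)).card : ℝ) ≤
      (N : ℝ) * (1 / (p : ℝ) ^ 2) + 1 := by
  have hp2 : 0 < p ^ 2 := pow_pos hp 2
  obtain ⟨a, ha⟩ := rh9_cls (p ^ 2) d hp2
  have h1 : (Icc 1 N).filter (fun n => p ^ 2 ∣ n + d) =
      (Icc 1 N).filter (fun n => n ≡ a [MOD (p ^ 2)]) := by
    ext n
    rw [mem_filter, mem_filter, ha]
  have h2 := (class_count N (p ^ 2) a hp2).2
  rw [h1]
  push_cast at h2
  rw [mul_one_div]
  exact h2

private theorem rh9_cover (N y z : ℕ) (D : Finset ℕ) (hD : D ⊆ Vy N y) (hy : 2 ≤ y) (n : ℕ)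
    (hn : n ∈ Sw N Gh (Hd D) (pr y) (pri y z) 1 0)
    (hn' : n ∉ (Vy N y).filter (fun n => Squarefree (n + n) ∧ ∀ d ∈ D, Squarefree (n + d))) :
    ∃ p d : ℕ, p.Prime ∧ z < p ∧ d ∈ insert 0 D ∧ p ^ 2 ∣ n + d := by
  rw [Sw, mem_filter] at hn
  obtain ⟨h1, -, h2, h3⟩ := hn
  have hV : n ∈ Vy N y := by
    rw [Vy, mem_filter]
    exact ⟨h1, h2⟩
  have h4 : ¬ (Squarefree (n + n) ∧ ∀ d ∈ D, Squarefree (n + d)) := fun h =>
    hn' (mem_filter.mpr ⟨hV, h⟩)
  have hlow : ∀ m ∈ Vy N y, ∀ p, p.Prime → p ≤ y → 0 < m % p ^ 2 ∧ 2 * (m % p ^ 2) < p ^ 2 := by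
    intro m hm p hp hpy
    rw [Vy, mem_filter] at hm
    have h5 := hm.2 p (by
      rw [pr, mem_filter, mem_Icc]
      exact ⟨⟨hp.one_lt.le, hpy⟩, hp⟩)
    rw [Gh, mem_filter] at h5
    exact h5.2
  have hsum : ∀ m ∈ Vy N y, ∀ p, p.Prime → p ≤ y → ¬ p ^ 2 ∣ n + m := by
    intro m hm p hp hpy h
    have a1 := hlow n hV p hp hpy
    have a2 := hlow m hm p hp hpy
    have a3 : (n % p ^ 2 + m % p ^ 2) % p ^ 2 = 0 := by
      rw [← Nat.add_mod]
      exact Nat.mod_eq_zero_of_dvd h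
    rw [Nat.mod_eq_of_lt (by omega)] at a3
    omega
  have hmid : ∀ p, p.Prime → y < p → p ≤ z → ¬ p ^ 2 ∣ n ∧ ∀ d ∈ D, ¬ p ^ 2 ∣ n + d := by
    intro p hp hyp hpz
    have b1 := h3 p (by
      rw [pri, mem_filter, mem_Ioc]
      exact ⟨⟨hyp, hpz⟩, hp⟩)
    rw [Hd, mem_filter, not_and] at b1
    have b2 := b1 (mem_range.mpr (Nat.mod_lt _ (pow_pos hp.pos 2)))
    push Not at b2
    constructor
    · intro h
      exact b2.1 (by rw [Nat.mod_eq_zero_of_dvd h]; exact dvd_zero _)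
    · intro d hd h
      refine b2.2 d hd ?_
      have h6 : (n % p ^ 2 + d) % p ^ 2 = (n + d) % p ^ 2 := Nat.mod_add_mod n (p ^ 2) d
      exact Nat.dvd_of_mod_eq_zero (by rw [h6]; exact Nat.mod_eq_zero_of_dvd h)
  by_cases h5 : Squarefree (n + n)
  · have h6 : ∃ d ∈ D, ¬ Squarefree (n + d) := by
      by_contra h
      push Not at h
      exact h4 ⟨h5, h⟩
    obtain ⟨d, hd, h7⟩ := h6
    rw [Nat.squarefree_iff_prime_squarefree] at h7
    push Not at h7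
    obtain ⟨p, hp, h8⟩ := h7
    rw [← pow_two] at h8
    refine ⟨p, d, hp, ?_, mem_insert_of_mem hd, h8⟩
    by_contra h9
    rcases le_or_gt p y with h10 | h10
    · exact hsum d (hD hd) p hp h10 h8
    · exact (hmid p hp h10 (by omega)).2 d hd h8
  · rw [Nat.squarefree_iff_prime_squarefree] at h5
    push Not at h5
    obtain ⟨p, hp, h8⟩ := h5
    rw [← pow_two] at h8
    have hodd : y < p → p ^ 2 ∣ n := by
      intro h
      have h10 : Nat.Coprime (p ^ 2) 2 := by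
        apply Nat.Coprime.pow_left
        exact (Nat.coprime_primes hp Nat.prime_two).mpr (by omega)
      have h11 : p ^ 2 ∣ 2 * n := by
        rw [two_mul]
        exact h8
      exact h10.dvd_of_dvd_mul_left h11
    rcases le_or_gt p y with h10 | h10
    · exact absurd h8 (hsum n hV p hp h10)
    · refine ⟨p, 0, hp, ?_, mem_insert_self _ _, by rw [add_zero]; exact hodd h10⟩
      by_contra h9
      exact (hmid p hp h10 (by omega)).1 (hodd h10)

private theorem rh9_sum (I D0 : Finset ℕ) (c : ℕ → ℕ → ℕ) (f : ℕ → ℝ) (ω : ℝ)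
    (hω : (D0.card : ℝ) ≤ ω) (hf : ∀ p ∈ I, 0 ≤ f p)
    (h : ∀ p ∈ I, ∀ d ∈ D0, (c p d : ℝ) ≤ f p) :
    ((∑ x ∈ I ×ˢ D0, c x.1 x.2 : ℕ) : ℝ) ≤ ω * ∑ p ∈ I, f p := by
  push_cast
  rw [Finset.sum_product, Finset.mul_sum]
  refine Finset.sum_le_sum fun p hp => ?_
  calc ∑ d ∈ D0, (c p d : ℝ) ≤ ∑ _d ∈ D0, f p := Finset.sum_le_sum (h p hp)
    _ = D0.card * f p := by rw [Finset.sum_const, nsmul_eq_mul]
    _ ≤ ω * f p := mul_le_mul_of_nonneg_right hω (hf p hp)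

/-- Proof.  Write `ω = |D| + 1`, `H = Hd D`, `S = Sw N Gh H (pr y) (pri y z) 1 0` (the congruence
modulo `1` is void).  For `n ∈ S` (so `n ∈ Vy N y`) and `d ∈ D`: no `p ^ 2` with `p ≤ z` prime
divides `n + d` or `n + n`: for `p ≤ y` the residues of `n` and `d` modulo `p ^ 2` are positive and
below `p ^ 2 / 2`; for `y < p ≤ z` because `n % p ^ 2 ∉ Hd D p` (and `p` is odd).  A number that is
not squarefree is divisible by `p ^ 2` for a prime `p` (`Nat.squarefree_iff_prime_squarefree`).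
So `S` without the sets `B p d = {n ∈ S : p ^ 2 ∣ n + d}`, `p > z` prime, `d ∈ insert 0 D` (`0`
stands for `n + n`, `p` odd), is contained in the set on the right.

`|S| ≥ N rh (dn - sg^(s+1)/(s+1)!) - pg (1+wt)^s` by `sieve_classes` (with `Q = 1`) and `sieve`
(`s` odd).  For `z < p ≤ w`: `B p d ⊆ Sw N Gh H (pr y) (pri y z) (p ^ 2) a` with `a ≡ -d` modulo
`p ^ 2` (`a = p ^ 2 - d % p ^ 2`), so `|B p d| ≤ N / p ^ 2 * rh (dn + sg^(s+2)/(s+2)!)
+ pg (1+wt)^(s+1)` (`s + 1` even; `p` is prime to itself only outside `pr y`, `pri y z`); the sum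
over `z < p ≤ w` and `d` is at most `ω / z * N rh (dn + sg^(s+2)/(s+2)!) + ω w pg (1+wt)^(s+1)`
(`tail_sum_all`) and `ω / z ≤ 1/8`.  For `p > w`: `B p d` is empty unless `p ^ 2 ≤ 2 N`
(`n + d ≤ 2 N`), i.e. `p ≤ Nat.sqrt (2 N)`, and `|B p d| ≤ N / p ^ 2 + 1` (`class_count`); the sum
is at most `ω (N / w + √(2 N))`.  (`0 ≤ dn`, `0 ≤ sg`, `0 ≤ wt`, `(1+wt)^s ≤ (1+wt)^(s+1)`; `dn ≥ 0`
holds because `|Hd D p| ≤ p ^ 2`.) -/
theorem ext_bound (N y z w s : ℕ) (D : Finset ℕ) (hD : D ⊆ Vy N y) (hs : Odd s) (hy : 2 ≤ y)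
    (hyz : y ≤ z) (hzw : z ≤ w) (hz : 8 * (D.card + 1) ≤ z) :
    (N : ℝ) * rh Gh (pr y) * (7 / 8 * dn (Hd D) (pri y z)
        - sg (Hd D) (pri y z) ^ (s + 1) / (s + 1).factorial
        - sg (Hd D) (pri y z) ^ (s + 2) / (s + 2).factorial)
      - pg Gh (pr y) * (1 + wt (Hd D) (pri y z)) ^ (s + 1) * (1 + (D.card + 1) * w)
      - (D.card + 1) * ((N : ℝ) / w + √(2 * N))
      ≤ (((Vy N y).filter (fun n => Squarefree (n + n) ∧ ∀ d ∈ D, Squarefree (n + d))).card : ℝ)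
      := by
  classical
  have hz1 : 1 ≤ z := by omega
  have hw1 : 1 ≤ w := by omega
  have hHr : ∀ p ∈ pri y z, Hd D p ⊆ range (p ^ 2) := fun p _ => filter_subset _ _
  have hPp : ∀ p ∈ pri y z, p.Prime := fun p hp => (mem_filter.mp hp).2
  have hTp : ∀ p ∈ pr y, p.Prime := fun p hp => (mem_filter.mp hp).2
  have hGr : ∀ p ∈ pr y, Gh p ⊆ range (p ^ 2) := fun p _ => filter_subset _ _
  have hPz : ∀ p ∈ pri y z, p ≤ z := fun p hp => (mem_Ioc.mp (mem_filter.mp hp).1).2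
  have hTz : ∀ p ∈ pr y, p ≤ z := fun p hp => ((mem_Icc.mp (mem_filter.mp hp).1).2).trans hyz
  have hdis : Disjoint (pr y) (pri y z) := by
    rw [Finset.disjoint_left]
    intro p h1 h2
    rw [pr, mem_filter, mem_Icc] at h1
    rw [pri, mem_filter, mem_Ioc] at h2
    omega
  have hσ : 0 ≤ sg (Hd D) (pri y z) := Finset.sum_nonneg fun r _ => by positivity
  have hW : 0 ≤ wt (Hd D) (pri y z) := Finset.sum_nonneg fun r _ => by positivity
  have hdn : 0 ≤ dn (Hd D) (pri y z) := by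
    refine Finset.prod_nonneg fun r hr => ?_
    have hr1 : (0 : ℝ) < (r : ℝ) := by exact_mod_cast (hPp r hr).pos
    have h1 := Finset.card_le_card (hHr r hr)
    rw [card_range] at h1
    have h2 : ((Hd D r).card : ℝ) ≤ (r : ℝ) ^ 2 := by exact_mod_cast h1
    have h3 : ((Hd D r).card : ℝ) / (r : ℝ) ^ 2 ≤ 1 := by
      rw [div_le_one (by positivity)]
      exact h2
    linarith
  have hrh : 0 ≤ rh Gh (pr y) := Finset.prod_nonneg fun r _ => by positivity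
  have hpg : 0 ≤ pg Gh (pr y) := Finset.prod_nonneg fun r _ => by positivity
  have hsv := sieve N Gh (Hd D) (pri y z) hPp hHr
  have hE : (1 + wt (Hd D) (pri y z)) ^ s ≤ (1 + wt (Hd D) (pri y z)) ^ (s + 1) :=
    pow_le_pow_right₀ (by linarith) (by omega)
  have hs1 : Even (s + 1) := hs.add_one
  have hcl := sieve_classes N Gh (Hd D) (pri y z)
    (dn (Hd D) (pri y z) - sg (Hd D) (pri y z) ^ (s + 1) / (s + 1).factorial)
    (dn (Hd D) (pri y z) + sg (Hd D) (pri y z) ^ (s + 2) / (s + 2).factorial)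
    ((1 + wt (Hd D) (pri y z)) ^ (s + 1))
    (fun Q a hQ hc => by
      have h1 := (hsv s Q a hQ hc).1 hs
      linarith)
    (fun Q a hQ hc => (hsv (s + 1) Q a hQ hc).2 hs1) (pr y) hTp hPp hdis hGr
  have hS := (hcl 1 0 one_pos (fun p _ => Nat.coprime_one_right p)
    (fun p _ => Nat.coprime_one_right p)).1
  rw [Nat.cast_one, div_one] at hS
  have ha1 : 0 ≤ sg (Hd D) (pri y z) ^ (s + 1) / ((s + 1).factorial : ℝ) := by positivity
  have ha2 : 0 ≤ sg (Hd D) (pri y z) ^ (s + 2) / ((s + 2).factorial : ℝ) := by positivity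
  have hE0 : 0 ≤ (1 + wt (Hd D) (pri y z)) ^ (s + 1) := by positivity
  generalize sg (Hd D) (pri y z) ^ (s + 1) / ((s + 1).factorial : ℝ) = a1 at *
  generalize sg (Hd D) (pri y z) ^ (s + 2) / ((s + 2).factorial : ℝ) = a2 at *
  generalize (1 + wt (Hd D) (pri y z)) ^ (s + 1) = E at *
  clear hsv hE
  have hB : ∀ p ∈ pri z w, ∀ d ∈ insert 0 D,
      (((Sw N Gh (Hd D) (pr y) (pri y z) 1 0).filter (fun n => p ^ 2 ∣ n + d)).card : ℝ) ≤
      (N : ℝ) * (rh Gh (pr y) * (dn (Hd D) (pri y z) + a2)) * (1 / (p : ℝ) ^ 2) +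
        pg Gh (pr y) * E := by
    intro p hp d _
    rw [pri, mem_filter, mem_Ioc] at hp
    have hp2 : 0 < p ^ 2 := pow_pos hp.2.pos 2
    obtain ⟨a, ha⟩ := rh9_cls (p ^ 2) d hp2
    have hsub : (Sw N Gh (Hd D) (pr y) (pri y z) 1 0).filter (fun n => p ^ 2 ∣ n + d) ⊆
        Sw N Gh (Hd D) (pr y) (pri y z) (p ^ 2) a := by
      intro n hn
      rw [mem_filter] at hn
      have h1 := hn.1
      rw [Sw, mem_filter] at h1 ⊢
      exact ⟨h1.1, (ha n).mp hn.2, h1.2.2⟩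
    have hcopr : ∀ r : ℕ, r.Prime → r ≤ z → Nat.Coprime r (p ^ 2) := by
      intro r hr hrz
      refine Nat.Coprime.pow_right _ ?_
      exact (Nat.coprime_primes hr hp.2).mpr (by omega)
    have h2 := (hcl (p ^ 2) a hp2 (fun r hr => hcopr r (hPp r hr) (hPz r hr))
      (fun r hr => hcopr r (hTp r hr) (hTz r hr))).2
    have h3 : (((Sw N Gh (Hd D) (pr y) (pri y z) 1 0).filter
        (fun n => p ^ 2 ∣ n + d)).card : ℝ) ≤
        ((Sw N Gh (Hd D) (pr y) (pri y z) (p ^ 2) a).card : ℝ) := by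
      exact_mod_cast card_le_card hsub
    have h4 : (N : ℝ) * (rh Gh (pr y) * (dn (Hd D) (pri y z) + a2)) * (1 / (p : ℝ) ^ 2) =
        (N : ℝ) / ((p ^ 2 : ℕ) : ℝ) * (rh Gh (pr y) * (dn (Hd D) (pri y z) + a2)) := by
      push_cast
      ring
    rw [h4]
    exact h3.trans h2
  have hcov : Sw N Gh (Hd D) (pr y) (pri y z) 1 0 ⊆
      ((Vy N y).filter (fun n => Squarefree (n + n) ∧ ∀ d ∈ D, Squarefree (n + d)) ∪
        ((pri z w) ×ˢ (insert 0 D)).biUnion (fun x =>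
          (Sw N Gh (Hd D) (pr y) (pri y z) 1 0).filter (fun n => x.1 ^ 2 ∣ n + x.2))) ∪
        ((Ioc w (Nat.sqrt (2 * N))) ×ˢ (insert 0 D)).biUnion (fun x =>
          (Icc 1 N).filter (fun n => x.1 ^ 2 ∣ n + x.2)) := by
    intro n hn
    by_cases hA : n ∈ (Vy N y).filter
        (fun n => Squarefree (n + n) ∧ ∀ d ∈ D, Squarefree (n + d))
    · exact mem_union_left _ (mem_union_left _ hA)
    · obtain ⟨p, d, hp, hzp, hd, hdiv⟩ := rh9_cover N y z D hD hy n hn hA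
      rcases le_or_gt p w with h1 | h1
      · refine mem_union_left _ (mem_union_right _ ?_)
        rw [mem_biUnion]
        exact ⟨(p, d), mem_product.mpr ⟨by
          rw [pri, mem_filter, mem_Ioc]
          exact ⟨⟨hzp, h1⟩, hp⟩, hd⟩, mem_filter.mpr ⟨hn, hdiv⟩⟩
      · refine mem_union_right _ ?_
        rw [mem_biUnion]
        have hnN : n ∈ Icc 1 N := (mem_filter.mp hn).1
        have hnN' := mem_Icc.mp hnN
        have hdN : d ≤ N := by
          rcases mem_insert.mp hd with h2 | h2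
          · omega
          · exact (mem_Icc.mp (mem_filter.mp (hD h2)).1).2
        refine ⟨(p, d), mem_product.mpr ⟨mem_Ioc.mpr ⟨h1, ?_⟩, hd⟩, mem_filter.mpr ⟨hnN, hdiv⟩⟩
        rw [Nat.le_sqrt']
        have h3 := Nat.le_of_dvd (by omega) hdiv
        change p ^ 2 ≤ 2 * N
        omega
  have hc1 := (card_le_card hcov).trans ((card_union_le _ _).trans
    (add_le_add ((card_union_le _ _).trans (add_le_add le_rfl card_biUnion_le))
      card_biUnion_le))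
  have hc2 : ((Sw N Gh (Hd D) (pr y) (pri y z) 1 0).card : ℝ) ≤
      (((Vy N y).filter (fun n => Squarefree (n + n) ∧ ∀ d ∈ D, Squarefree (n + d))).card : ℝ) +
      ((∑ x ∈ (pri z w) ×ˢ (insert 0 D), ((Sw N Gh (Hd D) (pr y) (pri y z) 1 0).filter
        (fun n => x.1 ^ 2 ∣ n + x.2)).card : ℕ) : ℝ) +
      ((∑ x ∈ (Ioc w (Nat.sqrt (2 * N))) ×ˢ (insert 0 D), ((Icc 1 N).filter
        (fun n => x.1 ^ 2 ∣ n + x.2)).card : ℕ) : ℝ) := by
    exact_mod_cast hc1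
  have hω : ((insert 0 D).card : ℝ) ≤ (D.card : ℝ) + 1 := by
    exact_mod_cast card_insert_le 0 D
  have hR : 0 ≤ (N : ℝ) * (rh Gh (pr y) * (dn (Hd D) (pri y z) + a2)) := by positivity
  have hF : 0 ≤ pg Gh (pr y) * E := mul_nonneg hpg hE0
  have hs2 := rh9_sum (pri z w) (insert 0 D)
    (fun p d => ((Sw N Gh (Hd D) (pr y) (pri y z) 1 0).filter (fun n => p ^ 2 ∣ n + d)).card)
    (fun p => (N : ℝ) * (rh Gh (pr y) * (dn (Hd D) (pri y z) + a2)) * (1 / (p : ℝ) ^ 2) +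
        pg Gh (pr y) * E) ((D.card : ℝ) + 1) hω
    (fun p _ => add_nonneg (mul_nonneg hR (by positivity)) hF) hB
  have hs3 := rh9_sum (Ioc w (Nat.sqrt (2 * N))) (insert 0 D)
    (fun p d => ((Icc 1 N).filter (fun n => p ^ 2 ∣ n + d)).card)
    (fun p => (N : ℝ) * (1 / (p : ℝ) ^ 2) + 1) ((D.card : ℝ) + 1) hω
    (fun p _ => by positivity)
    (fun p hp d _ => rh9_count N p d (by have := (mem_Ioc.mp hp).1; omega))
  have hω0 : (0 : ℝ) ≤ (D.card : ℝ) + 1 := by positivity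
  have ht1 : ∑ p ∈ pri z w, (1 : ℝ) / (p : ℝ) ^ 2 ≤ 1 / z := by
    refine le_trans ?_ (tail_sum_all z w hz1)
    exact Finset.sum_le_sum_of_subset_of_nonneg (filter_subset _ _) fun i _ _ => by positivity
  have hcw : ((pri z w).card : ℝ) ≤ w := by
    have h1 : (pri z w).card ≤ (Ioc z w).card := card_le_card (filter_subset _ _)
    rw [Nat.card_Ioc] at h1
    exact_mod_cast (show (pri z w).card ≤ w by omega)
  have hs4 : ∑ p ∈ pri z w, ((N : ℝ) * (rh Gh (pr y) * (dn (Hd D) (pri y z) + a2)) *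
      (1 / (p : ℝ) ^ 2) + pg Gh (pr y) * E) ≤
      (N : ℝ) * (rh Gh (pr y) * (dn (Hd D) (pri y z) + a2)) * (1 / z) +
        w * (pg Gh (pr y) * E) := by
    rw [Finset.sum_add_distrib, ← Finset.mul_sum, Finset.sum_const, nsmul_eq_mul]
    exact add_le_add (mul_le_mul_of_nonneg_left ht1 hR) (mul_le_mul_of_nonneg_right hcw hF)
  have hs5 : ∑ p ∈ Ioc w (Nat.sqrt (2 * N)), ((N : ℝ) * (1 / (p : ℝ) ^ 2) + 1) ≤
      (N : ℝ) / w + √(2 * N) := by
    rw [Finset.sum_add_distrib, ← Finset.mul_sum, Finset.sum_const, nsmul_eq_mul, mul_one,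
      Nat.card_Ioc]
    have h1 := mul_le_mul_of_nonneg_left (tail_sum_all w (Nat.sqrt (2 * N)) hw1)
      (Nat.cast_nonneg (α := ℝ) N)
    have h2 : ((Nat.sqrt (2 * N) - w : ℕ) : ℝ) ≤ √(2 * N) := by
      have h3 : ((Nat.sqrt (2 * N) - w : ℕ) : ℝ) ≤ ((Nat.sqrt (2 * N) : ℕ) : ℝ) := by
        exact_mod_cast Nat.sub_le _ _
      have h4 := Real.nat_sqrt_le_real_sqrt (a := 2 * N)
      push_cast at h4
      exact h3.trans h4
    rw [mul_one_div] at h1
    exact add_le_add h1 h2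
  have hs6 := mul_le_mul_of_nonneg_left hs4 hω0
  have hs7 := mul_le_mul_of_nonneg_left hs5 hω0
  have hz0 : (0 : ℝ) < z := by exact_mod_cast hz1
  have hkey : ((D.card : ℝ) + 1) * (1 / z) ≤ 1 / 8 := by
    rw [mul_one_div, div_le_iff₀ hz0]
    have h1 : (8 : ℝ) * ((D.card : ℝ) + 1) ≤ z := by exact_mod_cast hz
    linarith
  have hkey2 := mul_le_mul_of_nonneg_left hkey hR
  have hX : 0 ≤ (N : ℝ) * rh Gh (pr y) * a2 := by positivity
  generalize (((Vy N y).filter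
    (fun n => Squarefree (n + n) ∧ ∀ d ∈ D, Squarefree (n + d))).card : ℝ) = A at *
  nlinarith [hs2, hs3, hs6, hs7, hkey2, hX, hS, hc2]

end Pool.Agent.Helper24.RH
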