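import Mathlib
import Pool.Agent.Helper24.RH.RH9
import Pool.Agent.Helper24.RH.RH11

/-!
# Project RH (MP_d5570f_nt): cliques of size `c u ^ 2 (log r) ^ 2` have many extensions
-/

open Finset

namespace Pool.Agent.Helper24.RH

theorem big_exp (L : ℝ) (hL : 160000 ≤ L) : L ^ 5 ≤ Real.exp (L / 2) := by
  have h := Real.pow_div_factorial_le_exp (L / 2) (by linarith) 6
  refine le_trans ?_ h
  have h1 : (L / 2) ^ 6 / (Nat.factorial 6 : ℝ) = L ^ 5 * (L / 46080) := by
    have : (Nat.factorial 6 : ℝ) = 720 := by norm_num [Nat.factorial]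
    rw [this]; ring
  rw [h1]
  have h2 : (0 : ℝ) ≤ L ^ 5 := by positivity
  nlinarith

theorem big_log (L : ℝ) (hL : 160000 ≤ L) :
    11 ≤ Real.log L ∧ Real.log L ^ 2 ≤ L ∧ 28 * Real.log L ≤ L := by
  have hL0 : 0 < L := by linarith
  have h1 : (11 : ℝ) ≤ Real.log L := by
    rw [Real.le_log_iff_exp_le hL0]
    refine le_trans ?_ hL
    have h2 : Real.exp 11 = Real.exp 1 ^ 11 := by
      rw [← Real.exp_nat_mul]; norm_num
    rw [h2]
    have h3 := Real.exp_one_lt_d9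
    calc Real.exp 1 ^ 11 ≤ 2.7182818286 ^ 11 :=
          pow_le_pow_left₀ (Real.exp_pos _).le h3.le 11
      _ ≤ 160000 := by norm_num
  set l := Real.log L with hl
  have h4 : L = Real.exp l := (Real.exp_log hL0).symm
  have h5 := Real.pow_div_factorial_le_exp l (by linarith) 4
  have h6 : (Nat.factorial 4 : ℝ) = 24 := by norm_num [Nat.factorial]
  rw [h6, ← h4] at h5
  have h121 : (121 : ℝ) ≤ l ^ 2 := by nlinarith
  have h7 : l ^ 2 * 121 ≤ l ^ 4 := by
    have := mul_le_mul_of_nonneg_left h121 (sq_nonneg l)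
    nlinarith
  have h8 : l * 1331 ≤ l ^ 4 := by
    have h81 : l * 11 ≤ l ^ 2 := by nlinarith
    nlinarith
  refine ⟨h1, ?_, ?_⟩
  · have : l ^ 2 ≤ l ^ 4 / 24 := by nlinarith [sq_nonneg l]
    linarith
  · have : 28 * l ≤ l ^ 4 / 24 := by nlinarith [sq_nonneg l]
    linarith

/-- The final comparison of the main term and the error terms. -/
theorem main_ineq (L u X N ω ρ pgv Wp w M : ℝ) (hL : 160000 ≤ L) (hu : 1 ≤ u)
    (hX : Real.exp (3 * u * L) ≤ X) (hN : N = X ^ 8) (hω0 : 0 ≤ ω) (hω : ω ≤ L ^ 3)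
    (hρ : Real.exp (-(L / 8)) ≤ ρ) (hpg0 : 0 ≤ pgv) (hpg : pgv ≤ Real.exp (u * L))
    (hW0 : 0 ≤ Wp) (hW : Wp ≤ Real.exp (8 * u * L)) (hw1 : X / 2 ≤ w) (hw2 : w ≤ X)
    (hM : 5 / 8 * Real.exp (-(L / 16)) ≤ M) :
    N * Real.exp (-(L / 4)) ≤
      N * ρ * M - pgv * Wp * (1 + ω * w) - ω * (N / w + √(2 * N)) := by
  have hL0 : 0 < L := by linarith
  have hX0 : 0 < X := lt_of_lt_of_le (Real.exp_pos _) hX
  have huL : L ≤ u * L := by nlinarith
  have he3 : Real.exp (3 * L) ≤ X := le_trans (Real.exp_le_exp.2 (by nlinarith)) hX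
  have hL5 := big_exp L hL
  have hL3 : L ^ 3 * 4 ≤ Real.exp (L / 2) := by
    refine le_trans ?_ hL5
    have h1 : (0 : ℝ) ≤ L ^ 3 := by positivity
    have h2 : (4 : ℝ) ≤ L ^ 2 := by nlinarith
    calc L ^ 3 * 4 ≤ L ^ 3 * L ^ 2 := mul_le_mul_of_nonneg_left h2 h1
      _ = L ^ 5 := by ring
  have hX1 : 1 ≤ X := le_trans (Real.one_le_exp (by positivity)) he3
  have hN0 : 0 < N := by rw [hN]; positivity
  have hw0 : 0 < w := by linarith
  -- first error
  have hE1 : pgv * Wp * (1 + ω * w) ≤ N * Real.exp (-L) := by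
    have h1 : pgv * Wp ≤ Real.exp (9 * u * L) := by
      calc pgv * Wp ≤ Real.exp (u * L) * Real.exp (8 * u * L) :=
            mul_le_mul hpg hW hW0 (Real.exp_pos _).le
        _ = _ := by rw [← Real.exp_add]; congr 1; ring
    have h2 : Real.exp (9 * u * L) ≤ X ^ 3 := by
      calc Real.exp (9 * u * L) = Real.exp (3 * u * L) ^ 3 := by
            rw [← Real.exp_nat_mul]; congr 1; push_cast; ring
        _ ≤ X ^ 3 := pow_le_pow_left₀ (Real.exp_pos _).le hX 3
    have h3 : 1 + ω * w ≤ Real.exp (L / 2) * X := by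
      have h4 : ω * w ≤ L ^ 3 * X := mul_le_mul hω hw2 hw0.le (by positivity)
      have h5 : (1 : ℝ) ≤ L ^ 3 * X := by
        have : (1 : ℝ) ≤ L ^ 3 := one_le_pow₀ (by linarith)
        nlinarith
      have h6 : L ^ 3 * 4 * X ≤ Real.exp (L / 2) * X := mul_le_mul_of_nonneg_right hL3 hX0.le
      nlinarith
    have h7 : Real.exp (L / 2) ≤ X := le_trans (Real.exp_le_exp.2 (by linarith)) he3
    have h8 : Real.exp L ≤ X := le_trans (Real.exp_le_exp.2 (by linarith)) he3
    have h9 : pgv * Wp * (1 + ω * w) ≤ X ^ 3 * (X * X) := by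
      have h10 : 0 ≤ 1 + ω * w := by positivity
      calc pgv * Wp * (1 + ω * w) ≤ X ^ 3 * (Real.exp (L / 2) * X) :=
            mul_le_mul (h1.trans h2) h3 h10 (by positivity)
        _ ≤ X ^ 3 * (X * X) := by
            apply mul_le_mul_of_nonneg_left _ (by positivity)
            exact mul_le_mul_of_nonneg_right h7 hX0.le
    refine h9.trans ?_
    rw [Real.exp_neg, ← div_eq_mul_inv, le_div_iff₀ (Real.exp_pos _), hN]
    calc X ^ 3 * (X * X) * Real.exp L ≤ X ^ 3 * (X * X) * X :=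
          mul_le_mul_of_nonneg_left h8 (by positivity)
      _ = X ^ 6 := by ring
      _ ≤ X ^ 8 := pow_le_pow_right₀ hX1 (by norm_num)
  -- second error
  have hE2 : ω * (N / w + √(2 * N)) ≤ N * Real.exp (-L) := by
    have h1 : N / w ≤ 2 * X ^ 7 := by
      rw [div_le_iff₀ hw0, hN]
      have : X ^ 8 = 2 * X ^ 7 * (X / 2) := by ring
      rw [this]
      exact mul_le_mul_of_nonneg_left hw1 (by positivity)
    have h2 : √(2 * N) ≤ 2 * X ^ 7 := by
      rw [Real.sqrt_le_left (by positivity), hN]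
      have : X ^ 8 ≤ X ^ 14 := pow_le_pow_right₀ hX1 (by norm_num)
      have h3 : (2 * X ^ 7) ^ 2 = 4 * X ^ 14 := by ring
      rw [h3]
      have : (0 : ℝ) ≤ X ^ 8 := by positivity
      linarith
    have h4 : ω * (N / w + √(2 * N)) ≤ L ^ 3 * (4 * X ^ 7) := by
      apply mul_le_mul hω (by linarith) (by positivity) (by positivity)
    refine h4.trans ?_
    rw [Real.exp_neg, ← div_eq_mul_inv, le_div_iff₀ (Real.exp_pos _), hN]
    have h5 : L ^ 3 * 4 * Real.exp L ≤ X := by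
      calc L ^ 3 * 4 * Real.exp L ≤ Real.exp (L / 2) * Real.exp L :=
            mul_le_mul_of_nonneg_right hL3 (Real.exp_pos _).le
        _ = Real.exp (L / 2 + L) := by rw [← Real.exp_add]
        _ ≤ Real.exp (3 * L) := Real.exp_le_exp.2 (by linarith)
        _ ≤ X := he3
    calc L ^ 3 * (4 * X ^ 7) * Real.exp L = (L ^ 3 * 4 * Real.exp L) * X ^ 7 := by ring
      _ ≤ X * X ^ 7 := mul_le_mul_of_nonneg_right h5 (by positivity)
      _ = X ^ 8 := by ring
  -- main term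
  have hmain : N * (5 / 8 * Real.exp (-(3 * L / 16))) ≤ N * ρ * M := by
    rw [mul_assoc]
    apply mul_le_mul_of_nonneg_left _ hN0.le
    have h1 : Real.exp (-(3 * L / 16)) = Real.exp (-(L / 8)) * Real.exp (-(L / 16)) := by
      rw [← Real.exp_add]; congr 1; ring
    rw [h1]
    calc 5 / 8 * (Real.exp (-(L / 8)) * Real.exp (-(L / 16)))
        = Real.exp (-(L / 8)) * (5 / 8 * Real.exp (-(L / 16))) := by ring
      _ ≤ ρ * M := mul_le_mul hρ hM (by positivity) (le_trans (Real.exp_pos _).le hρ)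
  have hfin : Real.exp (-(L / 4)) + 2 * Real.exp (-L) ≤ 5 / 8 * Real.exp (-(3 * L / 16)) := by
    have h1 : Real.exp (-(L / 4)) = Real.exp (-(3 * L / 16)) * Real.exp (-(L / 16)) := by
      rw [← Real.exp_add]; congr 1; ring
    have h2 : Real.exp (-L) = Real.exp (-(3 * L / 16)) * Real.exp (-(13 * L / 16)) := by
      rw [← Real.exp_add]; congr 1; ring
    have h3 : Real.exp (-(L / 16)) ≤ 1 / 8 := by
      rw [Real.exp_neg, inv_le_comm₀ (Real.exp_pos _) (by norm_num)]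
      have := Real.add_one_le_exp (L / 16)
      norm_num
      linarith
    have h4 : Real.exp (-(13 * L / 16)) ≤ 1 / 8 := by
      refine le_trans (Real.exp_le_exp.2 ?_) h3
      linarith
    rw [h1, h2]
    have h5 := Real.exp_pos (-(3 * L / 16))
    nlinarith
  nlinarith

theorem log_two_lt : Real.log 4 ≤ 1.4 ∧ Real.log 16 ≤ 2.8 := by
  have h := Real.log_two_lt_d9
  constructor
  · have : Real.log 4 = 2 * Real.log 2 := by
      rw [show (4 : ℝ) = 2 ^ 2 by norm_num, Real.log_pow]; norm_num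
    rw [this]; linarith
  · have : Real.log 16 = 4 * Real.log 2 := by
      rw [show (16 : ℝ) = 2 ^ 4 by norm_num, Real.log_pow]; norm_num
    rw [this]; linarith

/-- The choice of `y` and the sieve quantities. -/
theorem y_facts (L u : ℝ) (hL : 160000 ≤ L) (hu : 1 ≤ u) (hul : u ≤ Real.log L) :
    ∃ y : ℕ, 2 ≤ y ∧ u * L / 400 ≤ y ∧ (y : ℝ) ≤ u * L / 200 ∧ Real.log L / 2 ≤ Real.log y ∧
      Real.exp (-(L / 8)) ≤ rh Gh (pr y) ∧ pg Gh (pr y) ≤ Real.exp (u * L) := by
  have hL0 : 0 < L := by linarith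
  obtain ⟨hl11, hl2, hl28⟩ := big_log L hL
  have huL : L ≤ u * L := by nlinarith
  set y : ℕ := ⌊u * L / 200⌋₊ with hy
  have hy1 : (y : ℝ) ≤ u * L / 200 := Nat.floor_le (by positivity)
  have hy2 : u * L / 400 ≤ y := by
    have := Nat.lt_floor_add_one (u * L / 200)
    rw [← hy] at this
    linarith
  have hy3 : (400 : ℝ) ≤ y := by linarith
  have hsq : √L ≤ y := by
    have h1 : (400 : ℝ) ≤ √L := Real.le_sqrt_of_sq_le (by linarith)
    have h2 : √L * √L = L := Real.mul_self_sqrt hL0.le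
    nlinarith
  have hlogy : Real.log L / 2 ≤ Real.log y := by
    rw [← Real.log_sqrt hL0.le]
    exact Real.log_le_log (Real.sqrt_pos.2 hL0) hsq
  have hlogy0 : 0 < Real.log y := by linarith
  have hy2' : 2 ≤ y := by
    have : (2 : ℝ) ≤ y := by linarith
    exact_mod_cast this
  obtain ⟨h4, h16⟩ := log_two_lt
  refine ⟨y, hy2', hy2, hy1, hlogy, ?_, ?_⟩
  · refine le_trans ?_ (rh_lower y)
    have h1 := pi_upper y hy2'
    have h2 : ((pr y).card : ℝ) ≤ 6 / 100 * L := by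
      refine h1.trans ?_
      rw [div_le_iff₀ hlogy0]
      have h3 : 6 * (y : ℝ) ≤ 6 * (u * L / 200) := by linarith
      have h5 : 6 * (u * L / 200) ≤ 6 / 100 * L * (Real.log L / 2) := by nlinarith
      have h6 : 6 / 100 * L * (Real.log L / 2) ≤ 6 / 100 * L * Real.log y :=
        mul_le_mul_of_nonneg_left hlogy (by positivity)
      linarith
    have h3 : (1 / 4 : ℝ) ^ (pr y).card = Real.exp (-((pr y).card * Real.log 4)) := by
      rw [Real.exp_neg, Real.exp_nat_mul, Real.exp_log (by norm_num), one_div, inv_pow]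
    rw [h3]
    apply Real.exp_le_exp.2
    have h5 : ((pr y).card : ℝ) * Real.log 4 ≤ 6 / 100 * L * 1.4 :=
      mul_le_mul h2 h4 (Real.log_nonneg (by norm_num)) (by positivity)
    linarith
  · refine (pg_upper y).trans ?_
    have h3 : (16 : ℝ) ^ y = Real.exp (y * Real.log 16) := by
      rw [Real.exp_nat_mul, Real.exp_log (by norm_num)]
    rw [h3]
    apply Real.exp_le_exp.2
    have h5 : (y : ℝ) * Real.log 16 ≤ u * L / 200 * 2.8 :=
      mul_le_mul hy1 h16 (Real.log_nonneg (by norm_num)) (by positivity)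
    linarith

/-- A clique `D` with at most `u ^ 2 (log r) ^ 2 / 1228800` elements has many extensions. -/
theorem ext_lower (L u : ℝ) (hL : 160000 ≤ L) (hu : 1 ≤ u) (hul : u ≤ Real.log L) (N : ℕ)
    (hN : Real.exp (24 * u * L) ≤ N) : ∃ y : ℕ, ∀ D : Finset ℕ, D ⊆ Vy N y →
      (D.card : ℝ) ≤ u ^ 2 * L ^ 2 / 1228800 →
      (N : ℝ) * Real.exp (-(L / 4)) ≤
        (((Vy N y).filter (fun n => Squarefree (n + n) ∧ ∀ d ∈ D, Squarefree (n + d))).card : ℝ)
      := by
  obtain ⟨y, hy2, hy400, hy200, hlogy, hrh, hpg⟩ := y_facts L u hL hu hul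
  refine ⟨y, fun D hD hDc => ?_⟩
  have hL0 : 0 < L := by linarith
  obtain ⟨hl11, hl2, hl28⟩ := big_log L hL
  set l := Real.log L with hl
  have hl0 : 0 < l := by linarith
  have hu0 : 0 < u := by linarith
  have huL : L ≤ u * L := by nlinarith
  have huL0 : 0 < u * L := by positivity
  have hN0 : (0 : ℝ) < N := lt_of_lt_of_le (Real.exp_pos _) hN
  -- the size X
  set X : ℝ := (N : ℝ) ^ (1 / 8 : ℝ) with hX
  have hX0 : 0 < X := by positivity
  have hX8 : (N : ℝ) = X ^ 8 := by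
    rw [hX, ← Real.rpow_natCast, ← Real.rpow_mul hN0.le]
    norm_num
  have hXe : Real.exp (3 * u * L) ≤ X := by
    apply le_of_pow_le_pow_left₀ (by norm_num : (8 : ℕ) ≠ 0) hX0.le
    rw [← hX8, ← Real.exp_nat_mul]
    refine le_trans (le_of_eq ?_) hN
    congr 1; push_cast; ring
  have he3 : Real.exp (3 * L) ≤ X := le_trans (Real.exp_le_exp.2 (by nlinarith)) hXe
  have hL5 := big_exp L hL
  -- the size of D
  have huu : u ^ 2 ≤ L := by
    refine le_trans (pow_le_pow_left₀ hu0.le hul 2) hl2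
  have hu2L2 : u ^ 2 * L ^ 2 ≤ L ^ 3 := by
    calc u ^ 2 * L ^ 2 ≤ L * L ^ 2 := mul_le_mul_of_nonneg_right huu (by positivity)
      _ = L ^ 3 := by ring
  have hL2u : L ^ 2 ≤ u ^ 2 * L ^ 2 := by
    have : (1 : ℝ) ≤ u ^ 2 := one_le_pow₀ hu
    nlinarith [sq_nonneg L]
  have hL2 : (160000 : ℝ) * L ≤ L ^ 2 := by nlinarith
  have hL3 : (160000 : ℝ) * L ^ 2 ≤ L ^ 3 := by nlinarith [sq_nonneg L]
  have hω : (D.card : ℝ) + 1 ≤ u ^ 2 * L ^ 2 / 614400 := by
    have : (1228800 : ℝ) ≤ u ^ 2 * L ^ 2 := by nlinarith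
    linarith
  have hω3 : (D.card : ℝ) + 1 ≤ L ^ 3 := by nlinarith
  have hω0 : (0 : ℝ) ≤ (D.card : ℝ) + 1 := by
    have : (0 : ℝ) ≤ (D.card : ℝ) := Nat.cast_nonneg _
    linarith
  -- σ₀, s, z, w
  set σ₀ : ℝ := u * L / (32 * l) with hσ₀
  have hσ0 : 0 < σ₀ := by positivity
  have hσL : 2 * σ₀ ≤ L / 16 := by
    rw [hσ₀]
    have : u * L / (32 * l) ≤ L / 32 := by
      rw [div_le_div_iff₀ (by positivity) (by norm_num)]
      nlinarith
    linarith
  set s : ℕ := 2 * ⌈16 * σ₀⌉₊ + 1 with hs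
  have hs1 : 32 * σ₀ ≤ (s : ℝ) + 1 := by
    have := Nat.le_ceil (16 * σ₀)
    rw [hs]; push_cast; linarith
  have hs2 : (s : ℝ) + 1 ≤ 32 * σ₀ + 4 := by
    have := Nat.ceil_lt_add_one (by positivity : 0 ≤ 16 * σ₀)
    rw [hs]; push_cast; linarith
  have hsodd : Odd s := ⟨⌈16 * σ₀⌉₊, rfl⟩
  set z : ℕ := 8 * (D.card + 1) + y with hz
  have hzr : (z : ℝ) = 8 * ((D.card : ℝ) + 1) + y := by rw [hz]; push_cast; ring
  have hyL : (y : ℝ) ≤ L ^ 3 / 4 := by
    have h1 : u * L ≤ u ^ 2 * L ^ 2 := by nlinarith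
    linarith
  have hz3 : (z : ℝ) ≤ L ^ 3 := by
    rw [hzr]
    nlinarith
  have hwt : wt (Hd D) (pri y z) ≤ L ^ 6 := by
    refine (wt_upper D y z).trans ?_
    calc (z : ℝ) * (D.card + 1) ≤ L ^ 3 * L ^ 3 := mul_le_mul hz3 hω3 hω0 (by positivity)
      _ = L ^ 6 := by ring
  have hwt0 : 0 ≤ wt (Hd D) (pri y z) := by
    unfold wt
    exact Finset.sum_nonneg fun p _ => Nat.cast_nonneg _
  have hwt1 : 1 + wt (Hd D) (pri y z) ≤ L ^ 7 := by
    have h1 : (1 : ℝ) ≤ L ^ 6 := one_le_pow₀ (by linarith)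
    have h2 : L ^ 7 = L * L ^ 6 := by ring
    rw [h2]
    nlinarith
  have hWp : (1 + wt (Hd D) (pri y z)) ^ (s + 1) ≤ Real.exp (8 * u * L) := by
    have h1 : L ^ 7 = Real.exp (7 * l) := by
      rw [hl, ← Real.exp_log (pow_pos hL0 7), Real.log_pow]
      norm_num
    calc (1 + wt (Hd D) (pri y z)) ^ (s + 1) ≤ (L ^ 7) ^ (s + 1) :=
          pow_le_pow_left₀ (by linarith) hwt1 _
      _ = Real.exp (((s + 1 : ℕ) : ℝ) * (7 * l)) := by rw [h1, ← Real.exp_nat_mul]
      _ ≤ Real.exp (8 * u * L) := by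
          apply Real.exp_le_exp.2
          push_cast
          have h2 : ((s : ℝ) + 1) * (7 * l) ≤ (32 * σ₀ + 4) * (7 * l) :=
            mul_le_mul_of_nonneg_right hs2 (by positivity)
          have h3 : 32 * σ₀ * l = u * L := by
            rw [hσ₀]; field_simp
          nlinarith
  set w : ℕ := ⌊X⌋₊ with hw
  have hw1 : (w : ℝ) ≤ X := Nat.floor_le hX0.le
  have hL3X : L ^ 3 ≤ X := by
    have h1 : L ^ 3 ≤ L ^ 5 := pow_le_pow_right₀ (by linarith) (by norm_num)
    have h2 : Real.exp (L / 2) ≤ Real.exp (3 * L) := Real.exp_le_exp.2 (by linarith)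
    linarith
  have hX2 : 2 ≤ X := by
    have h1 : (2 : ℝ) ≤ L ^ 3 := by nlinarith
    linarith
  have hw2 : X / 2 ≤ w := by
    have := Nat.lt_floor_add_one X
    rw [← hw] at this
    linarith
  have hzw : z ≤ w := Nat.le_floor (hz3.trans hL3X)
  -- sieve quantities
  have hsg : sg (Hd D) (pri y z) ≤ σ₀ := by
    refine (sg_upper D y z hy2).trans ?_
    have hlogy0 : 0 < Real.log y := by linarith
    have hy0 : (0 : ℝ) < y := by linarith
    have h1 : u * L / 400 * (l / 2) ≤ y * Real.log y :=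
      mul_le_mul hy400 hlogy (by positivity) hy0.le
    have h2 : 24 / (y * Real.log y) ≤ 24 / (u * L / 400 * (l / 2)) :=
      div_le_div_of_nonneg_left (by norm_num) (by positivity) h1
    calc ((D.card : ℝ) + 1) * (24 / (y * Real.log y))
        ≤ (u ^ 2 * L ^ 2 / 614400) * (24 / (u * L / 400 * (l / 2))) :=
          mul_le_mul hω h2 (by positivity) (by positivity)
      _ = σ₀ := by
          rw [hσ₀]; field_simp; norm_num
  have hsg0 : 0 ≤ sg (Hd D) (pri y z) := by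
    unfold sg
    exact Finset.sum_nonneg fun p _ => div_nonneg (Nat.cast_nonneg _) (sq_nonneg _)
  have hdn : Real.exp (-(2 * σ₀)) ≤ dn (Hd D) (pri y z) := by
    refine le_trans (Real.exp_le_exp.2 (by linarith)) (dn_lower D y z ?_)
    have h1 : (2 : ℝ) * ((D.card : ℝ) + 1) ≤ (y : ℝ) ^ 2 := by
      have h2 : (u * L / 400) ^ 2 ≤ (y : ℝ) ^ 2 := pow_le_pow_left₀ (by positivity) hy400 2
      have h3 : (u * L / 400) ^ 2 = u ^ 2 * L ^ 2 / 160000 := by ring
      have h4 : 0 ≤ u ^ 2 * L ^ 2 := by positivity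
      linarith
    exact_mod_cast h1
  obtain ⟨he1, he2⟩ := fac_small s _ σ₀ hsg0 hsg hs1 (by
    rw [hs]; omega)
  have hmain := ext_bound N y z w s D hD hsodd hy2 (by omega) hzw (by omega)
  refine le_trans ?_ hmain
  refine main_ineq L u X N ((D.card : ℝ) + 1) _ _ _ w _ hL hu hXe hX8 hω0 hω3 hrh ?_ hpg ?_
    hWp hw2 hw1 ?_
  · unfold pg
    exact Finset.prod_nonneg fun p _ => Nat.cast_nonneg _
  · positivity
  · have h1 : Real.exp (-(L / 16)) ≤ Real.exp (-(2 * σ₀)) := Real.exp_le_exp.2 (by linarith)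
    linarith

end Pool.Agent.Helper24.RH
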