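import Mathlib
import Pool.Agent.Helper24.FP.FP7

/-!
# Project RH (MP_d5570f_nt), piece RH-2: the union bound over a small set and a set in its container
-/

open Finset

namespace Pool.Agent.Helper24.RH

open Classical in
/-- Proof.  `host_count` of FP7 with `Ω = Icc 1 N`, `m` there `= i + m`, and `Z` the set of the
unions `D ∪ A`, `D ⊆ Icc 1 N` with `i` elements and `A ⊆ Kn D` with `m` elements, `|Kn D| ≤ V`,
`D ∪ A ⊆ Icc 1 N`, `D` and `A` disjoint: `|Z| ≤ N.choose i * V.choose m ≤ N ^ i * V ^ m`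
(`Nat.choose_le_pow`), so `bad * N ^ (i + m) ≤ N ^ i * V ^ m * r ^ (i + m) * N.choose r`; cancel
`N ^ i` (for `N = 0`: if `r = 0` then only `R = ∅`, `i = m = 0`; check the trivial cases). -/
theorem two_step (N r i m V : ℕ) (Kn : Finset ℕ → Finset ℕ) :
    (((Icc 1 N).powersetCard r).filter (fun R => ∃ D A : Finset ℕ, D ⊆ R ∧ A ⊆ R ∧
      Disjoint D A ∧ D.card = i ∧ A.card = m ∧ A ⊆ Kn D ∧ (Kn D).card ≤ V)).card * N ^ m
      ≤ r ^ i * (V * r) ^ m * N.choose r := by
  set bad := ((Icc 1 N).powersetCard r).filter (fun R => ∃ D A : Finset ℕ, D ⊆ R ∧ A ⊆ R ∧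
      Disjoint D A ∧ D.card = i ∧ A.card = m ∧ A ⊆ Kn D ∧ (Kn D).card ≤ V) with hbad
  have hΩ : (Icc 1 N).card = N := by rw [Nat.card_Icc, Nat.add_sub_cancel]
  rcases Nat.eq_zero_or_pos N with h0 | hN
  · subst h0
    rcases bad.eq_empty_or_nonempty with h1 | ⟨R, hR⟩
    · rw [h1, card_empty, zero_mul]
      exact Nat.zero_le _
    · have hle : bad.card ≤ ((Icc 1 0).powersetCard r).card := card_filter_le _ _
      rw [hbad, mem_filter, mem_powersetCard] at hR
      obtain ⟨⟨h2, h3⟩, D, A, hD, hA, -, h4, h5, -⟩ := hR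
      have hR0 : R = ∅ := by
        have h6 : Icc 1 0 = (∅ : Finset ℕ) := by decide
        rw [h6] at h2
        exact subset_empty.1 h2
      have hr0 : r = 0 := by rw [← h3, hR0, card_empty]
      have hD0 : D = ∅ := subset_empty.1 (hR0 ▸ hD)
      have hA0 : A = ∅ := subset_empty.1 (hR0 ▸ hA)
      have hi0 : i = 0 := by rw [← h4, hD0, card_empty]
      have hm0 : m = 0 := by rw [← h5, hA0, card_empty]
      subst hr0 hi0 hm0
      rw [card_powersetCard] at hle
      simpa using hle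
  · set Z : Finset (Finset ℕ) := ((Icc 1 N).powersetCard i).biUnion fun D =>
      if (Kn D).card ≤ V then
        (((Kn D ∩ Icc 1 N).powersetCard m).filter (fun A => Disjoint D A)).image
          (fun A => D ∪ A) else ∅ with hZ
    have hZm : ∀ S ∈ Z, S ⊆ Icc 1 N ∧ S.card = i + m := by
      intro S hS
      rw [hZ, mem_biUnion] at hS
      obtain ⟨D, hD, hS⟩ := hS
      rw [mem_powersetCard] at hD
      by_cases hV : (Kn D).card ≤ V
      · rw [if_pos hV, mem_image] at hS
        obtain ⟨A, hA, rfl⟩ := hS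
        rw [mem_filter, mem_powersetCard] at hA
        obtain ⟨⟨h1, h2⟩, h3⟩ := hA
        refine ⟨union_subset hD.1 (h1.trans inter_subset_right), ?_⟩
        rw [card_union_of_disjoint h3, hD.2, h2]
      · rw [if_neg hV] at hS
        exact absurd hS (notMem_empty _)
    have hZc : Z.card ≤ N ^ i * V ^ m := by
      calc Z.card ≤ ∑ D ∈ (Icc 1 N).powersetCard i, (if (Kn D).card ≤ V then
          (((Kn D ∩ Icc 1 N).powersetCard m).filter (fun A => Disjoint D A)).image
          (fun A => D ∪ A) else ∅).card := card_biUnion_le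
        _ ≤ ∑ D ∈ (Icc 1 N).powersetCard i, V ^ m := by
          refine sum_le_sum fun D _ => ?_
          by_cases hV : (Kn D).card ≤ V
          · rw [if_pos hV]
            refine card_image_le.trans ((card_filter_le _ _).trans ?_)
            rw [card_powersetCard]
            exact (Nat.choose_le_pow _ _).trans (Nat.pow_le_pow_left
              ((card_le_card inter_subset_left).trans hV) m)
          · rw [if_neg hV, card_empty]
            exact Nat.zero_le _
        _ = N.choose i * V ^ m := by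
          rw [sum_const, card_powersetCard, hΩ, smul_eq_mul]
        _ ≤ N ^ i * V ^ m := Nat.mul_le_mul_right _ (Nat.choose_le_pow _ _)
    have h1 := FP.host_count (Icc 1 N) (i + m) r Z hZm
    rw [hΩ] at h1
    have h2 : bad ⊆ ((Icc 1 N).powersetCard r).filter (fun R => ∃ A ∈ Z, A ⊆ R) := by
      intro R hR
      rw [hbad, mem_filter] at hR
      obtain ⟨hR, D, A, hD, hA, hdis, h3, h4, h5, h6⟩ := hR
      rw [mem_filter]
      refine ⟨hR, D ∪ A, ?_, union_subset hD hA⟩
      rw [mem_powersetCard] at hR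
      rw [hZ, mem_biUnion]
      refine ⟨D, mem_powersetCard.2 ⟨hD.trans hR.1, h3⟩, ?_⟩
      rw [if_pos h6, mem_image]
      exact ⟨A, mem_filter.2 ⟨mem_powersetCard.2 ⟨subset_inter h5 (hA.trans hR.1), h4⟩, hdis⟩,
        rfl⟩
    refine Nat.le_of_mul_le_mul_right (c := N ^ i) ?_ (pow_pos hN i)
    calc bad.card * N ^ m * N ^ i = bad.card * N ^ (i + m) := by rw [pow_add]; ring
      _ ≤ (((Icc 1 N).powersetCard r).filter (fun R => ∃ A ∈ Z, A ⊆ R)).card * N ^ (i + m) :=
        Nat.mul_le_mul_right _ (card_le_card h2)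
      _ ≤ Z.card * r ^ (i + m) * N.choose r := h1
      _ ≤ (N ^ i * V ^ m) * r ^ (i + m) * N.choose r :=
        Nat.mul_le_mul_right _ (Nat.mul_le_mul_right _ hZc)
      _ = r ^ i * (V * r) ^ m * N.choose r * N ^ i := by rw [pow_add, mul_pow]; ring

open Classical in
/-- Proof.  Union over `i = 0, ..., K` of `two_step`, `r ^ i ≤ r ^ K`. -/
theorem two_step_all (N r K m V : ℕ) (hr : 1 ≤ r) (Kn : Finset ℕ → Finset ℕ) :
    (((Icc 1 N).powersetCard r).filter (fun R => ∃ D A : Finset ℕ, D ⊆ R ∧ A ⊆ R ∧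
      Disjoint D A ∧ D.card ≤ K ∧ A.card = m ∧ A ⊆ Kn D ∧ (Kn D).card ≤ V)).card * N ^ m
      ≤ (K + 1) * r ^ K * (V * r) ^ m * N.choose r := by
  have h1 : ((Icc 1 N).powersetCard r).filter (fun R => ∃ D A : Finset ℕ, D ⊆ R ∧ A ⊆ R ∧
      Disjoint D A ∧ D.card ≤ K ∧ A.card = m ∧ A ⊆ Kn D ∧ (Kn D).card ≤ V) ⊆
      (range (K + 1)).biUnion fun i => ((Icc 1 N).powersetCard r).filter
        (fun R => ∃ D A : Finset ℕ, D ⊆ R ∧ A ⊆ R ∧
          Disjoint D A ∧ D.card = i ∧ A.card = m ∧ A ⊆ Kn D ∧ (Kn D).card ≤ V) := by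
    intro R hR
    rw [mem_filter] at hR
    obtain ⟨hR, D, A, hD, hA, hdis, h3, h4⟩ := hR
    rw [mem_biUnion]
    exact ⟨D.card, mem_range.2 (by omega), mem_filter.2 ⟨hR, D, A, hD, hA, hdis, rfl, h4⟩⟩
  calc _ ≤ (∑ i ∈ range (K + 1), (((Icc 1 N).powersetCard r).filter
        (fun R => ∃ D A : Finset ℕ, D ⊆ R ∧ A ⊆ R ∧
          Disjoint D A ∧ D.card = i ∧ A.card = m ∧ A ⊆ Kn D ∧ (Kn D).card ≤ V)).card) * N ^ m :=
        Nat.mul_le_mul_right _ ((card_le_card h1).trans card_biUnion_le)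
    _ ≤ ∑ i ∈ range (K + 1), r ^ K * (V * r) ^ m * N.choose r := by
        rw [sum_mul]
        refine sum_le_sum fun i hi => (two_step N r i m V Kn).trans ?_
        have h2 : r ^ i ≤ r ^ K := Nat.pow_le_pow_right hr (by have := mem_range.1 hi; omega)
        exact Nat.mul_le_mul_right _ (Nat.mul_le_mul_right _ h2)
    _ = _ := by
        rw [sum_const, card_range, smul_eq_mul]
        ring

end Pool.Agent.Helper24.RH
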