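import Mathlib

/-!
# Project RH (MP_d5570f_nt), piece RH-6: maximal cliques in random hosts
-/

open Finset

namespace Pool.Agent.Helper24.RH

private theorem RH6_pow (N E t : ℕ) (hE : E ≤ N) (hN : 0 < N) :
    ((N - E).choose t : ℝ) ≤ (1 - (E : ℝ) / N) ^ t * (N.choose t : ℝ) := by
  have hN' : (0 : ℝ) < N := by exact_mod_cast hN
  have hE' : (E : ℝ) ≤ N := by exact_mod_cast hE
  have hq : 0 ≤ 1 - (E : ℝ) / N := by
    rw [sub_nonneg, div_le_one hN']
    exact hE'
  induction t with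
  | zero => simp
  | succ t ih =>
    by_cases ht : t < N - E
    · have h1 : (((N - E).choose (t + 1) : ℕ) : ℝ) * (t + 1) =
          ((N - E).choose t : ℝ) * ((N : ℝ) - E - t) := by
        have h2 := Nat.choose_succ_right_eq (N - E) t
        have h3 : ((N - E - t : ℕ) : ℝ) = (N : ℝ) - E - t := by
          rw [Nat.cast_sub ht.le, Nat.cast_sub hE]
        rw [← h3]
        exact_mod_cast h2
      have h2 : ((N.choose (t + 1) : ℕ) : ℝ) * (t + 1) = (N.choose t : ℝ) * ((N : ℝ) - t) := by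
        have h2 := Nat.choose_succ_right_eq N t
        have h3 : ((N - t : ℕ) : ℝ) = (N : ℝ) - t := by
          rw [Nat.cast_sub (by omega)]
        rw [← h3]
        exact_mod_cast h2
      have h3 : (N : ℝ) - E - t ≤ (1 - (E : ℝ) / N) * ((N : ℝ) - t) := by
        have h4 : (1 - (E : ℝ) / N) * ((N : ℝ) - t) = (N : ℝ) - E - t + E * t / N := by
          field_simp
          ring
        rw [h4]
        have h5 : 0 ≤ (E : ℝ) * t / N := by positivity
        linarith
      have h4 : 0 ≤ (N : ℝ) - E - t := by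
        have h5 : (t : ℝ) < ((N - E : ℕ) : ℝ) := by exact_mod_cast ht
        rw [Nat.cast_sub hE] at h5
        linarith
      have h5 : (((N - E).choose (t + 1) : ℕ) : ℝ) * (t + 1) ≤
          ((1 - (E : ℝ) / N) ^ (t + 1) * (N.choose (t + 1) : ℝ)) * (t + 1) := by
        rw [h1, mul_assoc, h2]
        calc ((N - E).choose t : ℝ) * ((N : ℝ) - E - t)
            ≤ ((1 - (E : ℝ) / N) ^ t * (N.choose t : ℝ)) * ((1 - (E : ℝ) / N) * ((N : ℝ) - t)) :=
              mul_le_mul ih h3 h4 (by positivity)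
          _ = _ := by ring
      exact le_of_mul_le_mul_right h5 (by positivity)
    · rw [Nat.choose_eq_zero_of_lt (by omega), Nat.cast_zero]
      positivity

/-- Proof.  `(N-E).choose t / N.choose t = ∏ i < t, (N-E-i)/(N-i) ≤ (1-E/N)^t ≤ exp(-E t/N)`
(induction on `t`, or `Nat.choose` recursions); `t ≤ N`. -/
theorem choose_sub (N E t : ℕ) (hE : E ≤ N) (hN : 0 < N) :
    ((N - E).choose t : ℝ) ≤ Real.exp (-((E : ℝ) * t / N)) * (N.choose t : ℝ) := by
  refine (RH6_pow N E t hE hN).trans ?_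
  have hN' : (0 : ℝ) < N := by exact_mod_cast hN
  have hE' : (E : ℝ) ≤ N := by exact_mod_cast hE
  have hq : 0 ≤ 1 - (E : ℝ) / N := by
    rw [sub_nonneg, div_le_one hN']
    exact hE'
  refine mul_le_mul_of_nonneg_right ?_ (Nat.cast_nonneg _)
  have h1 : (1 - (E : ℝ) / N) ^ t ≤ Real.exp (-((E : ℝ) / N)) ^ t :=
    pow_le_pow_left₀ hq (Real.one_sub_le_exp_neg _) t
  refine h1.trans (le_of_eq ?_)
  rw [← Real.exp_nat_mul]
  congr 1
  ring

/-- Proof.  Induction on `j`: `N * N.choose (t - 1) ≤ 2 t N.choose t` for `1 ≤ t ≤ r` because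
`t * N.choose t = (N - t + 1) * N.choose (t - 1)` and `2 (N - t + 1) ≥ N`. -/
theorem choose_drop (N r j : ℕ) (hj : j ≤ r) (hr : 2 * r ≤ N) :
    (N : ℝ) ^ j * (N.choose (r - j) : ℝ) ≤ (2 * r) ^ j * (N.choose r : ℝ) := by
  induction j with
  | zero => simp
  | succ j ih =>
    have h0 := ih (by omega)
    obtain ⟨t, ht⟩ : ∃ t, r - j = t + 1 := ⟨r - j - 1, by omega⟩
    have ht' : r - (j + 1) = t := by omega
    rw [ht] at h0
    rw [ht']
    have h1 : (N.choose (t + 1) : ℝ) * (t + 1) = (N.choose t : ℝ) * ((N : ℝ) - t) := by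
      have h2 := Nat.choose_succ_right_eq N t
      have h3 : ((N - t : ℕ) : ℝ) = (N : ℝ) - t := by
        rw [Nat.cast_sub (by omega)]
      rw [← h3]
      exact_mod_cast h2
    have htr : (t : ℝ) + 1 ≤ r := by
      have : t + 1 ≤ r := by omega
      exact_mod_cast this
    have hrN : 2 * (r : ℝ) ≤ N := by exact_mod_cast hr
    have h2 : (N : ℝ) * (N.choose t : ℝ) ≤ 2 * r * (N.choose (t + 1) : ℝ) := by
      have h3 : (N : ℝ) * (N.choose t : ℝ) ≤ 2 * (((N : ℝ) - t) * (N.choose t : ℝ)) := by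
        have h4 : (N : ℝ) ≤ 2 * ((N : ℝ) - t) := by linarith
        calc (N : ℝ) * (N.choose t : ℝ) ≤ 2 * ((N : ℝ) - t) * (N.choose t : ℝ) :=
              mul_le_mul_of_nonneg_right h4 (Nat.cast_nonneg _)
          _ = _ := by ring
      refine h3.trans ?_
      have h4 : ((N : ℝ) - t) * (N.choose t : ℝ) = (N.choose (t + 1) : ℝ) * (t + 1) := by
        rw [h1]
        ring
      rw [h4]
      have h5 : (N.choose (t + 1) : ℝ) * (t + 1) ≤ (N.choose (t + 1) : ℝ) * r :=
        mul_le_mul_of_nonneg_left htr (Nat.cast_nonneg _)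
      linarith
    calc (N : ℝ) ^ (j + 1) * (N.choose t : ℝ) = (N : ℝ) ^ j * ((N : ℝ) * (N.choose t : ℝ)) := by
          ring
      _ ≤ (N : ℝ) ^ j * (2 * r * (N.choose (t + 1) : ℝ)) :=
          mul_le_mul_of_nonneg_left h2 (by positivity)
      _ = 2 * r * ((N : ℝ) ^ j * (N.choose (t + 1) : ℝ)) := by ring
      _ ≤ 2 * r * ((2 * r) ^ j * (N.choose r : ℝ)) :=
          mul_le_mul_of_nonneg_left h0 (by positivity)
      _ = _ := by ring

private theorem RH6_max (Q : Finset ℕ → Prop) (h0 : Q ∅) (W : Finset ℕ) :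
    ∃ D ⊆ W, Q D ∧ ∀ D' ⊆ W, Q D' → D'.card ≤ D.card := by
  classical
  obtain ⟨D, hD, hmax⟩ := exists_max_image (W.powerset.filter Q) Finset.card
    ⟨∅, mem_filter.2 ⟨mem_powerset.2 (empty_subset _), h0⟩⟩
  rw [mem_filter, mem_powerset] at hD
  exact ⟨D, hD.1, hD.2, fun D' h1 h2 => hmax D' (mem_filter.2 ⟨mem_powerset.2 h1, h2⟩)⟩

open Classical in
/-- Proof.  Let `R` be an `r`-element subset of `{1, ..., N}` such that all the subsets `A` of `R`
that are cliques (`rel a b` for all `a, b ∈ A`) have at most `J` elements.  Take a clique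
`D ⊆ R ∩ V` of maximal cardinality, `j = |D| ≤ J`, and let `X = {n ∈ V : rel n n, rel n d for all
d ∈ D}`.  Then `D ⊆ X` and `R ∩ X ⊆ D` (for `n ∈ R ∩ X`, `n ∉ D`, the set `insert n D` would be a
larger clique in `R ∩ V`).  So `R \ D` is an `(r-j)`-element subset of `{1, ..., N} \ X`, and
`R = D ∪ (R \ D)`.  For a given `D` there are at most `(N - |X|).choose (r-j) ≤
(N-E).choose (r-j) ≤ exp(-E (r-j)/N) N.choose (r-j)` such `R` (`choose_sub`), there are at most
`N.choose j ≤ N ^ j` sets `D` with `j` elements, and `N ^ j N.choose (r-j) ≤ (2 r) ^ j N.choose r`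
(`choose_drop`).  Sum over `j = 0, ..., J`, `(2 r) ^ j ≤ (2 r) ^ J`, `r - j ≥ r - J`. -/
theorem host_lower (N r J E : ℕ) (rel : ℕ → ℕ → Prop) (hsymm : ∀ a b, rel a b → rel b a)
    (V : Finset ℕ) (hV : V ⊆ Icc 1 N) (hr : 2 * r ≤ N) (hJ : J ≤ r) (hr1 : 1 ≤ r)
    (hE : ∀ D : Finset ℕ, D ⊆ V → D.card ≤ J → (∀ a ∈ D, ∀ b ∈ D, rel a b) →
      E ≤ (V.filter (fun n => rel n n ∧ ∀ d ∈ D, rel n d)).card) :
    ((((Icc 1 N).powersetCard r).filter (fun R => ∀ A : Finset ℕ, A ⊆ R →
      (∀ a ∈ A, ∀ b ∈ A, rel a b) → A.card ≤ J)).card : ℝ)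
      ≤ (J + 1) * (2 * r) ^ J * Real.exp (-((E : ℝ) * (r - J) / N)) * (N.choose r : ℝ) := by
  have hN : 0 < N := by omega
  have hN' : (0 : ℝ) < N := by exact_mod_cast hN
  have hVN : V.card ≤ N := by
    have := card_le_card hV
    rwa [Nat.card_Icc, Nat.add_sub_cancel] at this
  have hEN : E ≤ N := by
    have h1 := hE ∅ (empty_subset _) (by simp) (by simp)
    exact h1.trans ((card_filter_le _ _).trans hVN)
  let X : Finset ℕ → Finset ℕ := fun D => V.filter fun n => rel n n ∧ ∀ d ∈ D, rel n d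
  have hXN : ∀ D, X D ⊆ Icc 1 N := fun D => (filter_subset _ _).trans hV
  let S : ℕ → Finset (Finset ℕ) := fun j =>
    (V.powersetCard j).filter fun D => ∀ a ∈ D, ∀ b ∈ D, rel a b
  let U : Finset (Finset ℕ) := (range (J + 1)).biUnion fun j => (S j).biUnion fun D =>
    ((Icc 1 N \ X D).powersetCard (r - j)).image fun T => D ∪ T
  have hsub : ((Icc 1 N).powersetCard r).filter (fun R => ∀ A : Finset ℕ, A ⊆ R →
      (∀ a ∈ A, ∀ b ∈ A, rel a b) → A.card ≤ J) ⊆ U := by
    intro R hR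
    rw [mem_filter, mem_powersetCard] at hR
    obtain ⟨⟨hRN, hRr⟩, hRA⟩ := hR
    obtain ⟨D, hD1, hD2, hmax⟩ := RH6_max (fun D => ∀ a ∈ D, ∀ b ∈ D, rel a b)
      (fun a ha => absurd ha (notMem_empty a)) (R ∩ V)
    have hD : D ⊆ R ∩ V ∧ ∀ a ∈ D, ∀ b ∈ D, rel a b := ⟨hD1, hD2⟩
    have hDR : D ⊆ R := hD.1.trans inter_subset_left
    have hDV : D ⊆ V := hD.1.trans inter_subset_right
    have hDJ : D.card ≤ J := hRA D hDR hD.2
    have hRX : ∀ n ∈ R, n ∈ X D → n ∈ D := by
      intro n hn hnX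
      by_contra hnD
      rw [mem_filter] at hnX
      have h1 : ∀ a ∈ insert n D, ∀ b ∈ insert n D, rel a b := by
        intro a ha b hb
        rw [mem_insert] at ha hb
        rcases ha with rfl | ha
        · rcases hb with rfl | hb
          · exact hnX.2.1
          · exact hnX.2.2 b hb
        · rcases hb with rfl | hb
          · exact hsymm _ _ (hnX.2.2 a ha)
          · exact hD.2 a ha b hb
      have h2 := hmax _ (insert_subset (mem_inter.2 ⟨hn, hnX.1⟩) hD.1) h1
      rw [card_insert_of_notMem hnD] at h2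
      omega
    refine mem_biUnion.2 ⟨D.card, mem_range.2 (by omega), mem_biUnion.2 ⟨D, ?_, ?_⟩⟩
    · exact mem_filter.2 ⟨mem_powersetCard.2 ⟨hDV, rfl⟩, hD.2⟩
    · refine mem_image.2 ⟨R \ D, mem_powersetCard.2 ⟨?_, ?_⟩, ?_⟩
      · intro n hn
        rw [mem_sdiff] at hn ⊢
        exact ⟨hRN hn.1, fun h => hn.2 (hRX n hn.1 h)⟩
      · rw [card_sdiff_of_subset hDR, hRr]
      · exact union_sdiff_of_subset hDR
  have hcard : (((((Icc 1 N).powersetCard r).filter (fun R => ∀ A : Finset ℕ, A ⊆ R →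
      (∀ a ∈ A, ∀ b ∈ A, rel a b) → A.card ≤ J)).card : ℕ) : ℝ) ≤
      ∑ j ∈ range (J + 1), (N.choose j : ℝ) * ((N - E).choose (r - j) : ℝ) := by
    have h1 := card_le_card hsub
    have h2 : U.card ≤ ∑ j ∈ range (J + 1), N.choose j * (N - E).choose (r - j) := by
      refine card_biUnion_le.trans (sum_le_sum fun j hj => ?_)
      refine card_biUnion_le.trans ?_
      rw [mem_range] at hj
      have h3 : ∀ D ∈ S j, (((Icc 1 N \ X D).powersetCard (r - j)).image fun T => D ∪ T).card ≤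
          (N - E).choose (r - j) := by
        intro D hD
        rw [mem_filter, mem_powersetCard] at hD
        refine card_image_le.trans ?_
        rw [card_powersetCard, card_sdiff_of_subset (hXN D), Nat.card_Icc, Nat.add_sub_cancel]
        have h4 := hE D hD.1.1 (by omega) hD.2
        exact Nat.choose_le_choose _ (Nat.sub_le_sub_left h4 N)
      refine (sum_le_sum h3).trans ?_
      rw [sum_const, smul_eq_mul]
      refine Nat.mul_le_mul_right _ ?_
      refine (card_filter_le _ _).trans ?_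
      rw [card_powersetCard]
      exact Nat.choose_le_choose _ hVN
    exact_mod_cast h1.trans h2
  refine hcard.trans ?_
  have hterm : ∀ j ∈ range (J + 1), (N.choose j : ℝ) * ((N - E).choose (r - j) : ℝ) ≤
      (2 * r) ^ J * Real.exp (-((E : ℝ) * (r - J) / N)) * (N.choose r : ℝ) := by
    intro j hj
    have hjJ : j ≤ J := Nat.lt_succ_iff.1 (mem_range.1 hj)
    have h1 : (N.choose j : ℝ) ≤ (N : ℝ) ^ j := by exact_mod_cast Nat.choose_le_pow N j
    have h2 := choose_sub N E (r - j) hEN hN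
    have h3 := choose_drop N r j (hjJ.trans hJ) hr
    have h4 : Real.exp (-((E : ℝ) * ((r - j : ℕ) : ℝ) / N)) ≤
        Real.exp (-((E : ℝ) * (r - J) / N)) := by
      apply Real.exp_le_exp.2
      apply neg_le_neg
      apply div_le_div_of_nonneg_right _ hN'.le
      apply mul_le_mul_of_nonneg_left _ (Nat.cast_nonneg _)
      rw [Nat.cast_sub (hjJ.trans hJ)]
      have : (j : ℝ) ≤ J := by exact_mod_cast hjJ
      linarith
    have h5 : (1 : ℝ) ≤ 2 * r := by
      have : (1 : ℝ) ≤ r := by exact_mod_cast hr1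
      linarith
    have h6 : (2 * (r : ℝ)) ^ j ≤ (2 * r) ^ J := pow_le_pow_right₀ h5 hjJ
    calc (N.choose j : ℝ) * ((N - E).choose (r - j) : ℝ)
        ≤ (N : ℝ) ^ j * (Real.exp (-((E : ℝ) * ((r - j : ℕ) : ℝ) / N)) *
            (N.choose (r - j) : ℝ)) :=
          mul_le_mul h1 h2 (Nat.cast_nonneg _) (by positivity)
      _ = Real.exp (-((E : ℝ) * ((r - j : ℕ) : ℝ) / N)) *
            ((N : ℝ) ^ j * (N.choose (r - j) : ℝ)) := by ring
      _ ≤ Real.exp (-((E : ℝ) * (r - J) / N)) * ((2 * r) ^ J * (N.choose r : ℝ)) := by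
          refine mul_le_mul h4 (h3.trans ?_) (by positivity) (Real.exp_pos _).le
          exact mul_le_mul_of_nonneg_right h6 (Nat.cast_nonneg _)
      _ = _ := by ring
  refine (sum_le_sum hterm).trans (le_of_eq ?_)
  rw [sum_const, card_range, nsmul_eq_mul]
  push_cast
  ring

end Pool.Agent.Helper24.RH
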