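import Mathlib
import Pool.Agent.Helper24.RH.Def
import Pool.Agent.Helper24.FP.Block
import Pool.Agent.Helper94.SF.Local

/-!
# Project RH (MP_d5570f_nt), piece RH-7: the robust container bound
-/

set_option linter.unusedSectionVars false

open Finset Pool.Agent.Helper94.SF

namespace Pool.Agent.Helper24.RH

private theorem rh7_gam {m : ℕ} (hm : 0 < m) {D : Finset ℕ} (hD : D.Nonempty)
    (h : 2 * ncl m D ≤ m) : 1 ≤ gam m D := by
  unfold gam
  rw [Real.one_le_sqrt]
  have h1 : (0 : ℝ) < ncl m D := by exact_mod_cast ncl_pos m D hD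
  have h2 : 2 * (ncl m D : ℝ) ≤ m := by exact_mod_cast h
  rw [le_div_iff₀ h1]
  linarith

private theorem rh7_good {m : ℕ} (hm : 0 < m) {D : Finset ℕ} (hD : D.Nonempty)
    (h : 2 * ncl m D ≤ m) (n : ℕ) :
    (n % m ∉ D.image (fun d => d % m) → (-1 : ℝ) ≤ tst m D (n : ZMod m)) ∧
      (n % m ∈ D.image (fun d => d % m) → (1 : ℝ) ≤ tst m D (n : ZMod m)) := by
  classical
  have h1 := rh7_gam hm hD h
  have h2 : (n : ZMod m) ∈ D.image (Nat.cast : ℕ → ZMod m) ↔ n % m ∈ D.image (fun d => d % m) := by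
    rw [Finset.mem_image, Finset.mem_image]
    refine exists_congr fun d => and_congr_right fun _ => ?_
    rw [ZMod.natCast_eq_natCast_iff']
  unfold tst
  refine ⟨fun h3 => ?_, fun h3 => ?_⟩
  · rw [if_neg (fun h4 => h3 (h2.1 h4))]
    exact neg_le_neg (inv_le_one_of_one_le₀ h1)
  · rw [if_pos (h2.2 h3)]
    exact h1

private theorem rh7_block (N y h b q : ℕ) (hy : 1 ≤ y) (hN : 0 < N) (hsz : y ^ (4 * h) ≤ 8 * N)
    (U : Finset ℕ) (hU : ∀ p ∈ U, p.Prime ∧ p ≤ y) (hq : q.Prime) (hqN : 8 * N + y < q)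
    (D : Finset ℕ) (hD : D.Nonempty) (hhalf : ∀ p ∈ U, 2 * ncl (p ^ 2) D ≤ p ^ 2)
    (e : Fin (2 * h) × Fin b → ℕ) (he : Function.Injective e) (heU : ∀ x, e x ∈ U)
    (J : Finset (Fin (2 * h))) (hJ : J.card = h) :
    ∑ n ∈ Icc 1 N, (∏ j ∈ J, ∑ t : Fin b,
      tst (e (j, t) ^ 2) D (n : ZMod (e (j, t) ^ 2))) ^ 2 ≤ 32 * N * (b : ℝ) ^ h := by
  classical
  have hprime : ∀ i : {x // x ∈ insert q U}, (i : ℕ).Prime := by
    rintro ⟨i, hi⟩
    rcases Finset.mem_insert.1 hi with h1 | h1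
    · show Nat.Prime i
      rw [h1]
      exact hq
    · exact (hU i h1).1
  have hne : ∀ i : {x // x ∈ insert q U}, NeZero ((i : ℕ) ^ 2) := fun i =>
    ⟨pow_ne_zero _ (hprime i).ne_zero⟩
  have hqU : q ∉ U := by
    intro h1
    have := (hU q h1).2
    omega
  have hmU : ∀ i : {x // x ∈ insert q U}, (i : ℕ) ≠ q → (i : ℕ) ∈ U := by
    rintro ⟨i, hi⟩ h1
    rcases Finset.mem_insert.1 hi with h2 | h2
    · exact absurd h2 h1
    · exact h2
  have hlt : ∀ p ∈ U, ncl (p ^ 2) D < p ^ 2 := by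
    intro p hp
    have h1 := hhalf p hp
    have h2 : 0 < p ^ 2 := pow_pos (hU p hp).1.pos 2
    omega
  let m : {x // x ∈ insert q U} → ℕ := fun i => (i : ℕ) ^ 2
  have : ∀ i, NeZero (m i) := hne
  let F : ∀ i : {x // x ∈ insert q U}, ZMod (m i) → ℝ := fun i y =>
    if (i : ℕ) = q then 0 else tst ((i : ℕ) ^ 2) D y
  let B : J → Finset {x // x ∈ insert q U} := fun j =>
    Finset.univ.image (fun t : Fin b => ⟨e (j, t), Finset.mem_insert_of_mem (heU _)⟩)
  have hinj : ∀ j : J, Function.Injective (fun t : Fin b =>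
      (⟨e (j, t), Finset.mem_insert_of_mem (heU _)⟩ : {x // x ∈ insert q U})) := by
    intro j t t' htt
    have h1 := he (Subtype.ext_iff.1 htt)
    exact (Prod.ext_iff.1 h1).2
  have hBcard : ∀ j, (B j).card = b := by
    intro j
    rw [Finset.card_image_of_injective _ (hinj j), Finset.card_univ, Fintype.card_fin]
  have hM : 8 * N ≤ ∏ i, m i := by
    have h1 : m ⟨q, Finset.mem_insert_self q U⟩ ≤ ∏ i, m i := by
      apply Finset.single_le_prod' (f := m) (fun i _ => ?_) (Finset.mem_univ _)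
      exact Nat.one_le_iff_ne_zero.2 (hne i).ne
    have h2 : m ⟨q, Finset.mem_insert_self q U⟩ = q ^ 2 := rfl
    rw [h2] at h1
    have h3 : q ≤ q ^ 2 := Nat.le_self_pow (by norm_num) q
    omega
  have key := Pool.Agent.Helper24.FP.block_moment (ι := {x // x ∈ insert q U}) (κ := J) m F
    (fun i => (i : ℕ)) (fun i => rfl) hprime Subtype.val_injective ?_ ?_ y N hy hN hM B ?_ ?_ ?_
  · have e1 : ∏ j, ((B j).card : ℝ) = (b : ℝ) ^ h := by
      simp only [hBcard]
      rw [Finset.prod_const, Finset.card_univ, Fintype.card_coe, hJ]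
    rw [e1] at key
    refine le_trans (le_of_eq ?_) key
    refine Finset.sum_congr rfl fun n _ => ?_
    congr 1
    rw [← Finset.prod_coe_sort J (fun j => ∑ t : Fin b,
      tst (e (j, t) ^ 2) D (n : ZMod (e (j, t) ^ 2)))]
    refine Finset.prod_congr rfl fun j _ => ?_
    rw [Finset.sum_image (fun a _ c _ hac => hinj j hac)]
    refine Finset.sum_congr rfl fun t _ => ?_
    have h2 : e ((j : Fin (2 * h)), t) ≠ q := by
      intro h3
      exact hqU (h3 ▸ heU _)
    change _ = if e ((j : Fin (2 * h)), t) = q then (0 : ℝ) else _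
    rw [if_neg h2]
  · intro i
    by_cases h1 : (i : ℕ) = q
    · change ∑ y : ZMod ((i : ℕ) ^ 2), (if (i : ℕ) = q then (0 : ℝ) else _) = 0
      simp only [if_pos h1, Finset.sum_const_zero]
    · change ∑ y : ZMod ((i : ℕ) ^ 2), (if (i : ℕ) = q then (0 : ℝ) else _) = 0
      simp only [if_neg h1]
      exact sum_tst _ D hD (hlt _ (hmU i h1))
  · intro i
    by_cases h1 : (i : ℕ) = q
    · change ∑ y : ZMod ((i : ℕ) ^ 2), (if (i : ℕ) = q then (0 : ℝ) else _) ^ 2 ≤ _
      simp only [if_pos h1]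
      rw [Finset.sum_eq_zero fun _ _ => by norm_num]
      exact Nat.cast_nonneg _
    · change ∑ y : ZMod ((i : ℕ) ^ 2), (if (i : ℕ) = q then (0 : ℝ) else _) ^ 2 ≤ _
      simp only [if_neg h1]
      exact sum_tst_sq _ D hD (hlt _ (hmU i h1))
  · intro j j' hjj
    rw [Finset.disjoint_left]
    intro x hx hx'
    obtain ⟨t, _, ht⟩ := Finset.mem_image.1 hx
    obtain ⟨t', _, ht'⟩ := Finset.mem_image.1 hx'
    rw [← ht'] at ht
    have h1 := he (Subtype.ext_iff.1 ht)
    exact hjj (Subtype.ext (Prod.ext_iff.1 h1).1)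
  · intro j i hi
    obtain ⟨t, _, ht⟩ := Finset.mem_image.1 hi
    rw [← ht]
    exact (hU _ (heU _)).2
  · rw [Fintype.card_coe, hJ]
    exact hsz

/-- Proof.  Choose `2 h` disjoint blocks `B j` (`j : Fin (2 * h)`) of `b` primes of `U` each (an
injection `Fin (2 * h) × Fin b → U`, e.g. from `2 * h * b ≤ U.card`).  Let `F_p = tst (p ^ 2) D`
(Helper94.SF.Local: `sum_tst`, `sum_tst_sq`, `tst_mem`, `gam`): mean `0`, `∑ F_p ^ 2 = p ^ 2`,
equal to `gam ≥ 1` on the classes of `D` (`gam ^ 2 = (p ^ 2 - ncl) / ncl ≥ 1` by `hhalf`) and to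
`- 1 / gam ≥ -1` on the others.  For `n ∈ Kn N U (h * b) D` let `bad j` be the number of the
`p ∈ B j` with `n % p ^ 2` not a class of `D`: `4 ∑ bad j ≤ h b`, so the number of `j` with
`4 bad j > b` is less than `h` if `h ≥ 1` (each contributes more than `b / 4` to a sum of at most
`h b / 4`), hence at least `h` of the `2 h` blocks have `4 bad j ≤ b` and then
`∑ p ∈ B j, F_p n ≥ (b - bad j) - bad j ≥ b / 2`.  So for some `J : Finset (Fin (2 * h))` with
`h` elements `∏ j ∈ J, (∑ p ∈ B j, F_p n) ^ 2 ≥ (b / 2) ^ (2 h)`, and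

`|Kn| (b / 2) ^ (2 h) ≤ ∑ J, ∑ n ≤ N, ∏ j ∈ J, (∑ p ∈ B j, F_p n) ^ 2
≤ (2 h).choose h * 32 N b ^ h ≤ 4 ^ h * 32 N b ^ h`

by `FP.block_moment` with `κ = J` (a subtype, `Fintype.card κ = h`), `ι` = the subtype of the
finite set of primes `insert q U`, `q` a prime `> 8 N + y` (`Nat.exists_infinite_primes`), so that
`8 N ≤ ∏ m i`; `m i = i ^ 2`, `F` for `q` is `0` (or any function), blocks as subsets of the
subtype.  (`(2 h).choose h ≤ 4 ^ h`: `Nat.choose_le_two_pow` or `Nat.centralBinom`.)  So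
`|Kn| b ^ (2 h) ≤ 32 N 16 ^ h b ^ h`; cancel `b ^ h` (`b = 0`: trivial for `h ≥ 1`; for `h = 0`
the claim is `|Kn| ≤ 32 N`). -/
theorem container_bound (N y h b : ℕ) (hy : 1 ≤ y) (hN : 0 < N) (hsz : y ^ (4 * h) ≤ 8 * N)
    (U : Finset ℕ) (hU : ∀ p ∈ U, p.Prime ∧ p ≤ y) (hcard : 2 * h * b ≤ U.card)
    (D : Finset ℕ) (hD : D.Nonempty) (hhalf : ∀ p ∈ U, 2 * ncl (p ^ 2) D ≤ p ^ 2) :
    (Kn N U (h * b) D).card * b ^ h ≤ 32 * 16 ^ h * N := by
  classical
  have hKN : (Kn N U (h * b) D).card ≤ N := by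
    unfold Kn
    refine (Finset.card_filter_le _ _).trans ?_
    rw [Nat.card_Icc]
    omega
  rcases Nat.eq_zero_or_pos h with rfl | hh
  · simp only [pow_zero, mul_one]
    omega
  rcases Nat.eq_zero_or_pos b with rfl | hb
  · rw [zero_pow (by omega), mul_zero]
    exact Nat.zero_le _
  obtain ⟨q, hqge, hq⟩ := Nat.exists_infinite_primes (8 * N + y + 1)
  have hqN : 8 * N + y < q := by omega
  obtain ⟨e, he, heU⟩ : ∃ e : Fin (2 * h) × Fin b → ℕ, Function.Injective e ∧ ∀ x, e x ∈ U := by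
    have hc : Fintype.card (Fin (2 * h) × Fin b) ≤ Fintype.card U := by
      rw [Fintype.card_prod, Fintype.card_fin, Fintype.card_fin, Fintype.card_coe]
      exact hcard
    obtain ⟨f⟩ := Function.Embedding.nonempty_of_card_le hc
    exact ⟨fun x => (f x : ℕ), fun x x' hx => f.injective (Subtype.ext hx), fun x => (f x).2⟩
  obtain ⟨G, hG⟩ : ∃ G : Fin (2 * h) → ℕ → ℝ, G = fun j n => ∑ t : Fin b,
      tst (e (j, t) ^ 2) D (n : ZMod (e (j, t) ^ 2)) := ⟨_, rfl⟩
  have hblock : ∀ J ∈ Finset.powersetCard h (Finset.univ : Finset (Fin (2 * h))),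
      ∑ n ∈ Icc 1 N, (∏ j ∈ J, G j n) ^ 2 ≤ 32 * N * (b : ℝ) ^ h := by
    intro J hJ
    rw [hG]
    exact rh7_block N y h b q hy hN hsz U hU hq hqN D hD hhalf e he heU J
      (Finset.mem_powersetCard.1 hJ).2
  have hlow : ∀ n ∈ Kn N U (h * b) D, ((b : ℝ) / 2) ^ (2 * h) ≤
      ∑ J ∈ Finset.powersetCard h (Finset.univ : Finset (Fin (2 * h))),
        (∏ j ∈ J, G j n) ^ 2 := by
    intro n hn
    obtain ⟨P, hP⟩ : ∃ P : ℕ → Prop, P = fun p => n % p ^ 2 ∉ D.image (fun d => d % p ^ 2) :=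
      ⟨_, rfl⟩
    have hn2 : 4 * (U.filter P).card ≤ h * b := by
      rw [hP]
      convert (Finset.mem_filter.1 hn).2
    obtain ⟨bad, hbad⟩ : ∃ bad : Fin (2 * h) → ℕ,
        bad = fun j => (Finset.univ.filter (fun t : Fin b => P (e (j, t)))).card := ⟨_, rfl⟩
    have hsum : ∑ j, bad j ≤ (U.filter P).card := by
      have h1 : ∑ j, bad j =
          ((Finset.univ : Finset (Fin (2 * h) × Fin b)).filter (fun x => P (e x))).card := by
        rw [hbad, Finset.card_filter, ← Finset.univ_product_univ, Finset.sum_product]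
        refine Finset.sum_congr rfl fun j _ => ?_
        exact Finset.card_filter _ _
      rw [h1]
      refine Finset.card_le_card_of_injOn e ?_ he.injOn
      intro x hx
      rw [Finset.mem_coe, Finset.mem_filter] at hx
      rw [Finset.mem_coe, Finset.mem_filter]
      exact ⟨heU x, hx.2⟩
    obtain ⟨X, hX⟩ : ∃ X : Finset (Fin (2 * h)),
        X = Finset.univ.filter (fun j => b < 4 * bad j) := ⟨_, rfl⟩
    have hXc : X.card < h := by
      have h1 : X.card * (b + 1) ≤ ∑ j ∈ X, 4 * bad j := by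
        rw [← smul_eq_mul]
        refine Finset.card_nsmul_le_sum X _ _ fun j hj => ?_
        rw [hX] at hj
        have := (Finset.mem_filter.1 hj).2
        omega
      have h2 : ∑ j ∈ X, 4 * bad j ≤ ∑ j, 4 * bad j :=
        Finset.sum_le_sum_of_subset (Finset.subset_univ X)
      have h3 : ∑ j, 4 * bad j = 4 * ∑ j, bad j := by rw [Finset.mul_sum]
      have h4 : X.card * (b + 1) ≤ h * b := by omega
      by_contra h5
      push Not at h5
      have h6 : h * (b + 1) ≤ X.card * (b + 1) := Nat.mul_le_mul_right _ h5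
      have h7 : h * (b + 1) = h * b + h := by ring
      omega
    have hXcc : h ≤ (Xᶜ).card := by
      rw [Finset.card_compl, Fintype.card_fin]
      omega
    obtain ⟨J, hJX, hJc⟩ := Finset.exists_subset_card_eq hXcc
    have hJmem : J ∈ Finset.powersetCard h (Finset.univ : Finset (Fin (2 * h))) :=
      Finset.mem_powersetCard.2 ⟨Finset.subset_univ J, hJc⟩
    refine le_trans ?_ (Finset.single_le_sum (f := fun J : Finset (Fin (2 * h)) =>
      (∏ j ∈ J, G j n) ^ 2) (fun _ _ => sq_nonneg _) hJmem)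
    have hGj : ∀ j ∈ J, (b : ℝ) / 2 ≤ G j n := by
      intro j hj
      have h1 : 4 * bad j ≤ b := by
        have h2 := hJX hj
        rw [Finset.mem_compl, hX, Finset.mem_filter] at h2
        by_contra h3
        exact h2 ⟨Finset.mem_univ _, by omega⟩
      have h2 : ∑ t : Fin b, (if P (e (j, t)) then (-1 : ℝ) else 1) ≤ G j n := by
        rw [hG]
        refine Finset.sum_le_sum fun t _ => ?_
        obtain ⟨g1, g2⟩ := rh7_good (pow_pos (hU _ (heU (j, t))).1.pos 2) hD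
          (hhalf _ (heU (j, t))) n
        by_cases h6 : P (e (j, t))
        · rw [if_pos h6]
          rw [hP] at h6
          exact g1 h6
        · rw [if_neg h6]
          rw [hP] at h6
          exact g2 (not_not.1 h6)
      have h3 : ∑ t : Fin b, (if P (e (j, t)) then (-1 : ℝ) else 1) = (b : ℝ) - 2 * (bad j : ℝ) := by
        have h4 : ∀ t : Fin b, (if P (e (j, t)) then (-1 : ℝ) else 1) =
            1 - 2 * (if P (e (j, t)) then (1 : ℝ) else 0) := by
          intro t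
          split_ifs <;> norm_num
        rw [Finset.sum_congr rfl fun t _ => h4 t, Finset.sum_sub_distrib, ← Finset.mul_sum,
          Finset.sum_const, Finset.card_univ, Fintype.card_fin, nsmul_eq_mul, mul_one]
        have h5 : bad j = ∑ t : Fin b, if P (e (j, t)) then 1 else 0 := by
          rw [hbad]
          exact Finset.card_filter _ _
        rw [h5]
        push_cast
        rfl
      have h5 : 4 * (bad j : ℝ) ≤ (b : ℝ) := by exact_mod_cast h1
      linarith
    have hb2 : (0 : ℝ) ≤ (b : ℝ) / 2 := by positivity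
    have h1 : ((b : ℝ) / 2) ^ h ≤ ∏ j ∈ J, G j n := by
      have h0 : ((b : ℝ) / 2) ^ h = ∏ _j ∈ J, ((b : ℝ) / 2) := by
        rw [Finset.prod_const, hJc]
      rw [h0]
      exact Finset.prod_le_prod (fun _ _ => hb2) hGj
    have h2 : ((b : ℝ) / 2) ^ (2 * h) = (((b : ℝ) / 2) ^ h) ^ 2 := by rw [← pow_mul, mul_comm]
    rw [h2]
    exact pow_le_pow_left₀ (pow_nonneg hb2 _) h1 2
  have h1 : ((Kn N U (h * b) D).card : ℝ) * ((b : ℝ) / 2) ^ (2 * h) ≤
      ((4 : ℝ) ^ h) * (32 * N * (b : ℝ) ^ h) := by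
    have h2 : ((Kn N U (h * b) D).card : ℝ) * ((b : ℝ) / 2) ^ (2 * h) ≤
        ∑ n ∈ Kn N U (h * b) D,
          ∑ J ∈ Finset.powersetCard h (Finset.univ : Finset (Fin (2 * h))),
            (∏ j ∈ J, G j n) ^ 2 := by
      rw [← nsmul_eq_mul]
      exact Finset.card_nsmul_le_sum _ _ _ hlow
    have h3 : ∑ n ∈ Kn N U (h * b) D,
          ∑ J ∈ Finset.powersetCard h (Finset.univ : Finset (Fin (2 * h))),
            (∏ j ∈ J, G j n) ^ 2 ≤
        ∑ n ∈ Icc 1 N,
          ∑ J ∈ Finset.powersetCard h (Finset.univ : Finset (Fin (2 * h))),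
            (∏ j ∈ J, G j n) ^ 2 :=
      Finset.sum_le_sum_of_subset_of_nonneg (Finset.filter_subset _ _)
        (fun _ _ _ => Finset.sum_nonneg fun _ _ => sq_nonneg _)
    have h3' : ∑ n ∈ Icc 1 N,
          ∑ J ∈ Finset.powersetCard h (Finset.univ : Finset (Fin (2 * h))),
            (∏ j ∈ J, G j n) ^ 2 = ∑ J ∈ Finset.powersetCard h (Finset.univ : Finset (Fin (2 * h))),
          ∑ n ∈ Icc 1 N, (∏ j ∈ J, G j n) ^ 2 := Finset.sum_comm
    rw [h3'] at h3
    have h4 := Finset.sum_le_sum hblock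
    have h5 : ∑ _J ∈ Finset.powersetCard h (Finset.univ : Finset (Fin (2 * h))),
        32 * (N : ℝ) * (b : ℝ) ^ h = (((2 * h).choose h : ℕ) : ℝ) * (32 * N * (b : ℝ) ^ h) := by
      rw [Finset.sum_const, Finset.card_powersetCard, Finset.card_univ, Fintype.card_fin,
        nsmul_eq_mul]
    have h6 : (((2 * h).choose h : ℕ) : ℝ) ≤ (4 : ℝ) ^ h := by
      have h7 : (2 * h).choose h ≤ 2 ^ (2 * h) := Nat.choose_le_two_pow _ _
      have h8 : (2 : ℕ) ^ (2 * h) = 4 ^ h := by rw [pow_mul]; norm_num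
      rw [h8] at h7
      exact_mod_cast h7
    have h9 : (((2 * h).choose h : ℕ) : ℝ) * (32 * N * (b : ℝ) ^ h) ≤
        (4 : ℝ) ^ h * (32 * N * (b : ℝ) ^ h) :=
      mul_le_mul_of_nonneg_right h6 (by positivity)
    calc _ ≤ _ := h2
      _ ≤ _ := h3
      _ ≤ _ := h4
      _ = _ := h5
      _ ≤ _ := h9
  have hb0 : (0 : ℝ) < (b : ℝ) ^ h := by positivity
  have h2 : ((b : ℝ) / 2) ^ (2 * h) = (b : ℝ) ^ h * (b : ℝ) ^ h / 4 ^ h := by
    rw [div_pow, pow_mul, pow_mul, ← mul_pow]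
    norm_num [sq]
  rw [h2] at h1
  have h3 : ((Kn N U (h * b) D).card : ℝ) * (b : ℝ) ^ h ≤ 32 * 16 ^ h * N := by
    have h4 : (b : ℝ) ^ h * (((Kn N U (h * b) D).card : ℝ) * (b : ℝ) ^ h) ≤
        (b : ℝ) ^ h * (32 * 16 ^ h * N) := by
      have h5 : (16 : ℝ) ^ h = 4 ^ h * 4 ^ h := by rw [← mul_pow]; norm_num
      have h6 : (0 : ℝ) < (4 : ℝ) ^ h := by positivity
      have h7 : ((Kn N U (h * b) D).card : ℝ) * ((b : ℝ) ^ h * (b : ℝ) ^ h) ≤
          4 ^ h * (32 * N * (b : ℝ) ^ h) * 4 ^ h := by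
        rw [← div_le_iff₀ h6]
        rw [← mul_div_assoc] at h1
        exact h1
      rw [h5]
      linarith
    exact le_of_mul_le_mul_left h4 hb0
  exact_mod_cast h3

end Pool.Agent.Helper24.RH
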