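import Mathlib
import Pool.Agent.Helper24.RH.RH1
import Pool.Agent.Helper24.RH.RH7
import Pool.Agent.Helper94.SF.Final

/-!
# Project RH (MP_d5570f_nt), piece RH-8: two sets with squarefree sums
-/

set_option linter.unusedSectionVars false

open Finset Pool.Agent.Helper94.SF

namespace Pool.Agent.Helper24.RH

/-- Proof.  `fingerprint` gives `S ⊆ A`, `|S| ≤ K`, `(K + 1) ∑ p ∈ P, #{a ∈ A unhit mod p ^ 2}
≤ |P| |A| y ^ 2`.  For `a ∈ A \ Kn N P (h b) S` (note `A ⊆ Icc 1 N`) the number of `p ∈ P` for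
which `a` is not hit is more than `h b / 4`; double counting: `h b |A \ Kn| ≤ 4 ∑ p, #unhit`, so
`(K + 1) h b |A \ Kn| ≤ 4 |P| |A| y ^ 2 = 16 h b |A| y ^ 2`, `(K + 1) |A \ Kn| ≤ 16 |A| y ^ 2`,
and `32 y ^ 2 ≤ K` gives `2 |A \ Kn| ≤ |A|`.  So `|A ∩ Kn| ≥ |A| / 2 ≥ m + K`, and
`A ∩ Kn \ S` has at least `m` elements; take a subset with `m` elements. -/
theorem half_in (N y h b K m : ℕ) (P : Finset ℕ) (hP : ∀ p ∈ P, 0 < p ∧ p ≤ y)
    (hPc : P.card = 4 * h * b) (hhb : 0 < h * b) (hK : 32 * y ^ 2 ≤ K) (A : Finset ℕ)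
    (hA : A ⊆ Icc 1 N) (hcard : 2 * (m + K) ≤ A.card) :
    ∃ S A' : Finset ℕ, S ⊆ A ∧ A' ⊆ A ∧ Disjoint S A' ∧ S.card ≤ K ∧ A'.card = m ∧
      A' ⊆ Kn N P (h * b) S := by
  obtain ⟨S, hSA, hSK, hS⟩ := fingerprint P A y K hP
  set X := A.filter (fun a => a ∉ Kn N P (h * b) S) with hX
  set W := ∑ p ∈ P, (A.filter (fun a => a % p ^ 2 ∉ S.image (fun d => d % p ^ 2))).card with hW
  have h1 : (h * b) * X.card ≤ 4 * W := by
    have e1 : ∀ a ∈ X, h * b ≤
        4 * (P.filter (fun p => a % p ^ 2 ∉ S.image (fun d => d % p ^ 2))).card := by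
      intro a ha
      rw [hX, mem_filter] at ha
      by_contra hlt
      push Not at hlt
      exact ha.2 (mem_filter.2 ⟨hA ha.1, hlt.le⟩)
    calc (h * b) * X.card = ∑ a ∈ X, (h * b) := by rw [sum_const, smul_eq_mul, mul_comm]
      _ ≤ ∑ a ∈ X, 4 * (P.filter (fun p => a % p ^ 2 ∉ S.image (fun d => d % p ^ 2))).card :=
          sum_le_sum e1
      _ ≤ ∑ a ∈ A, 4 * (P.filter (fun p => a % p ^ 2 ∉ S.image (fun d => d % p ^ 2))).card :=
          sum_le_sum_of_subset (filter_subset _ _)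
      _ = 4 * W := by
          rw [← mul_sum, hW]
          congr 1
          simp only [card_filter]
          exact sum_comm
  have h2 : (K + 1) * X.card ≤ 16 * A.card * y ^ 2 := by
    refine le_of_mul_le_mul_left ?_ hhb
    calc (h * b) * ((K + 1) * X.card) = (K + 1) * ((h * b) * X.card) := by ring
      _ ≤ (K + 1) * (4 * W) := Nat.mul_le_mul_left _ h1
      _ = 4 * ((K + 1) * W) := by ring
      _ ≤ 4 * (P.card * A.card * y ^ 2) := Nat.mul_le_mul_left _ hS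
      _ = (h * b) * (16 * A.card * y ^ 2) := by rw [hPc]; ring
  have h3 : 2 * X.card ≤ A.card := by
    refine le_of_mul_le_mul_left ?_ (Nat.succ_pos K)
    calc (K + 1) * (2 * X.card) = 2 * ((K + 1) * X.card) := by ring
      _ ≤ 2 * (16 * A.card * y ^ 2) := Nat.mul_le_mul_left _ h2
      _ = (32 * y ^ 2) * A.card := by ring
      _ ≤ (K + 1) * A.card := Nat.mul_le_mul_right _ (hK.trans (Nat.le_succ K))
  have h4 : (A.filter (fun a => a ∈ Kn N P (h * b) S)).card + X.card = A.card :=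
    card_filter_add_card_filter_not _
  have h5 : m ≤ ((A.filter (fun a => a ∈ Kn N P (h * b) S)) \ S).card := by
    have h6 := le_card_sdiff S (A.filter (fun a => a ∈ Kn N P (h * b) S))
    omega
  obtain ⟨A', hA', hm⟩ := exists_subset_card_eq h5
  refine ⟨S, A', hSA, fun x hx => ?_, ?_, hSK, hm, fun x hx => ?_⟩
  · exact (mem_filter.1 (mem_sdiff.1 (hA' hx)).1).1
  · rw [disjoint_left]
    intro x hx hx'
    exact (mem_sdiff.1 (hA' hx')).2 hx
  · exact (mem_filter.1 (mem_sdiff.1 (hA' hx)).1).2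

private theorem RH8_small (N y h b V : ℕ) (hy : 1 ≤ y) (hN : 0 < N) (hsz : y ^ (4 * h) ≤ 8 * N)
    (P : Finset ℕ) (hP : ∀ p ∈ P, p.Prime ∧ p ≤ y) (hPc : P.card = 4 * h * b)
    (hhb : 0 < h * b) (hV : 32 * 16 ^ h * N < (V + 1) * b ^ h) (D : Finset ℕ)
    (hU : P.card ≤ 2 * (P.filter fun p => 2 * ncl (p ^ 2) D ≤ p ^ 2).card) :
    (Kn N P (h * b) D).card ≤ V := by
  rcases D.eq_empty_or_nonempty with rfl | hD
  · have h1 : Kn N P (h * b) ∅ = ∅ := by
      unfold Kn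
      rw [filter_eq_empty_iff]
      intro n _ hn
      simp only [image_empty, notMem_empty, not_false_eq_true, filter_true, hPc] at hn
      have h2 : 4 * h * b = 4 * (h * b) := by ring
      rw [h2] at hn
      omega
    rw [h1, card_empty]
    exact Nat.zero_le V
  · set U := P.filter fun p => 2 * ncl (p ^ 2) D ≤ p ^ 2 with hUd
    have hc : 2 * h * b ≤ U.card := by
      have h2 : 4 * h * b = 2 * (2 * h * b) := by ring
      rw [hPc, h2] at hU
      omega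
    have h1 := container_bound N y h b hy hN hsz U
      (fun p hp => hP p (mem_filter.1 hp).1) hc D hD fun p hp => (mem_filter.1 hp).2
    have h2 : Kn N P (h * b) D ⊆ Kn N U (h * b) D := by
      intro n hn
      unfold Kn at hn ⊢
      rw [mem_filter] at hn ⊢
      refine ⟨hn.1, le_trans (Nat.mul_le_mul_left _ (card_le_card ?_)) hn.2⟩
      exact filter_subset_filter _ (filter_subset _ _)
    have h3 : (Kn N U (h * b) D).card < V + 1 := by
      by_contra hlt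
      push Not at hlt
      have h4 := Nat.mul_le_mul_right (b ^ h) hlt
      omega
    have h4 := card_le_card h2
    omega

/-- Proof.  `half_in` for `A` and for `B` gives `S, A'` and `T, B'`.  For each `p ∈ P`
`ncl (p ^ 2) S + ncl (p ^ 2) T ≤ p ^ 2` (`classes_of_squarefree`), so one of `2 ncl S ≤ p ^ 2`,
`2 ncl T ≤ p ^ 2` holds; by symmetry let the first hold for the `p` in `U ⊆ P` with `2 |U| ≥ |P|`,
so `|U| ≥ 2 h b`.  If `S` is nonempty, `container_bound` for `U` and `S`, with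
`Kn N P (h b) S ⊆ Kn N U (h b) S` (fewer conditions counted), gives
`|Kn N P (h b) S| b ^ h ≤ 32 * 16 ^ h * N`, hence `≤ V` by `hV`.  If `S = ∅` then all `p ∈ P` are
unhit by every `n` and `4 |P| = 16 h b > h b`, so `Kn N P (h b) ∅ = ∅`. -/
theorem one_small (N y h b K m V : ℕ) (hy : 1 ≤ y) (hN : 0 < N) (hsz : y ^ (4 * h) ≤ 8 * N)
    (P : Finset ℕ) (hP : ∀ p ∈ P, p.Prime ∧ p ≤ y) (hPc : P.card = 4 * h * b)
    (hhb : 0 < h * b) (hK : 32 * y ^ 2 ≤ K) (hV : 32 * 16 ^ h * N < (V + 1) * b ^ h)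
    (A B : Finset ℕ) (hA : A ⊆ Icc 1 N) (hB : B ⊆ Icc 1 N)
    (hsq : ∀ a ∈ A, ∀ b ∈ B, Squarefree (a + b))
    (hcA : 2 * (m + K) ≤ A.card) (hcB : 2 * (m + K) ≤ B.card) :
    ∃ S A' : Finset ℕ, (S ⊆ A ∧ A' ⊆ A ∨ S ⊆ B ∧ A' ⊆ B) ∧ Disjoint S A' ∧ S.card ≤ K ∧
      A'.card = m ∧ A' ⊆ Kn N P (h * b) S ∧ (Kn N P (h * b) S).card ≤ V := by
  have hP' : ∀ p ∈ P, 0 < p ∧ p ≤ y := fun p hp => ⟨(hP p hp).1.pos, (hP p hp).2⟩
  obtain ⟨S, A', hS1, hS2, hS3, hS4, hS5, hS6⟩ := half_in N y h b K m P hP' hPc hhb hK A hA hcA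
  obtain ⟨T, B', hT1, hT2, hT3, hT4, hT5, hT6⟩ := half_in N y h b K m P hP' hPc hhb hK B hB hcB
  have h1 : P ⊆ (P.filter fun p => 2 * ncl (p ^ 2) S ≤ p ^ 2) ∪
      (P.filter fun p => 2 * ncl (p ^ 2) T ≤ p ^ 2) := by
    intro p hp
    have h2 := classes_of_squarefree S T (fun a ha c hc => hsq a (hS1 ha) c (hT1 hc)) p (hP p hp).1
    rw [mem_union, mem_filter, mem_filter]
    by_cases h3 : 2 * ncl (p ^ 2) S ≤ p ^ 2
    · exact Or.inl ⟨hp, h3⟩
    · exact Or.inr ⟨hp, by omega⟩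
  have h2 := (card_le_card h1).trans (card_union_le _ _)
  rcases le_total P.card (2 * (P.filter fun p => 2 * ncl (p ^ 2) S ≤ p ^ 2).card) with h3 | h3
  · exact ⟨S, A', Or.inl ⟨hS1, hS2⟩, hS3, hS4, hS5, hS6,
      RH8_small N y h b V hy hN hsz P hP hPc hhb hV S h3⟩
  · exact ⟨T, B', Or.inr ⟨hT1, hT2⟩, hT3, hT4, hT5, hT6,
      RH8_small N y h b V hy hN hsz P hP hPc hhb hV T (by omega)⟩

end Pool.Agent.Helper24.RH
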