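import Mathlib
import Pool.Agent.Helper24.RH.RH2
import Pool.Agent.Helper24.RH.RH6
import Pool.Agent.Helper24.RH.RH8
import Pool.Agent.Helper24.RH.RH10
import Pool.Agent.Helper24.RH.RH12
import Pool.Agent.Helper24.FP.Par

/-!
# Project RH (MP_d5570f_nt): the order of magnitude in almost every host
-/

set_option linter.unusedSectionVars false

open Finset Pool.Agent.Helper94.SF

namespace Pool.Agent.Helper24.RH

theorem pr_count : ∃ x₀ : ℕ, ∀ x : ℕ, x₀ ≤ x → (x : ℝ) / (4 * Real.log x) ≤ ((pr x).card : ℝ) := by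
  obtain ⟨x₀, hx₀⟩ := Pool.Agent.Helper94.SF.primes_count
  refine ⟨x₀, fun x hx => (hx₀ x hx).trans ?_⟩
  have h : prs x ⊆ pr x := by
    intro p hp
    have h1 := (mem_prs _ _).1 hp
    unfold pr
    rw [Finset.mem_filter, Finset.mem_Icc]
    exact ⟨⟨h1.2.1.one_le, h1.1⟩, h1.2.1⟩
  exact_mod_cast Finset.card_le_card h

/-- The comparison for the lower bound. -/
theorem low_ineq (L : ℝ) (hL : 160000 ≤ L) :
    L ^ 3 * (L + 2) - Real.exp (3 * L / 4) / 4 ≤ -(L ^ 3) - 1 := by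
  have h1 := big_exp L hL
  have h2 : Real.exp (L / 2) ≤ Real.exp (3 * L / 4) := Real.exp_le_exp.2 (by linarith)
  have h3 : (0 : ℝ) ≤ L ^ 4 := by positivity
  have h4 : L ^ 5 = L * L ^ 4 := by ring
  have h5 : L ^ 4 = L * L ^ 3 := by ring
  have h6 : (1 : ℝ) ≤ L ^ 3 := one_le_pow₀ (by linarith)
  have h7 : 160000 * L ^ 4 ≤ L ^ 5 := by rw [h4]; exact mul_le_mul_of_nonneg_right hL h3
  have h8 : 160000 * L ^ 3 ≤ L ^ 4 := by
    rw [h5]; exact mul_le_mul_of_nonneg_right hL (by positivity)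
  have h9 : L ^ 3 * (L + 2) = L ^ 4 + 2 * L ^ 3 := by ring
  rw [h9]
  linarith

/-- The numbers `J` and `E` for the lower bound. -/
theorem low_nums (L u : ℝ) (hL : 160000 ≤ L) (hu : 1 ≤ u) (hul : u ≤ Real.log L) (r N : ℕ)
    (hr : Real.exp L = r) (hN : Real.exp (24 * u * L) ≤ N) :
    (⌊u ^ 2 * L ^ 2 / 1228800⌋₊ : ℝ) ≤ L ^ 3 ∧ (⌊u ^ 2 * L ^ 2 / 1228800⌋₊ : ℝ) ≤ r / 2 ∧
      (2 : ℝ) * r ≤ N ∧
      (N : ℝ) * Real.exp (-(L / 4)) / 2 ≤ (⌊(N : ℝ) * Real.exp (-(L / 4))⌋₊ : ℝ) := by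
  have hL0 : 0 < L := by linarith
  obtain ⟨hl11, hl2, hl28⟩ := big_log L hL
  have hL5 := big_exp L hL
  have hu0 : 0 < u := by linarith
  have huu : u ^ 2 ≤ L := le_trans (pow_le_pow_left₀ hu0.le hul 2) hl2
  have hu2L2 : u ^ 2 * L ^ 2 ≤ L ^ 3 := by
    calc u ^ 2 * L ^ 2 ≤ L * L ^ 2 := mul_le_mul_of_nonneg_right huu (by positivity)
      _ = L ^ 3 := by ring
  have hJ1 : (⌊u ^ 2 * L ^ 2 / 1228800⌋₊ : ℝ) ≤ u ^ 2 * L ^ 2 / 1228800 :=
    Nat.floor_le (by positivity)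
  have hL3' : (0 : ℝ) ≤ L ^ 3 := by positivity
  have hJ3 : (⌊u ^ 2 * L ^ 2 / 1228800⌋₊ : ℝ) ≤ L ^ 3 := by
    have : (0 : ℝ) ≤ u ^ 2 * L ^ 2 := by positivity
    linarith
  refine ⟨hJ3, ?_, ?_, ?_⟩
  · rw [← hr]
    have h1 : Real.exp (L / 2) ≤ Real.exp L := Real.exp_le_exp.2 (by linarith)
    have h2 : L ^ 5 = L ^ 3 * L ^ 2 := by ring
    have h3 : (2 : ℝ) ≤ L ^ 2 := by nlinarith
    have h4 : L ^ 3 * 2 ≤ L ^ 3 * L ^ 2 := mul_le_mul_of_nonneg_left h3 hL3'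
    linarith
  · rw [← hr]
    refine le_trans ?_ hN
    have h2 : Real.exp (24 * u * L) = Real.exp L * Real.exp (24 * u * L - L) := by
      rw [← Real.exp_add]; congr 1; ring
    rw [h2, mul_comm (2 : ℝ)]
    apply mul_le_mul_of_nonneg_left _ (Real.exp_pos _).le
    have h3 := Real.add_one_le_exp (24 * u * L - L)
    nlinarith
  · have h1 := Nat.lt_floor_add_one ((N : ℝ) * Real.exp (-(L / 4)))
    have h2 : 2 ≤ (N : ℝ) * Real.exp (-(L / 4)) := by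
      have h3 : Real.exp (24 * u * L) * Real.exp (-(L / 4)) ≤ (N : ℝ) * Real.exp (-(L / 4)) :=
        mul_le_mul_of_nonneg_right hN (Real.exp_pos _).le
      rw [← Real.exp_add] at h3
      have h4 := Real.add_one_le_exp (24 * u * L + -(L / 4))
      nlinarith
    linarith

/-- The proportion for the lower bound. -/
theorem low_prop (L : ℝ) (hL : 160000 ≤ L) (r N J E : ℕ) (hr : Real.exp L = r)
    (hN0 : (0 : ℝ) < N) (hJ3 : (J : ℝ) ≤ L ^ 3) (hJr : (J : ℝ) ≤ r / 2)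
    (hE1 : (N : ℝ) * Real.exp (-(L / 4)) / 2 ≤ E) :
    ((J : ℝ) + 1) * (2 * (r : ℝ)) ^ J * Real.exp (-((E : ℝ) * (r - J) / N))
      ≤ Real.exp (-(L ^ 3) - 1) := by
  have hlow := low_ineq L hL
  have hr0 : (0 : ℝ) < r := by rw [← hr]; exact Real.exp_pos _
  have h1 : ((J : ℝ) + 1) ≤ Real.exp J := Real.add_one_le_exp _
  have h2 : (2 * (r : ℝ)) ^ J ≤ Real.exp (J * (L + 1)) := by
    rw [Real.exp_nat_mul]
    apply pow_le_pow_left₀ (by positivity)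
    rw [Real.exp_add, hr, mul_comm]
    apply mul_le_mul_of_nonneg_left _ hr0.le
    have := Real.add_one_le_exp (1 : ℝ)
    linarith
  have h3 : Real.exp (3 * L / 4) / 4 ≤ (E : ℝ) * (r - J) / N := by
    rw [le_div_iff₀ hN0]
    have h4 : (r : ℝ) / 2 ≤ r - J := by linarith
    have h5 : Real.exp (3 * L / 4) = Real.exp (-(L / 4)) * r := by
      rw [← hr, ← Real.exp_add]; congr 1; ring
    rw [h5]
    calc Real.exp (-(L / 4)) * r / 4 * N
        = ((N : ℝ) * Real.exp (-(L / 4)) / 2) * (r / 2) := by ring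
      _ ≤ E * (r - J) := mul_le_mul hE1 h4 (by positivity) (Nat.cast_nonneg _)
  have h6 : Real.exp (-((E : ℝ) * (r - J) / N)) ≤ Real.exp (-(Real.exp (3 * L / 4) / 4)) :=
    Real.exp_le_exp.2 (by linarith)
  calc ((J : ℝ) + 1) * (2 * (r : ℝ)) ^ J * Real.exp (-((E : ℝ) * (r - J) / N))
      ≤ Real.exp J * Real.exp (J * (L + 1)) * Real.exp (-(Real.exp (3 * L / 4) / 4)) := by
        apply mul_le_mul _ h6 (Real.exp_pos _).le (by positivity)
        exact mul_le_mul h1 h2 (by positivity) (Real.exp_pos _).le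
    _ = Real.exp (J * (L + 2) - Real.exp (3 * L / 4) / 4) := by
        rw [← Real.exp_add, ← Real.exp_add]; congr 1; ring
    _ ≤ Real.exp (-(L ^ 3) - 1) := by
        apply Real.exp_le_exp.2
        have h7 : (J : ℝ) * (L + 2) ≤ L ^ 3 * (L + 2) :=
          mul_le_mul_of_nonneg_right hJ3 (by linarith)
        linarith

open Classical in
/-- The hosts without a large clique. -/
theorem low_part (L u : ℝ) (hL : 160000 ≤ L) (hu : 1 ≤ u) (hul : u ≤ Real.log L) (r N : ℕ)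
    (hr : Real.exp L = r) (hN : Real.exp (24 * u * L) ≤ N) (J : ℕ)
    (hJ : J = ⌊u ^ 2 * L ^ 2 / 1228800⌋₊) (rel : ℕ → ℕ → Prop)
    (hrel : ∀ a b, rel a b ↔ Squarefree (a + b)) :
    ((((Icc 1 N).powersetCard r).filter (fun R => ∀ A : Finset ℕ, A ⊆ R →
      (∀ a ∈ A, ∀ b ∈ A, rel a b) → A.card ≤ J)).card : ℝ)
      ≤ Real.exp (-(L ^ 3) - 1) * (N.choose r : ℝ) := by
  obtain ⟨y, hy⟩ := ext_lower L u hL hu hul N hN
  have hN0 : (0 : ℝ) < N := lt_of_lt_of_le (Real.exp_pos _) hN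
  have hr0 : (0 : ℝ) < r := by rw [← hr]; exact Real.exp_pos _
  obtain ⟨hJ3, hJr, h2rN, hE1⟩ := low_nums L u hL hu hul r N hr hN
  rw [← hJ] at hJ3 hJr
  have hJ1 : (J : ℝ) ≤ u ^ 2 * L ^ 2 / 1228800 := by
    rw [hJ]; exact Nat.floor_le (by positivity)
  have hJrn : J ≤ r := by
    have : (J : ℝ) ≤ r := by linarith
    exact Nat.cast_le.1 this
  have h2rN' : 2 * r ≤ N := by
    have h1 : ((2 * r : ℕ) : ℝ) ≤ N := by rw [Nat.cast_mul]; exact h2rN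
    exact Nat.cast_le.1 h1
  have hr1 : 1 ≤ r := Nat.cast_pos.1 hr0
  obtain ⟨E, hE⟩ : ∃ E : ℕ, E = ⌊(N : ℝ) * Real.exp (-(L / 4))⌋₊ := ⟨_, rfl⟩
  rw [← hE] at hE1
  have hcond : ∀ D : Finset ℕ, D ⊆ Vy N y → D.card ≤ J → (∀ a ∈ D, ∀ b ∈ D, rel a b) →
      E ≤ ((Vy N y).filter (fun n => rel n n ∧ ∀ d ∈ D, rel n d)).card := by
    intro D hD hDJ _
    have h1 := hy D hD (by
      have : (D.card : ℝ) ≤ J := Nat.cast_le.2 hDJ
      linarith)
    have h2 : (Vy N y).filter (fun n => rel n n ∧ ∀ d ∈ D, rel n d)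
        = (Vy N y).filter (fun n => Squarefree (n + n) ∧ ∀ d ∈ D, Squarefree (n + d)) := by
      apply Finset.filter_congr
      intro n _
      simp only [hrel]
    rw [h2, hE]
    apply Nat.floor_le_of_le
    refine h1.trans (le_of_eq ?_)
    congr
  have hmain := host_lower N r J E rel
    (fun a b h => by rw [hrel] at h ⊢; rw [add_comm]; exact h) (Vy N y)
    (Finset.filter_subset _ _) h2rN' hJrn hr1 hcond
  refine hmain.trans ?_
  exact mul_le_mul_of_nonneg_right (low_prop L hL r N J E hr hN0 hJ3 hJr hE1) (Nat.cast_nonneg _)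

/-- The proportion for the upper bound. -/
theorem up_prop (L : ℝ) (hL : 1 ≤ L) (r N y V bad ch K m : ℕ) (hr : Real.exp L = r)
    (hN : 0 < N) (hV : V * r ^ 2 ≤ N) (hLy : L ≤ y) (hK : K = 32 * y ^ 2) (hm : m = 2 * K + 1)
    (hyr : K + 1 ≤ r) (h : bad * N ^ m ≤ (K + 1) * r ^ K * (V * r) ^ m * ch) :
    (bad : ℝ) ≤ Real.exp (-(L ^ 3) - 1) * (ch : ℝ) := by
  rw [hm] at h
  have h1 : bad * r ^ (2 * K + 1) * N ^ (2 * K + 1)
      ≤ r ^ (K + 1) * ch * N ^ (2 * K + 1) := by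
    calc bad * r ^ (2 * K + 1) * N ^ (2 * K + 1) = bad * N ^ (2 * K + 1) * r ^ (2 * K + 1) := by
          ring
      _ ≤ ((K + 1) * r ^ K * (V * r) ^ (2 * K + 1) * ch) * r ^ (2 * K + 1) :=
          Nat.mul_le_mul_right _ h
      _ = (K + 1) * r ^ K * ch * (V * r ^ 2) ^ (2 * K + 1) := by
          rw [mul_pow, mul_pow, ← pow_mul]; ring
      _ ≤ r * r ^ K * ch * N ^ (2 * K + 1) := by
          apply Nat.mul_le_mul _ (Nat.pow_le_pow_left hV _)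
          apply Nat.mul_le_mul_right
          exact Nat.mul_le_mul_right _ hyr
      _ = _ := by rw [← pow_succ']
  have h2 : bad * r ^ (2 * K + 1) ≤ r ^ (K + 1) * ch :=
    Nat.le_of_mul_le_mul_right h1 (pow_pos hN _)
  have hr0 : 0 < r := by omega
  have h3 : bad * r ^ K ≤ ch := by
    have h4 : (bad * r ^ K) * r ^ (K + 1) ≤ ch * r ^ (K + 1) := by
      calc (bad * r ^ K) * r ^ (K + 1) = bad * r ^ (2 * K + 1) := by
            rw [mul_assoc, ← pow_add]; congr 2; ring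
        _ ≤ r ^ (K + 1) * ch := h2
        _ = ch * r ^ (K + 1) := mul_comm _ _
    exact Nat.le_of_mul_le_mul_right h4 (pow_pos hr0 _)
  have h4 : (bad : ℝ) * (r : ℝ) ^ K ≤ ch := by exact_mod_cast h3
  have h5 : (r : ℝ) ^ K = Real.exp (K * L) := by rw [← hr, ← Real.exp_nat_mul]
  have h6 : L ^ 3 + 1 ≤ K * L := by
    have h7 : (K : ℝ) = 32 * (y : ℝ) ^ 2 := by rw [hK]; push_cast; ring
    rw [h7]
    have h8 : L ^ 2 ≤ (y : ℝ) ^ 2 := pow_le_pow_left₀ (by linarith) hLy 2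
    have h9 : L ^ 2 * L ≤ (y : ℝ) ^ 2 * L := mul_le_mul_of_nonneg_right h8 (by linarith)
    have h10 : (1 : ℝ) ≤ L ^ 3 := one_le_pow₀ hL
    have h11 : L ^ 2 * L = L ^ 3 := by ring
    nlinarith
  rw [h5] at h4
  have h7 : (bad : ℝ) ≤ ch * Real.exp (-(K * L)) := by
    rw [Real.exp_neg, ← div_eq_mul_inv, le_div_iff₀ (Real.exp_pos _)]
    exact h4
  refine h7.trans ?_
  rw [mul_comm]
  apply mul_le_mul_of_nonneg_right _ (Nat.cast_nonneg _)
  apply Real.exp_le_exp.2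
  linarith

open Classical in
/-- The hosts with two large sets whose sums are squarefree. -/
theorem up_part (L : ℝ) (hL : 1 ≤ L) (r N y h b V : ℕ) (hr : Real.exp L = r) (hN : 0 < N)
    (hy1 : 1 ≤ y) (hhb : 0 < h * b) (hpr : 4 * h * b ≤ (pr y).card) (hsz : y ^ (4 * h) ≤ 8 * N)
    (hV1 : 32 * 16 ^ h * N < (V + 1) * b ^ h) (hV : V * r ^ 2 ≤ N) (hLy : L ≤ y)
    (hyr : 32 * y ^ 2 + 1 ≤ r) :
    ((((Icc 1 N).powersetCard r).filter (fun R => ∃ A B : Finset ℕ, A ⊆ R ∧ B ⊆ R ∧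
      (∀ a ∈ A, ∀ b ∈ B, Squarefree (a + b)) ∧ 200 * y ^ 2 ≤ A.card ∧
        200 * y ^ 2 ≤ B.card)).card : ℝ)
      ≤ Real.exp (-(L ^ 3) - 1) * (N.choose r : ℝ) := by
  obtain ⟨P, hP, hPc⟩ := Finset.exists_subset_card_eq hpr
  have hP1 : ∀ p ∈ P, p.Prime ∧ p ≤ y := by
    intro p hp
    have h1 := hP hp
    unfold pr at h1
    rw [Finset.mem_filter, Finset.mem_Icc] at h1
    exact ⟨h1.2, h1.1.2⟩
  obtain ⟨K, hK⟩ : ∃ K : ℕ, K = 32 * y ^ 2 := ⟨_, rfl⟩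
  obtain ⟨m, hm⟩ : ∃ m : ℕ, m = 2 * K + 1 := ⟨_, rfl⟩
  obtain ⟨T, hT⟩ : ∃ T : ℕ, T = 200 * y ^ 2 := ⟨_, rfl⟩
  rw [← hK] at hyr
  rw [← hT]
  have hr1 : 1 ≤ r := le_trans (Nat.le_add_left 1 K) hyr
  have hy2 : 1 ≤ y ^ 2 := Nat.one_le_pow _ _ hy1
  have hTm : 2 * (m + K) ≤ T := by rw [hm, hK, hT]; omega
  have h1 := two_step_all N r K m V hr1 (Kn N P (h * b))
  refine up_prop L hL r N y V _ _ K m hr hN hV hLy hK hm hyr
    (le_trans (Nat.mul_le_mul_right _ ?_) h1)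
  apply Finset.card_le_card
  intro R hR
  rw [Finset.mem_filter] at hR ⊢
  refine ⟨hR.1, ?_⟩
  obtain ⟨A, B, hA, hB, hsq, hcA, hcB⟩ := hR.2
  have hRN : R ⊆ Icc 1 N := (Finset.mem_powersetCard.1 hR.1).1
  obtain ⟨S, A', hSA, hdis, hSc, hA'c, hA'K, hKV⟩ := one_small N y h b K m V hy1 hN hsz P hP1
    hPc hhb hK.ge hV1 A B (hA.trans hRN) (hB.trans hRN) hsq (hTm.trans hcA) (hTm.trans hcB)
  rcases hSA with ⟨h2, h3⟩ | ⟨h2, h3⟩
  · exact ⟨S, A', h2.trans hA, h3.trans hA, hdis, hSc, hA'c, hA'K, hKV⟩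
  · exact ⟨S, A', h2.trans hB, h3.trans hB, hdis, hSc, hA'c, hA'K, hKV⟩

end Pool.Agent.Helper24.RH
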