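import Mathlib
import Pool.Agent.Helper24.RH.RH13

/-!
# Project RH (MP_d5570f_nt): the order of magnitude in almost every host, final statement
-/

set_option linter.unusedSectionVars false

open Finset

namespace Pool.Agent.Helper24.RH

theorem log_large (K : ℝ) : ∃ r₂ : ℕ, ∀ r : ℕ, r₂ ≤ r → 1 ≤ r ∧ K ≤ Real.log r := by
  refine ⟨max 1 ⌈Real.exp K⌉₊, fun r hr => ?_⟩
  have h1 : 1 ≤ r := le_trans (le_max_left _ _) hr
  refine ⟨h1, ?_⟩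
  have hr0 : (0 : ℝ) < r := Nat.cast_pos.2 h1
  rw [Real.le_log_iff_exp_le hr0]
  exact le_trans (Nat.le_ceil _) (Nat.cast_le.2 (le_trans (le_max_right _ _) hr))

/-- The two bounds for one host. -/
theorem host_good (R : Finset ℕ) (J Y : ℕ) (t T : ℝ) (ht : t < J + 1) (hT : (Y : ℝ) ≤ T)
    (h1 : ¬ ∀ A : Finset ℕ, A ⊆ R → (∀ a ∈ A, ∀ b ∈ A, Squarefree (a + b)) → A.card ≤ J)
    (h2 : ¬ ∃ A B : Finset ℕ, A ⊆ R ∧ B ⊆ R ∧ (∀ a ∈ A, ∀ b ∈ B, Squarefree (a + b)) ∧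
      Y ≤ A.card ∧ Y ≤ B.card) :
    (∃ A : Finset ℕ, A ⊆ R ∧ (∀ a ∈ A, ∀ b ∈ A, Squarefree (a + b)) ∧ t ≤ A.card) ∧
      ∀ A B : Finset ℕ, A ⊆ R → B ⊆ R → (∀ a ∈ A, ∀ b ∈ B, Squarefree (a + b)) →
        (A.card : ℝ) ≤ T ∨ (B.card : ℝ) ≤ T := by
  constructor
  · push Not at h1
    obtain ⟨A, hA, hAsq, hAc⟩ := h1
    refine ⟨A, hA, hAsq, ?_⟩
    have h3 : (J : ℝ) + 1 ≤ A.card := by
      rw [← Nat.cast_add_one]
      exact Nat.cast_le.2 hAc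
    linarith
  · intro A B hA hB hsq
    by_contra hno
    push Not at hno
    apply h2
    refine ⟨A, B, hA, hB, hsq, ?_, ?_⟩
    · exact Nat.cast_le.1 (hT.trans hno.1.le)
    · exact Nat.cast_le.1 (hT.trans hno.2.le)

theorem two_exp (x ch : ℝ) (hch : 0 ≤ ch) (a b : ℝ) (ha : a ≤ Real.exp (x - 1) * ch)
    (hb : b ≤ Real.exp (x - 1) * ch) : a + b ≤ Real.exp x * ch := by
  have h1 : (2 : ℝ) ≤ Real.exp 1 := by
    have := Real.add_one_le_exp (1 : ℝ)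
    linarith
  have h2 : Real.exp x = Real.exp (x - 1) * Real.exp 1 := by
    rw [← Real.exp_add]; congr 1; ring
  rw [h2]
  have h3 : 0 ≤ Real.exp (x - 1) * ch := mul_nonneg (Real.exp_pos _).le hch
  nlinarith

open Classical in
/-- `low_part` for any family of hosts. -/
theorem low_family (L u : ℝ) (hL : 160000 ≤ L) (hu : 1 ≤ u) (hul : u ≤ Real.log L) (r N : ℕ)
    (hr : Real.exp L = r) (hN : Real.exp (24 * u * L) ≤ N) (J : ℕ)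
    (hJ : J = ⌊u ^ 2 * L ^ 2 / 1228800⌋₊) (rel : ℕ → ℕ → Prop)
    (hrel : ∀ a b, rel a b ↔ Squarefree (a + b)) (Z : Finset (Finset ℕ))
    (hZ : ∀ R ∈ Z, R ∈ (Icc 1 N).powersetCard r ∧ ∀ A : Finset ℕ, A ⊆ R →
      (∀ a ∈ A, ∀ b ∈ A, rel a b) → A.card ≤ J) :
    (Z.card : ℝ) ≤ Real.exp (-(L ^ 3) - 1) * (N.choose r : ℝ) := by
  refine le_trans (Nat.cast_le.2 (Finset.card_le_card ?_))
    (low_part L u hL hu hul r N hr hN J hJ rel hrel)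
  intro R hR
  exact Finset.mem_filter.2 (hZ R hR)

open Classical in
/-- `up_part` for any family of hosts. -/
theorem up_family (L : ℝ) (hL : 1 ≤ L) (r N y h b V Y : ℕ) (hr : Real.exp L = r) (hN : 0 < N)
    (hy1 : 1 ≤ y) (hhb : 0 < h * b) (hpr : 4 * h * b ≤ (pr y).card) (hsz : y ^ (4 * h) ≤ 8 * N)
    (hV1 : 32 * 16 ^ h * N < (V + 1) * b ^ h) (hV : V * r ^ 2 ≤ N) (hLy : L ≤ y)
    (hyr : 32 * y ^ 2 + 1 ≤ r) (hY : Y = 200 * y ^ 2) (Z : Finset (Finset ℕ))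
    (hZ : ∀ R ∈ Z, R ∈ (Icc 1 N).powersetCard r ∧ ∃ A B : Finset ℕ, A ⊆ R ∧ B ⊆ R ∧
      (∀ a ∈ A, ∀ b ∈ B, Squarefree (a + b)) ∧ Y ≤ A.card ∧ Y ≤ B.card) :
    (Z.card : ℝ) ≤ Real.exp (-(L ^ 3) - 1) * (N.choose r : ℝ) := by
  refine le_trans (Nat.cast_le.2 (Finset.card_le_card ?_))
    (up_part L hL r N y h b V hr hN hy1 hhb hpr hsz hV1 hV hLy hyr)
  intro R hR
  exact Finset.mem_filter.2 (by rw [← hY]; exact hZ R hR)

/-- Both bounds for given parameters. -/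
theorem host_both (L u c : ℝ) (hc : c = 1 / 1228800) (hL : 160000 ≤ L) (hu : 1 ≤ u)
    (hul : u ≤ Real.log L) (r N y h b V : ℕ) (hr : Real.exp L = r)
    (hN : Real.exp (24 * u * L) ≤ N)
    (hy1 : 1 ≤ y) (hhb : 0 < h * b) (hpr : 4 * h * b ≤ (pr y).card) (hsz : y ^ (4 * h) ≤ 8 * N)
    (hV1 : 32 * 16 ^ h * N < (V + 1) * b ^ h) (hV : V * r ^ 2 ≤ N) (hLy : L ≤ y)
    (hyr : 32 * y ^ 2 + 1 ≤ r) (T : ℝ) (hyC : 200 * (y : ℝ) ^ 2 ≤ T) (Z : Finset (Finset ℕ))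
    (hZ : ∀ R ∈ Z, R ∈ (Icc 1 N).powersetCard r ∧
      ¬ ((∃ A : Finset ℕ, A ⊆ R ∧ (∀ a ∈ A, ∀ b ∈ A, Squarefree (a + b)) ∧
          c * u ^ 2 * L ^ 2 ≤ A.card) ∧
        ∀ A B : Finset ℕ, A ⊆ R → B ⊆ R → (∀ a ∈ A, ∀ b ∈ B, Squarefree (a + b)) →
          (A.card : ℝ) ≤ T ∨ (B.card : ℝ) ≤ T)) :
    (Z.card : ℝ) ≤ Real.exp (-(L ^ 3)) * (N.choose r : ℝ) := by
  classical
  have hN0 : (0 : ℝ) < N := lt_of_lt_of_le (Real.exp_pos _) hN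
  have hN0' : 0 < N := Nat.cast_pos.1 hN0
  obtain ⟨J, hJ⟩ : ∃ J : ℕ, J = ⌊u ^ 2 * L ^ 2 / 1228800⌋₊ := ⟨_, rfl⟩
  obtain ⟨Y, hY⟩ : ∃ Y : ℕ, Y = 200 * y ^ 2 := ⟨_, rfl⟩
  obtain ⟨t, ht⟩ : ∃ t : ℝ, t = c * u ^ 2 * L ^ 2 := ⟨_, rfl⟩
  have hYT : (Y : ℝ) ≤ T := by
    rw [hY]; push_cast; exact hyC
  have htJ : t < J + 1 := by
    have h1 : u ^ 2 * L ^ 2 / 1228800 < J + 1 := by
      rw [hJ]; exact Nat.lt_floor_add_one _
    have h3 : t = u ^ 2 * L ^ 2 / 1228800 := by rw [ht, hc]; ring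
    rw [h3]
    exact h1
  obtain ⟨rel, hrel⟩ : ∃ rel : ℕ → ℕ → Prop, ∀ a b, rel a b ↔ Squarefree (a + b) :=
    ⟨fun a b => Squarefree (a + b), fun a b => Iff.rfl⟩
  obtain ⟨P1, hP1⟩ : ∃ P1 : Finset ℕ → Prop, ∀ R, P1 R ↔ ∀ A : Finset ℕ, A ⊆ R →
      (∀ a ∈ A, ∀ b ∈ A, rel a b) → A.card ≤ J := ⟨_, fun R => Iff.rfl⟩
  have h1 : ((Z.filter P1).card : ℝ) ≤ Real.exp (-(L ^ 3) - 1) * (N.choose r : ℝ) := by
    apply low_family L u hL hu hul r N hr hN J hJ rel hrel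
    intro R hR
    rw [Finset.mem_filter] at hR
    exact ⟨(hZ R hR.1).1, (hP1 R).1 hR.2⟩
  have h2 : ((Z.filter (fun R => ¬ P1 R)).card : ℝ)
      ≤ Real.exp (-(L ^ 3) - 1) * (N.choose r : ℝ) := by
    apply up_family L (by linarith) r N y h b V Y hr hN0' hy1 hhb hpr hsz hV1 hV hLy hyr hY
    intro R hR
    rw [Finset.mem_filter] at hR
    refine ⟨(hZ R hR.1).1, ?_⟩
    by_contra hno
    apply (hZ R hR.1).2
    rw [← ht]
    refine host_good R J Y t T htJ hYT (fun h3 => hR.2 ((hP1 R).2 ?_)) hno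
    intro A hA hAA
    exact h3 A hA (fun a ha b hb => (hrel a b).1 (hAA a ha b hb))
  have h3 : (Z.card : ℝ) = (Z.filter P1).card + (Z.filter (fun R => ¬ P1 R)).card := by
    rw [← Nat.cast_add, Finset.card_filter_add_card_filter_not]
  rw [h3]
  exact two_exp _ _ (Nat.cast_nonneg _) _ _ h1 h2

open Classical in
/-- **The order of magnitude in almost every host.** -/
theorem hosts_order : ∃ c C : ℝ, 0 < c ∧ 0 < C ∧ ∃ r₀ : ℕ, ∀ r : ℕ, r₀ ≤ r → ∀ u : ℝ, 1 ≤ u →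
    u ≤ Real.log (Real.log r) → ∀ N : ℕ, (r : ℝ) ^ (C * u) ≤ N →
    ((((Icc 1 N).powersetCard r).filter (fun R =>
      ¬ ((∃ A : Finset ℕ, A ⊆ R ∧ (∀ a ∈ A, ∀ b ∈ A, Squarefree (a + b)) ∧
          c * u ^ 2 * Real.log r ^ 2 ≤ A.card) ∧
        ∀ A B : Finset ℕ, A ⊆ R → B ⊆ R → (∀ a ∈ A, ∀ b ∈ B, Squarefree (a + b)) →
          (A.card : ℝ) ≤ C * u ^ 2 * Real.log r ^ (2 + 2 / u) ∨
          (B.card : ℝ) ≤ C * u ^ 2 * Real.log r ^ (2 + 2 / u)))).card : ℝ)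
      ≤ Real.exp (-(Real.log r ^ 3)) * (N.choose r : ℝ) := by
  obtain ⟨C₂, hC₂, r₁, hr₁⟩ := num_upper pr_count
  obtain ⟨r₂, hr₂⟩ := log_large 160000
  obtain ⟨C, hC⟩ : ∃ C : ℝ, C = max 48 C₂ := ⟨_, rfl⟩
  have hC48 : 48 ≤ C := by rw [hC]; exact le_max_left _ _
  have hCC : C₂ ≤ C := by rw [hC]; exact le_max_right _ _
  refine ⟨1 / 1228800, C, by norm_num, by linarith, max r₁ r₂, ?_⟩
  intro r hr u hu hul N hN
  obtain ⟨hr1, hL⟩ := hr₂ r (le_trans (le_max_right _ _) hr)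
  have hr0 : (0 : ℝ) < r := Nat.cast_pos.2 hr1
  have hr1' : (1 : ℝ) ≤ r := Nat.one_le_cast.2 hr1
  have hu0 : 0 < u := by linarith
  have hN48 : (r : ℝ) ^ (48 * u) ≤ N := by
    refine le_trans (Real.rpow_le_rpow_of_exponent_le hr1' ?_) hN
    exact mul_le_mul_of_nonneg_right hC48 hu0.le
  obtain ⟨y, h, b, V, hy1, hhb, hpr, hsz, hV1, hV, hLy, hyr, hyC⟩ :=
    hr₁ r (le_trans (le_max_left _ _) hr) u hu hul N hN48
  have hN24 : Real.exp (24 * u * Real.log r) ≤ N := by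
    refine le_trans ?_ hN48
    rw [Real.rpow_def_of_pos hr0]
    apply Real.exp_le_exp.2
    nlinarith
  have hyC' : 200 * (y : ℝ) ^ 2 ≤ C * u ^ 2 * Real.log r ^ (2 + 2 / u) := by
    refine hyC.trans ?_
    have h3 : 0 ≤ Real.log r ^ (2 + 2 / u) := Real.rpow_nonneg (by linarith) _
    exact mul_le_mul_of_nonneg_right (mul_le_mul_of_nonneg_right hCC (sq_nonneg u)) h3
  apply host_both (Real.log r) u _ rfl hL hu hul r N y h b V (Real.exp_log hr0) hN24 hy1 hhb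
    hpr hsz hV1 hV hLy hyr _ hyC'
  intro R hR
  rw [Finset.mem_filter] at hR
  exact hR

end Pool.Agent.Helper24.RH
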